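import Pool.Agent.Lib.PP2.G.Dlt

/-!
# visible triples
-/

namespace Pool.PP2

open Finset Classical Pool.PPart

variable {P : Type*} {α : Type*} [PartialOrder P] [Fintype P] [LinearOrder α]
variable {ω : P → α}

/-- a set of three elements with `dlt ≠ 0` contains a cover -/
theorem Vis_exists_cover {T : Finset P} (hd : dlt ω T ≠ 0) : ∃ p ∈ T, ∃ q ∈ T, p ⋖ q := by
  by_contra hcon
  push Not at hcon
  apply hd
  unfold dlt
  have h1 : ∀ i ∈ T, ((∀ f ∈ T, ¬ f ⋖ i) ∧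
      ∀ a ∈ T, ∀ b ∈ T, a ≠ i → b ≠ i → ¬ StrictCover ω a b) ↔ ((∀ f ∈ T, ¬ i ⋖ f) ∧
      ∀ a ∈ T, ∀ b ∈ T, a ≠ i → b ≠ i → ¬ StrictCover ω a b) := by
    intro i hi
    constructor
    · rintro ⟨_, h2⟩
      exact ⟨fun f hf => hcon i hi f hf, h2⟩
    · rintro ⟨_, h2⟩
      exact ⟨fun f hf => hcon f hf i hi, h2⟩
  rw [Finset.filter_congr h1, sub_self]

theorem Vis_sw (hω : Function.Injective ω) {a b : P} (h : a ⋖ b) :
    (StrictCover ω a b ∧ ¬ WeakCover ω a b) ∨ (WeakCover ω a b ∧ ¬ StrictCover ω a b) := by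
  rcases strict_or_weak hω h with h1 | h1
  · exact Or.inl ⟨h1, h1.not_weak⟩
  · exact Or.inr ⟨h1, Dlt_weak_not_strict h1⟩

/-- the pattern of a visible triple -/
theorem Vis_pattern (hω : Function.Injective ω) {T : Finset P} (hT : T.card = 3)
    (hd : dlt ω T ≠ 0) : ∃ p q r, T = {p, q, r} ∧ p ≠ q ∧ p ≠ r ∧ q ≠ r ∧
      ((StrictCover ω p q ∧ WeakCover ω q r) ∨ (WeakCover ω p q ∧ StrictCover ω q r) ∨
       (WeakCover ω p r ∧ WeakCover ω q r) ∨ (StrictCover ω p r ∧ StrictCover ω q r) ∨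
       (StrictCover ω p q ∧ StrictCover ω p r) ∨ (WeakCover ω p q ∧ WeakCover ω p r)) := by
  obtain ⟨p, hp, q, hq, hpq⟩ := Vis_exists_cover hd
  have hne : p ≠ q := hpq.lt.ne
  obtain ⟨r, hr, hrp, hrq⟩ : ∃ r ∈ T, r ≠ p ∧ r ≠ q := by
    have h1 : (T \ {p, q}).Nonempty := by
      rw [← Finset.card_pos]
      have h2 := Finset.le_card_sdiff ({p, q} : Finset P) T
      have h3 : ({p, q} : Finset P).card = 2 := Finset.card_pair hne
      omega
    obtain ⟨r, hr⟩ := h1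
    rw [Finset.mem_sdiff, Finset.mem_insert, Finset.mem_singleton, not_or] at hr
    exact ⟨r, hr.1, hr.2.1, hr.2.2⟩
  have hTe : T = {p, q, r} := by
    symm
    apply Finset.eq_of_subset_of_card_le
    · intro x hx
      rw [Finset.mem_insert, Finset.mem_insert, Finset.mem_singleton] at hx
      rcases hx with rfl | rfl | rfl
      · exact hp
      · exact hq
      · exact hr
    · rw [hT, Finset.card_eq_three.2 ⟨p, q, r, hne, hrp.symm, hrq.symm, rfl⟩]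
  rw [hTe] at hd
  have hlt := hpq.lt
  have nqp : ¬ q ⋖ p := Dlt_not_cov_of_lt hlt
  have sqp : ¬ StrictCover ω q p := fun h => nqp h.1
  by_cases c1 : r ⋖ p
  · -- path r, p, q
    refine ⟨r, p, q, ?_, hrp, hrq, hne, ?_⟩
    · rw [hTe]; ext x; simp only [Finset.mem_insert, Finset.mem_singleton]; tauto
    have hlt' := c1.lt
    have n1 : ¬ r ⋖ q := Dlt_not_cov_trans hlt' hlt
    have n2 : ¬ q ⋖ r := Dlt_not_cov_of_lt (hlt'.trans hlt)
    have n3 : ¬ p ⋖ r := Dlt_not_cov_of_lt hlt'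
    have s1 : ¬ StrictCover ω r q := fun h => n1 h.1
    have s2 : ¬ StrictCover ω q r := fun h => n2 h.1
    have s3 : ¬ StrictCover ω p r := fun h => n3 h.1
    rw [dlt_three ω hne hrp.symm hrq.symm] at hd
    rcases Vis_sw hω hpq with ⟨k1, k2⟩ | ⟨k1, k2⟩ <;>
      rcases Vis_sw hω c1 with ⟨l1, l2⟩ | ⟨l1, l2⟩
    · exfalso; apply hd; simp [hpq, c1, nqp, sqp, n1, n2, n3, s1, s2, s3, k1, l1]
    · right; left; exact ⟨l1, k1⟩
    · left; exact ⟨l1, k1⟩
    · exfalso; apply hd; simp [hpq, c1, nqp, sqp, n1, n2, n3, s1, s2, s3, k2, l2]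
  by_cases c2 : q ⋖ r
  · -- path p, q, r
    refine ⟨p, q, r, hTe, hne, hrp.symm, hrq.symm, ?_⟩
    have hlt' := c2.lt
    have n1 : ¬ r ⋖ q := Dlt_not_cov_of_lt hlt'
    have n3 : ¬ p ⋖ r := Dlt_not_cov_trans hlt hlt'
    have s1 : ¬ StrictCover ω r q := fun h => n1 h.1
    have s2 : ¬ StrictCover ω r p := fun h => c1 h.1
    have s3 : ¬ StrictCover ω p r := fun h => n3 h.1
    rw [dlt_three ω hne hrp.symm hrq.symm] at hd
    rcases Vis_sw hω hpq with ⟨k1, k2⟩ | ⟨k1, k2⟩ <;>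
      rcases Vis_sw hω c2 with ⟨l1, l2⟩ | ⟨l1, l2⟩
    · exfalso; apply hd; simp [hpq, c1, c2, nqp, sqp, n1, n3, s1, s2, s3, k1, l1]
    · left; exact ⟨k1, l1⟩
    · right; left; exact ⟨k1, l1⟩
    · exfalso; apply hd; simp [hpq, c1, c2, nqp, sqp, n1, n3, s1, s2, s3, k2, l2]
  have srp : ¬ StrictCover ω r p := fun h => c1 h.1
  have sqr : ¬ StrictCover ω q r := fun h => c2 h.1
  by_cases c3 : r ⋖ q
  · -- p, r below q
    refine ⟨p, r, q, ?_, hrp.symm, hne, hrq, ?_⟩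
    · rw [hTe]; ext x; simp only [Finset.mem_insert, Finset.mem_singleton]; tauto
    have n1 : ¬ p ⋖ r := fun h => hpq.2 h.lt c3.lt
    have s1 : ¬ StrictCover ω p r := fun h => n1 h.1
    rw [dlt_three ω hne hrp.symm hrq.symm] at hd
    rcases Vis_sw hω hpq with ⟨k1, k2⟩ | ⟨k1, k2⟩ <;>
      rcases Vis_sw hω c3 with ⟨l1, l2⟩ | ⟨l1, l2⟩
    · right; right; right; left; exact ⟨k1, l1⟩
    · exfalso; apply hd; simp [hpq, c1, c2, c3, nqp, sqp, n1, s1, srp, sqr, k1, l2]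
    · exfalso; apply hd; simp [hpq, c1, c2, c3, nqp, sqp, n1, s1, srp, sqr, k2, l1]
    · right; right; left; exact ⟨k1, l1⟩
  have srq : ¬ StrictCover ω r q := fun h => c3 h.1
  by_cases c4 : p ⋖ r
  · -- p below q, r
    refine ⟨p, q, r, hTe, hne, hrp.symm, hrq.symm, ?_⟩
    rw [dlt_three ω hne hrp.symm hrq.symm] at hd
    rcases Vis_sw hω hpq with ⟨k1, k2⟩ | ⟨k1, k2⟩ <;>
      rcases Vis_sw hω c4 with ⟨l1, l2⟩ | ⟨l1, l2⟩
    · right; right; right; right; left; exact ⟨k1, l1⟩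
    · exfalso; apply hd; simp [hpq, c1, c2, c3, c4, nqp, sqp, srp, sqr, srq, k1, l2]
    · exfalso; apply hd; simp [hpq, c1, c2, c3, c4, nqp, sqp, srp, sqr, srq, k2, l1]
    · right; right; right; right; right; exact ⟨k1, l1⟩
  · exfalso
    have spr : ¬ StrictCover ω p r := fun h => c4 h.1
    rw [dlt_three ω hne hrp.symm hrq.symm] at hd
    rcases Vis_sw hω hpq with ⟨k1, k2⟩ | ⟨k1, k2⟩
    · apply hd; simp [hpq, c1, c2, c3, c4, nqp, sqp, srp, sqr, srq, spr, k1]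
    · apply hd; simp [hpq, c1, c2, c3, c4, nqp, sqp, srp, sqr, srq, spr, k2]

theorem Strip.lab_y (t : Strip ω) {j : ℕ} (hj : j ≤ t.k) : 1 ≤ j → ω (t.y 0) < ω (t.y j) := by
  induction j with
  | zero => intro h; omega
  | succ j ih =>
    intro _
    have h1 := (t.yw j (by omega)).2
    have h2 := (t.yw' j (by omega)).2
    rcases Nat.eq_zero_or_pos j with h0 | h0
    · subst h0
      exact h1.trans h2
    · exact (ih (by omega) h0).trans (h1.trans h2)

theorem Strip.lab_x (t : Strip ω) {j : ℕ} (hj : j ≤ t.k) : 1 ≤ j → ω (t.x 0) < ω (t.x j) := by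
  induction j with
  | zero => intro h; omega
  | succ j ih =>
    intro _
    have h1 := (t.xy' j (by omega)).2
    have h2 := (t.xy (j + 1) hj).2
    rcases Nat.eq_zero_or_pos j with h0 | h0
    · subst h0
      exact h1.trans h2
    · exact (ih (by omega) h0).trans (h1.trans h2)

/-- an element of `A ∖ T` below an element of `T` by a cover and above an element of `A` -/
theorem Vis_contra {A T : Finset P} (hA : IsLow A) (hl : Locked ω A T) {e t : P} (ht : t ∈ T)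
    (het : e ⋖ t) (heT : e ∉ T)
    (hFB : (∃ t ∈ T, t ⋖ e) ∨ ∃ f, f ∉ T ∧ StrictCover ω f e) : False := by
  have heA : e ∈ A := hA t (hl.1 ht) e het.le
  have hFI : FI ω A T e := Or.inl ⟨t, ht, het⟩
  have hFB' : FB ω A T e := by
    rcases hFB with h | ⟨f, hf, hfe⟩
    · exact Or.inl h
    · exact Or.inr ⟨f, Finset.mem_sdiff.2 ⟨hA e heA f hfe.1.le, hf⟩, hfe⟩
  rcases hl.2 e (Finset.mem_sdiff.2 ⟨heA, heT⟩) with h | h
  · exact h.2 hFB'
  · exact h.2 hFI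

/-- chunk G2: only the four kinds of triples of the strips are visible. -/
theorem visible (h : Setup ω) (W : World ω) {A T : Finset P} (hA : IsLow A)
    (hT : T.card = 3) (hd : dlt ω T ≠ 0) (hl : Locked ω A T) :
    ∃ i, T = (W.st i).TC ∨ T = (W.st i).TD ∨
      (1 ≤ (W.st i).k ∧ (T = (W.st i).TW ∨ T = (W.st i).TS)) := by
  obtain ⟨p, q, r, hTe, hpq, hpr, hqr, hcase⟩ := Vis_pattern h.inj hT hd
  have hpT : p ∈ T := by rw [hTe]; simp
  have hqT : q ∈ T := by rw [hTe]; simp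
  have hrT : r ∈ T := by rw [hTe]; simp
  have hmem : ∀ z, z ≠ p → z ≠ q → z ≠ r → z ∉ T := by
    intro z h1 h2 h3
    rw [hTe]
    simp only [Finset.mem_insert, Finset.mem_singleton]
    tauto
  rcases hcase with ⟨c1, c2⟩ | ⟨c1, c2⟩ | ⟨c1, c2⟩ | ⟨c1, c2⟩ | ⟨c1, c2⟩ | ⟨c1, c2⟩
  · -- strict, weak
    rcases W.sw p q r c1 c2 with ⟨z, hz1, hz2⟩ | ⟨i, h1, h2, h3⟩
    · exfalso
      have hzq : z ≠ q := by
        rintro rfl
        exact lt_asymm c1.2 hz1.2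
      exact Vis_contra hA hl hrT hz2.1 (hmem z hz1.1.lt.ne' hzq hz2.1.lt.ne)
        (Or.inl ⟨p, hpT, hz1.1⟩)
    · refine ⟨i, Or.inl ?_⟩
      rw [hTe, h1, h2, h3]
      rfl
  · rcases W.ws p q r c1 c2 with ⟨z, hz1, hz2⟩ | ⟨i, h1, h2, h3⟩
    · exfalso
      have hzq : z ≠ q := by
        rintro rfl
        exact lt_asymm c1.2 hz1.2
      exact Vis_contra hA hl hrT hz2.1 (hmem z hz1.1.lt.ne' hzq hz2.1.lt.ne)
        (Or.inl ⟨p, hpT, hz1.1⟩)
    · refine ⟨i, Or.inr (Or.inl ?_)⟩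
      rw [hTe, h1, h2, h3]
      rfl
  · -- two weak covers below `r`
    obtain ⟨i, hk, h1, h2⟩ := W.lw p q r c1 c2 hpq
    refine ⟨i, Or.inr (Or.inr ⟨hk, Or.inl ?_⟩)⟩
    rcases h2 with ⟨h2, h3⟩ | ⟨h2, h3⟩
    · rw [hTe, h1, h2, h3]
      rfl
    · rw [hTe, h1, h2, h3]
      unfold Strip.TW
      ext x; simp only [Finset.mem_insert, Finset.mem_singleton]; tauto
  · obtain ⟨i, hk, h1, h2⟩ := W.ls p q r c1 c2 hpq
    refine ⟨i, Or.inr (Or.inr ⟨hk, Or.inr ?_⟩)⟩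
    rcases h2 with ⟨h2, h3⟩ | ⟨h2, h3⟩
    · rw [hTe, h1, h2, h3]
      rfl
    · rw [hTe, h1, h2, h3]
      unfold Strip.TS
      ext x; simp only [Finset.mem_insert, Finset.mem_singleton]; tauto
  · -- two strict covers above `p`
    exfalso
    obtain ⟨i, hk, h1, h2⟩ := W.us p q r c1 c2 hqr
    set t := W.st i with ht
    have hT3 : T = {t.x t.k, t.y t.k, t.u} := by
      rcases h2 with ⟨h2, h3⟩ | ⟨h2, h3⟩
      · rw [hTe, h1, h2, h3]
      · rw [hTe, h1, h2, h3]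
        ext x; simp only [Finset.mem_insert, Finset.mem_singleton]; tauto
    have hnot : ∀ z, z ≠ t.x t.k → z ≠ t.y t.k → z ≠ t.u → z ∉ T := by
      intro z g1 g2 g3
      rw [hT3]
      simp only [Finset.mem_insert, Finset.mem_singleton]
      tauto
    have huT : t.u ∈ T := by rw [hT3]; simp
    have hyy : t.y 0 ≠ t.y t.k := fun h => (t.lab_y le_rfl hk).ne (by rw [h])
    have hxx : t.x 0 ≠ t.x t.k := fun h => (t.lab_x le_rfl hk).ne (by rw [h])
    refine Vis_contra hA hl huT t.yu.1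
      (hnot _ (t.x_ne_y le_rfl (Nat.zero_le _)).symm hyy t.yu.1.lt.ne)
      (Or.inr ⟨t.x 0, hnot _ hxx (t.x_ne_y (Nat.zero_le _) le_rfl) ?_, t.xy 0 (Nat.zero_le _)⟩)
    intro h
    have h3 := t.yu.1.lt
    rw [← h] at h3
    exact (t.xmin 0 (Nat.zero_le _)).not_lt h3
  · -- two weak covers above `p`
    exfalso
    obtain ⟨i, hk, h1, h2⟩ := W.uw p q r c1 c2 hqr
    set t := W.st i with ht
    have hT3 : T = {t.v, t.y 0, t.w t.k} := by
      rcases h2 with ⟨h2, h3⟩ | ⟨h2, h3⟩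
      · rw [hTe, h1, h2, h3]
      · rw [hTe, h1, h2, h3]
        ext x; simp only [Finset.mem_insert, Finset.mem_singleton]; tauto
    have hnot : ∀ z, z ≠ t.v → z ≠ t.y 0 → z ≠ t.w t.k → z ∉ T := by
      intro z g1 g2 g3
      rw [hT3]
      simp only [Finset.mem_insert, Finset.mem_singleton]
      tauto
    have hwT : t.w t.k ∈ T := by rw [hT3]; simp
    have hyy : t.y 0 ≠ t.y t.k := fun h => (t.lab_y le_rfl hk).ne (by rw [h])
    refine Vis_contra hA hl hwT (t.yw t.k le_rfl).1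
      (hnot _ (t.v_ne_y le_rfl).symm hyy.symm (t.yw t.k le_rfl).1.lt.ne)
      (Or.inr ⟨t.x t.k, hnot _ (W.xv i i) (t.x_ne_y le_rfl (Nat.zero_le _)) ?_,
        t.xy t.k le_rfl⟩)
    intro h
    have h3 := (t.yw t.k le_rfl).1.lt
    rw [← h] at h3
    exact (t.xmin t.k le_rfl).not_lt h3

end Pool.PP2
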