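import Pool.Agent.Lib.PP2.G.Dlt
import Pool.Agent.Lib.PP2.G.Vis

/-!
# the bases
-/

namespace Pool.PP2

open Finset Classical Pool.PPart

variable {P : Type*} {α : Type*} [PartialOrder P] [Fintype P] [LinearOrder α]
variable {ω : P → α}

/-! ### covers of the cells of a strip -/

omit [Fintype P] in
theorem bs_cov (h : Function.Injective ω) {a b : P} (hab : a ⋖ b) :
    StrictCover ω a b ∨ WeakCover ω a b := by
  rcases lt_trichotomy (ω a) (ω b) with h1 | h1 | h1
  · exact Or.inr ⟨hab, h1⟩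
  · exact absurd (h h1) hab.lt.ne
  · exact Or.inl ⟨hab, h1⟩

omit [Fintype P] in
theorem bs_ne {a b c d : P} (h1 : StrictCover ω a b) (h2 : WeakCover ω c d) (h3 : b = d) :
    a ≠ c := by
  subst h3
  rintro rfl
  exact absurd (h1.2.trans h2.2) (lt_irrefl _)

theorem bs_low {A : Finset P} (hA : ∀ a ∈ A, ∀ b, b ⋖ a → b ∈ A) : IsLow A := by
  intro x
  induction x using WellFoundedLT.induction with
  | ind x ih =>
    intro hx y hyx
    rcases hyx.eq_or_lt with h1 | h1
    · rw [h1]; exact hx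
    · obtain ⟨c, hc1, hc2⟩ := exists_le_covBy_of_lt h1
      exact ih c hc2.lt (hA x hx c hc2) y hc1

/-- strict lower covers of a non-maximal element are unique -/
theorem bs_ls (W : World ω) {a b c : P} (h1 : StrictCover ω a c) (h2 : StrictCover ω b c)
    (hc : ¬ IsMax c) : a = b := by
  by_contra hne
  obtain ⟨i, _, hc', _⟩ := W.ls a b c h1 h2 hne
  exact hc (hc' ▸ (W.st i).umax)

theorem bs_lw (W : World ω) {a b c : P} (h1 : WeakCover ω a c) (h2 : WeakCover ω b c)
    (hc : ¬ IsMax c) : a = b := by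
  by_contra hne
  obtain ⟨i, _, hc', _⟩ := W.lw a b c h1 h2 hne
  exact hc (hc' ▸ (W.st i).wmax _ le_rfl)

theorem bs_ymax (t : Strip ω) {j : ℕ} (hj : j ≤ t.k) : ¬ IsMax (t.y j) :=
  fun hm => hm.not_lt (t.yw j hj).1.lt

theorem bs_ymin (t : Strip ω) {j : ℕ} (hj : j ≤ t.k) : ¬ IsMin (t.y j) :=
  fun hm => hm.not_lt (t.xy j hj).1.lt

theorem bs_wmin (t : Strip ω) {j : ℕ} (hj : j ≤ t.k) : ¬ IsMin (t.w j) :=
  fun hm => hm.not_lt (t.yw j hj).1.lt

theorem bs_umin (t : Strip ω) : ¬ IsMin t.u :=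
  fun hm => hm.not_lt (t.yu).1.lt

theorem bs_y0 (h : Setup ω) (W : World ω) (i : W.ι) {a : P} (ha : a ⋖ (W.st i).y 0) :
    a = (W.st i).x 0 ∨ a = (W.st i).v := by
  rcases bs_cov h.inj ha with h1 | h1
  · exact Or.inl (bs_ls W h1 ((W.st i).xy 0 (Nat.zero_le _)) (bs_ymax _ (Nat.zero_le _)))
  · exact Or.inr (bs_lw W h1 (W.st i).vy (bs_ymax _ (Nat.zero_le _)))

theorem bs_yk (h : Setup ω) (W : World ω) (i : W.ι) (hk : (W.st i).k ≠ 0) {a : P}
    (ha : a ⋖ (W.st i).y (W.st i).k) :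
    a = (W.st i).x (W.st i).k ∨ a = (W.st i).x ((W.st i).k - 1) := by
  rcases bs_cov h.inj ha with h1 | h1
  · exact Or.inl (bs_ls W h1 ((W.st i).xy _ le_rfl) (bs_ymax _ le_rfl))
  · have h2 := (W.st i).xy' ((W.st i).k - 1) (by omega)
    rw [show (W.st i).k - 1 + 1 = (W.st i).k by omega] at h2
    exact Or.inr (bs_lw W h1 h2 (bs_ymax _ le_rfl))

theorem bs_wk (h : Setup ω) (W : World ω) (i : W.ι) {a : P}
    (ha : a ⋖ (W.st i).w (W.st i).k) :
    a = (W.st i).y (W.st i).k ∨ a = (W.st i).q ∨ (1 ≤ (W.st i).k ∧ a = (W.st i).v) := by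
  rcases bs_cov h.inj ha with h1 | h1
  · right; left
    by_contra hne
    obtain ⟨j, _, hc', _⟩ := W.ls _ _ _ h1 (W.st i).qw hne
    exact W.wu i j hc'
  · by_cases hne : a = (W.st i).y (W.st i).k
    · exact Or.inl hne
    · obtain ⟨j, hj, hc', h3⟩ := W.lw _ _ _ h1 ((W.st i).yw _ le_rfl) hne
      have hij := W.inj_w hc'
      subst hij
      rcases h3 with ⟨h3, _⟩ | ⟨h3, _⟩
      · exact Or.inr (Or.inr ⟨hj, h3⟩)
      · exfalso
        exact bs_ymin (W.st i) le_rfl (h3 ▸ (W.st i).vmin)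

theorem bs_u (h : Setup ω) (W : World ω) (i : W.ι) {a : P}
    (ha : a ⋖ (W.st i).u) :
    a = (W.st i).y 0 ∨ a = (W.st i).g ∨ (1 ≤ (W.st i).k ∧ a = (W.st i).x (W.st i).k) := by
  rcases bs_cov h.inj ha with h1 | h1
  · by_cases hne : a = (W.st i).y 0
    · exact Or.inl hne
    · obtain ⟨j, hj, hc', h3⟩ := W.ls _ _ _ h1 (W.st i).yu hne
      have hij := W.inj_u hc'
      subst hij
      rcases h3 with ⟨h3, _⟩ | ⟨h3, _⟩
      · exact Or.inr (Or.inr ⟨hj, h3⟩)
      · exfalso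
        exact bs_ymin (W.st i) (Nat.zero_le _) (h3 ▸ (W.st i).xmin _ le_rfl)
  · right; left
    by_contra hne
    obtain ⟨j, _, hc', _⟩ := W.lw _ _ _ h1 (W.st i).gu hne
    exact W.wu j i hc'.symm

/-! ### bases -/

theorem BC_subset (h : Setup ω) (W : World ω) (i : W.ι) {A T : Finset P}
    (hA : (W.st i).isC A T) : (W.st i).BC ⊆ A := by
  obtain ⟨h1, ⟨h2, -⟩, h3⟩ := hA
  set t := W.st i with ht
  have hyw : t.y t.k ∈ A ∧ t.w t.k ∈ A := by
    rcases h3 with rfl | ⟨-, rfl⟩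
    · exact ⟨h2 (by simp [Strip.TC]), h2 (by simp [Strip.TC])⟩
    · exact ⟨h2 (by simp [Strip.TW]), h2 (by simp [Strip.TW])⟩
  have hx : t.x t.k ∈ A := h1 _ hyw.1 _ (t.xy _ le_rfl).1.le
  have hq : t.q ∈ A := h1 _ hyw.2 _ t.qw.1.le
  have hv : t.v ∈ A := by
    by_cases hk : t.k = 0
    · have h4 := t.vy
      rw [← hk] at h4
      exact h1 _ hyw.1 _ h4.1.le
    · exact h1 _ hyw.2 _ (t.vw (by omega)).1.le
  intro z hz
  simp only [Strip.BC, Finset.mem_insert, Finset.mem_singleton] at hz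
  rcases hz with rfl | rfl | rfl | rfl | rfl | rfl
  · exact hx
  · exact hyw.1
  · exact hyw.2
  · exact hq
  · exact hv
  · split_ifs with hk
    · exact hv
    · have h4 := t.xy' (t.k - 1) (by omega)
      rw [show t.k - 1 + 1 = t.k by omega] at h4
      exact h1 _ hyw.1 _ h4.1.le

theorem BD_subset (h : Setup ω) (W : World ω) (i : W.ι) {A T : Finset P}
    (hA : (W.st i).isD A T) : (W.st i).BD ⊆ A := by
  obtain ⟨h1, ⟨h2, -⟩, h3⟩ := hA
  set t := W.st i with ht
  have hyw : t.y 0 ∈ A ∧ t.u ∈ A := by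
    rcases h3 with rfl | ⟨-, rfl⟩
    · exact ⟨h2 (by simp [Strip.TD]), h2 (by simp [Strip.TD])⟩
    · exact ⟨h2 (by simp [Strip.TS]), h2 (by simp [Strip.TS])⟩
  have hx : t.x 0 ∈ A := h1 _ hyw.1 _ (t.xy 0 (Nat.zero_le _)).1.le
  intro z hz
  simp only [Strip.BD, Finset.mem_insert, Finset.mem_singleton] at hz
  rcases hz with rfl | rfl | rfl | rfl | rfl | rfl
  · exact h1 _ hyw.1 _ t.vy.1.le
  · exact hyw.1
  · exact hyw.2
  · exact hx
  · exact h1 _ hyw.2 _ t.gu.1.le
  · by_cases hk : t.k = 0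
    · rw [hk]; exact hx
    · exact h1 _ hyw.2 _ (t.xu (by omega)).1.le

omit [Fintype P] in
theorem bs_not_cov {a b c : P} (h1 : a < b) (h2 : b < c) : ¬ a ⋖ c := fun h3 => h3.2 h1 h2

/-- cardinality of the bases: `5` if `k = 0`, `6` if `k ≥ 1` -/
theorem card_BC (h : Setup ω) (W : World ω) (i : W.ι) :
    (W.st i).BC.card = if (W.st i).k = 0 then 5 else 6 := by
  have hxv := W.xv i i
  have hXY := (W.st i).xy _ le_rfl
  have hYW := (W.st i).yw _ le_rfl
  have hQW := (W.st i).qw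
  have hVY := (W.st i).vy
  have e1 : (W.st i).x (W.st i).k ≠ (W.st i).y (W.st i).k := hXY.1.lt.ne
  have e2 : (W.st i).x (W.st i).k ≠ (W.st i).w (W.st i).k := (hXY.1.lt.trans hYW.1.lt).ne
  have e3 : (W.st i).x (W.st i).k ≠ (W.st i).q := by
    intro h1
    exact bs_not_cov hXY.1.lt hYW.1.lt (h1 ▸ hQW.1)
  have e4 : (W.st i).y (W.st i).k ≠ (W.st i).w (W.st i).k := hYW.1.lt.ne
  have e5 : (W.st i).y (W.st i).k ≠ (W.st i).q := fun h1 =>
    bs_ymin (W.st i) le_rfl (h1 ▸ (W.st i).qmin)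
  have e6 : (W.st i).y (W.st i).k ≠ (W.st i).v := fun h1 =>
    bs_ymin (W.st i) le_rfl (h1 ▸ (W.st i).vmin)
  have e7 : (W.st i).w (W.st i).k ≠ (W.st i).q := fun h1 =>
    bs_wmin (W.st i) le_rfl (h1 ▸ (W.st i).qmin)
  have e8 : (W.st i).w (W.st i).k ≠ (W.st i).v := fun h1 =>
    bs_wmin (W.st i) le_rfl (h1 ▸ (W.st i).vmin)
  by_cases hk : (W.st i).k = 0
  · have e9 : (W.st i).q ≠ (W.st i).v := by
      intro h1
      rw [← hk] at hVY
      exact bs_not_cov hVY.1.lt hYW.1.lt (h1 ▸ hQW.1)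
    rw [if_pos hk, Strip.BC, if_pos hk, Finset.pair_eq_singleton,
      Finset.card_insert_of_notMem, Finset.card_insert_of_notMem, Finset.card_insert_of_notMem,
      Finset.card_insert_of_notMem, Finset.card_singleton]
    · simpa using e9
    · simp only [Finset.mem_insert, Finset.mem_singleton, not_or]
      exact ⟨e7, e8⟩
    · simp only [Finset.mem_insert, Finset.mem_singleton, not_or]
      exact ⟨e4, e5, e6⟩
    · simp only [Finset.mem_insert, Finset.mem_singleton, not_or]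
      exact ⟨e1, e2, e3, hxv⟩
  · have h4 := (W.st i).xy' ((W.st i).k - 1) (by omega)
    rw [show (W.st i).k - 1 + 1 = (W.st i).k by omega] at h4
    have hVW := (W.st i).vw (by omega)
    have e9 : (W.st i).q ≠ (W.st i).v := bs_ne hQW hVW rfl
    have f1 : (W.st i).x (W.st i).k ≠ (W.st i).x ((W.st i).k - 1) := bs_ne hXY h4 rfl
    have f2 : (W.st i).y (W.st i).k ≠ (W.st i).x ((W.st i).k - 1) := h4.1.lt.ne'
    have f3 : (W.st i).w (W.st i).k ≠ (W.st i).x ((W.st i).k - 1) :=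
      (h4.1.lt.trans hYW.1.lt).ne'
    have f4 : (W.st i).q ≠ (W.st i).x ((W.st i).k - 1) := fun h1 =>
      bs_not_cov h4.1.lt hYW.1.lt (h1 ▸ hQW.1)
    have f5 : (W.st i).v ≠ (W.st i).x ((W.st i).k - 1) := fun h1 =>
      bs_not_cov h4.1.lt hYW.1.lt (h1 ▸ hVW.1)
    rw [if_neg hk, Strip.BC, if_neg hk,
      Finset.card_insert_of_notMem, Finset.card_insert_of_notMem, Finset.card_insert_of_notMem,
      Finset.card_insert_of_notMem, Finset.card_insert_of_notMem, Finset.card_singleton]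
    · simpa using f5
    · simp only [Finset.mem_insert, Finset.mem_singleton, not_or]
      exact ⟨e9, f4⟩
    · simp only [Finset.mem_insert, Finset.mem_singleton, not_or]
      exact ⟨e7, e8, f3⟩
    · simp only [Finset.mem_insert, Finset.mem_singleton, not_or]
      exact ⟨e4, e5, e6, f2⟩
    · simp only [Finset.mem_insert, Finset.mem_singleton, not_or]
      exact ⟨e1, e2, e3, hxv, f1⟩

theorem card_BD (h : Setup ω) (W : World ω) (i : W.ι) :
    (W.st i).BD.card = if (W.st i).k = 0 then 5 else 6 := by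
  have hxv := W.xv i i
  have hXY := (W.st i).xy 0 (Nat.zero_le _)
  have hYU := (W.st i).yu
  have hGU := (W.st i).gu
  have hVY := (W.st i).vy
  have e1 : (W.st i).v ≠ (W.st i).y 0 := hVY.1.lt.ne
  have e2 : (W.st i).v ≠ (W.st i).u := (hVY.1.lt.trans hYU.1.lt).ne
  have e3 : (W.st i).v ≠ (W.st i).x 0 := (bs_ne hXY hVY rfl).symm
  have e4 : (W.st i).v ≠ (W.st i).g := fun h1 =>
    bs_not_cov hVY.1.lt hYU.1.lt (h1 ▸ hGU.1)
  have e5 : (W.st i).y 0 ≠ (W.st i).u := hYU.1.lt.ne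
  have e6 : (W.st i).y 0 ≠ (W.st i).x 0 := hXY.1.lt.ne'
  have e7 : (W.st i).y 0 ≠ (W.st i).g := fun h1 =>
    bs_ymin (W.st i) (Nat.zero_le _) (h1 ▸ (W.st i).gmin)
  have e8 : (W.st i).u ≠ (W.st i).x 0 := (hXY.1.lt.trans hYU.1.lt).ne'
  have e9 : (W.st i).u ≠ (W.st i).g := hGU.1.lt.ne'
  have e10 : (W.st i).x 0 ≠ (W.st i).g := fun h1 =>
    bs_not_cov hXY.1.lt hYU.1.lt (h1 ▸ hGU.1)
  by_cases hk : (W.st i).k = 0
  · have hS : (W.st i).BD = {(W.st i).v, (W.st i).y 0, (W.st i).u, (W.st i).x 0, (W.st i).g} := by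
      rw [Strip.BD, hk]
      ext z
      simp only [Finset.mem_insert, Finset.mem_singleton]
      tauto
    rw [if_pos hk, hS,
      Finset.card_insert_of_notMem, Finset.card_insert_of_notMem, Finset.card_insert_of_notMem,
      Finset.card_insert_of_notMem, Finset.card_singleton]
    · simpa using e10
    · simp only [Finset.mem_insert, Finset.mem_singleton, not_or]
      exact ⟨e8, e9⟩
    · simp only [Finset.mem_insert, Finset.mem_singleton, not_or]
      exact ⟨e5, e6, e7⟩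
    · simp only [Finset.mem_insert, Finset.mem_singleton, not_or]
      exact ⟨e1, e2, e3, e4⟩
  · have hXU := (W.st i).xu (by omega)
    have f1 : (W.st i).v ≠ (W.st i).x (W.st i).k := hxv.symm
    have f2 : (W.st i).y 0 ≠ (W.st i).x (W.st i).k := fun h1 =>
      bs_ymin (W.st i) (Nat.zero_le _) (h1 ▸ (W.st i).xmin _ le_rfl)
    have f3 : (W.st i).u ≠ (W.st i).x (W.st i).k := hXU.1.lt.ne'
    have f4 : (W.st i).x 0 ≠ (W.st i).x (W.st i).k := fun h1 =>
      bs_not_cov hXY.1.lt hYU.1.lt (h1 ▸ hXU.1)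
    have f5 : (W.st i).g ≠ (W.st i).x (W.st i).k := (bs_ne hXU hGU rfl).symm
    rw [if_neg hk, Strip.BD,
      Finset.card_insert_of_notMem, Finset.card_insert_of_notMem, Finset.card_insert_of_notMem,
      Finset.card_insert_of_notMem, Finset.card_insert_of_notMem, Finset.card_singleton]
    · simpa using f5
    · simp only [Finset.mem_insert, Finset.mem_singleton, not_or]
      exact ⟨e10, f4⟩
    · simp only [Finset.mem_insert, Finset.mem_singleton, not_or]
      exact ⟨e8, e9, f3⟩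
    · simp only [Finset.mem_insert, Finset.mem_singleton, not_or]
      exact ⟨e5, e6, e7, f2⟩
    · simp only [Finset.mem_insert, Finset.mem_singleton, not_or]
      exact ⟨e1, e2, e3, e4, f1⟩

omit [Fintype P] in
/-- elements which are minimal and are covered by an element of `T` -/
theorem bs_locked {A T : Finset P} (hT : T ⊆ A)
    (h : ∀ e ∈ A, e ∉ T → IsMin e ∧ ∃ t ∈ T, e ⋖ t) :
    Locked ω A T ∧ wt ω A T = 1 := by
  have hFB : ∀ e ∈ A, e ∉ T → ¬ FB ω A T e := by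
    intro e he heT hfb
    have hm := (h e he heT).1
    rcases hfb with ⟨t, _, ht⟩ | ⟨f, _, hf⟩
    · exact hm.not_lt ht.lt
    · exact hm.not_lt hf.1.lt
  have hl : Locked ω A T := by
    refine ⟨hT, fun e he => ?_⟩
    rw [Finset.mem_sdiff] at he
    exact Or.inl ⟨Or.inl (h e he.1 he.2).2, hFB e he.1 he.2⟩
  refine ⟨hl, ?_⟩
  rw [wt, if_pos hl]
  have h0 : (A \ T).filter (FB ω A T) = ∅ := by
    rw [Finset.filter_eq_empty_iff]
    intro e he
    rw [Finset.mem_sdiff] at he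
    exact hFB e he.1 he.2
  rw [h0]; simp

theorem bs_BC (h : Setup ω) (W : World ω) (i : W.ι) (T : Finset P)
    (hT : T = (W.st i).TC ∨ (1 ≤ (W.st i).k ∧ T = (W.st i).TW)) :
    IsLow (W.st i).BC ∧ T ⊆ (W.st i).BC ∧
      ∀ e ∈ (W.st i).BC, e ∉ T → IsMin e ∧ ∃ t ∈ T, e ⋖ t := by
  have hXY := (W.st i).xy _ le_rfl
  have hYW := (W.st i).yw _ le_rfl
  have hQW := (W.st i).qw
  have hVY := (W.st i).vy
  refine ⟨?_, ?_, ?_⟩
  · apply bs_low
    intro a ha b hb
    simp only [Strip.BC, Finset.mem_insert, Finset.mem_singleton] at ha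
    rcases ha with rfl | rfl | rfl | rfl | rfl | rfl
    · exact absurd hb.lt ((W.st i).xmin _ le_rfl).not_lt
    · by_cases hk : (W.st i).k = 0
      · rw [hk] at hb
        have := bs_y0 h W i hb
        simp only [Strip.BC, Finset.mem_insert, Finset.mem_singleton]
        rw [hk]
        tauto
      · have := bs_yk h W i hk hb
        simp only [Strip.BC, Finset.mem_insert, Finset.mem_singleton, if_neg hk]
        tauto
    · have := bs_wk h W i hb
      simp only [Strip.BC, Finset.mem_insert, Finset.mem_singleton]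
      tauto
    · exact absurd hb.lt ((W.st i).qmin).not_lt
    · exact absurd hb.lt ((W.st i).vmin).not_lt
    · split_ifs at hb with hk
      · exact absurd hb.lt ((W.st i).vmin).not_lt
      · exact absurd hb.lt ((W.st i).xmin _ (by omega)).not_lt
  · intro z hz
    rcases hT with rfl | ⟨-, rfl⟩
    · simp only [Strip.BC, Strip.TC, Finset.mem_insert, Finset.mem_singleton] at hz ⊢
      tauto
    · simp only [Strip.BC, Strip.TW, Finset.mem_insert, Finset.mem_singleton] at hz ⊢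
      tauto
  · have hY : (W.st i).y (W.st i).k ∈ T := by
      rcases hT with rfl | ⟨-, rfl⟩
      · simp [Strip.TC]
      · simp [Strip.TW]
    have hW' : (W.st i).w (W.st i).k ∈ T := by
      rcases hT with rfl | ⟨-, rfl⟩
      · simp [Strip.TC]
      · simp [Strip.TW]
    have hv : ∃ t ∈ T, (W.st i).v ⋖ t := by
      by_cases hk : (W.st i).k = 0
      · rw [← hk] at hVY
        exact ⟨_, hY, hVY.1⟩
      · exact ⟨_, hW', ((W.st i).vw (by omega)).1⟩
    intro e he heT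
    simp only [Strip.BC, Finset.mem_insert, Finset.mem_singleton] at he
    rcases he with rfl | rfl | rfl | rfl | rfl | rfl
    · exact ⟨(W.st i).xmin _ le_rfl, _, hY, hXY.1⟩
    · exact absurd hY heT
    · exact absurd hW' heT
    · exact ⟨(W.st i).qmin, _, hW', hQW.1⟩
    · exact ⟨(W.st i).vmin, hv⟩
    · split_ifs with hk
      · exact ⟨(W.st i).vmin, hv⟩
      · have h4 := (W.st i).xy' ((W.st i).k - 1) (by omega)
        rw [show (W.st i).k - 1 + 1 = (W.st i).k by omega] at h4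
        exact ⟨(W.st i).xmin _ (by omega), _, hY, h4.1⟩

theorem bs_BD (h : Setup ω) (W : World ω) (i : W.ι) (T : Finset P)
    (hT : T = (W.st i).TD ∨ (1 ≤ (W.st i).k ∧ T = (W.st i).TS)) :
    IsLow (W.st i).BD ∧ T ⊆ (W.st i).BD ∧
      ∀ e ∈ (W.st i).BD, e ∉ T → IsMin e ∧ ∃ t ∈ T, e ⋖ t := by
  have hXY := (W.st i).xy 0 (Nat.zero_le _)
  have hYU := (W.st i).yu
  have hGU := (W.st i).gu
  have hVY := (W.st i).vy
  refine ⟨?_, ?_, ?_⟩
  · apply bs_low
    intro a ha b hb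
    simp only [Strip.BD, Finset.mem_insert, Finset.mem_singleton] at ha
    rcases ha with rfl | rfl | rfl | rfl | rfl | rfl
    · exact absurd hb.lt ((W.st i).vmin).not_lt
    · have := bs_y0 h W i hb
      simp only [Strip.BD, Finset.mem_insert, Finset.mem_singleton]
      tauto
    · have := bs_u h W i hb
      simp only [Strip.BD, Finset.mem_insert, Finset.mem_singleton]
      tauto
    · exact absurd hb.lt ((W.st i).xmin _ (Nat.zero_le _)).not_lt
    · exact absurd hb.lt ((W.st i).gmin).not_lt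
    · exact absurd hb.lt ((W.st i).xmin _ le_rfl).not_lt
  · intro z hz
    rcases hT with rfl | ⟨-, rfl⟩
    · simp only [Strip.BD, Strip.TD, Finset.mem_insert, Finset.mem_singleton] at hz ⊢
      tauto
    · simp only [Strip.BD, Strip.TS, Finset.mem_insert, Finset.mem_singleton] at hz ⊢
      tauto
  · have hY : (W.st i).y 0 ∈ T := by
      rcases hT with rfl | ⟨-, rfl⟩
      · simp [Strip.TD]
      · simp [Strip.TS]
    have hU : (W.st i).u ∈ T := by
      rcases hT with rfl | ⟨-, rfl⟩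
      · simp [Strip.TD]
      · simp [Strip.TS]
    intro e he heT
    simp only [Strip.BD, Finset.mem_insert, Finset.mem_singleton] at he
    rcases he with rfl | rfl | rfl | rfl | rfl | rfl
    · exact ⟨(W.st i).vmin, _, hY, hVY.1⟩
    · exact absurd hY heT
    · exact absurd hU heT
    · exact ⟨(W.st i).xmin _ (Nat.zero_le _), _, hY, hXY.1⟩
    · exact ⟨(W.st i).gmin, _, hU, hGU.1⟩
    · refine ⟨(W.st i).xmin _ le_rfl, ?_⟩
      by_cases hk : (W.st i).k = 0
      · rw [hk]; exact ⟨_, hY, hXY.1⟩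
      · exact ⟨_, hU, ((W.st i).xu (by omega)).1⟩

/-- the bases are locked -/
theorem BC_isC (h : Setup ω) (W : World ω) (i : W.ι) :
    (W.st i).isC (W.st i).BC (W.st i).TC ∧
      (1 ≤ (W.st i).k → (W.st i).isC (W.st i).BC (W.st i).TW) := by
  constructor
  · obtain ⟨h1, h2, h3⟩ := bs_BC h W i _ (Or.inl rfl)
    exact ⟨h1, (bs_locked h2 h3).1, Or.inl rfl⟩
  · intro hk
    obtain ⟨h1, h2, h3⟩ := bs_BC h W i _ (Or.inr ⟨hk, rfl⟩)
    exact ⟨h1, (bs_locked h2 h3).1, Or.inr ⟨hk, rfl⟩⟩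

theorem BD_isD (h : Setup ω) (W : World ω) (i : W.ι) :
    (W.st i).isD (W.st i).BD (W.st i).TD ∧
      (1 ≤ (W.st i).k → (W.st i).isD (W.st i).BD (W.st i).TS) := by
  constructor
  · obtain ⟨h1, h2, h3⟩ := bs_BD h W i _ (Or.inl rfl)
    exact ⟨h1, (bs_locked h2 h3).1, Or.inl rfl⟩
  · intro hk
    obtain ⟨h1, h2, h3⟩ := bs_BD h W i _ (Or.inr ⟨hk, rfl⟩)
    exact ⟨h1, (bs_locked h2 h3).1, Or.inr ⟨hk, rfl⟩⟩

end Pool.PP2
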