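import Pool.Agent.Lib.PP2.Defs
import Pool.Agent.Lib.PPart.Main

/-!
# Part G: definitions (P-level)

World: a labelled poset `(P, ω)` with symmetric enumerator, all of whose defects are exact strips.
English picture: strict cover = South (N/S), weak cover = East (W/E). `U' = U (neg ω)` = elements
with nothing weakly above, `F = P ∖ U'` (a skew shape), `J = J ω` = elements with nothing strictly
below.
-/

namespace Pool.PP2

open Finset Classical Pool.PPart

section World

variable {P : Type*} {α : Type*} [PartialOrder P] [Fintype P] [LinearOrder α]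

/-- the edge graph of a labelled poset -/
noncomputable def pEG (ω : P → α) : EG P where
  s := StrictCover ω
  w := WeakCover ω
  lab x := ((univ.filter (fun y => ω y < ω x)).card : ℤ)
  rk x := ((univ.filter (fun y => y < x)).card : ℤ)
  lab_s := by
    intro x y h
    have h2 := h.2
    have : (univ.filter (fun z => ω z < ω y)) ⊂ (univ.filter (fun z => ω z < ω x)) := by
      rw [Finset.ssubset_iff_of_subset]
      · exact ⟨y, by simp [h2], by simp⟩
      · intro z hz
        simp only [Finset.mem_filter, Finset.mem_univ, true_and] at hz ⊢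
        exact hz.trans h2
    exact_mod_cast Finset.card_lt_card this
  lab_w := by
    intro x y h
    have h2 := h.2
    have : (univ.filter (fun z => ω z < ω x)) ⊂ (univ.filter (fun z => ω z < ω y)) := by
      rw [Finset.ssubset_iff_of_subset]
      · exact ⟨x, by simp [h2], by simp⟩
      · intro z hz
        simp only [Finset.mem_filter, Finset.mem_univ, true_and] at hz ⊢
        exact hz.trans h2
    exact_mod_cast Finset.card_lt_card this
  rk_s := by
    intro x y h
    have h2 := h.1.lt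
    have : (univ.filter (fun z => z < x)) ⊂ (univ.filter (fun z => z < y)) := by
      rw [Finset.ssubset_iff_of_subset]
      · exact ⟨x, by simp [h2], by simp⟩
      · intro z hz
        simp only [Finset.mem_filter, Finset.mem_univ, true_and] at hz ⊢
        exact hz.trans h2
    exact_mod_cast Finset.card_lt_card this
  rk_w := by
    intro x y h
    have h2 := h.1.lt
    have : (univ.filter (fun z => z < x)) ⊂ (univ.filter (fun z => z < y)) := by
      rw [Finset.ssubset_iff_of_subset]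
      · exact ⟨x, by simp [h2], by simp⟩
      · intro z hz
        simp only [Finset.mem_filter, Finset.mem_univ, true_and] at hz ⊢
        exact hz.trans h2
    exact_mod_cast Finset.card_lt_card this

/-- an exact strip: crossing elements `y 0, …, y k`, `x j = N (y j)`, `w j = E (y j)`,
`v = W (y 0)`, `u = S (y 0)`, `q = N (w k)`, `g = W u` -/
structure Strip (ω : P → α) where
  k : ℕ
  x : ℕ → P
  y : ℕ → P
  w : ℕ → P
  v : P
  u : P
  q : P
  g : P
  xy : ∀ j ≤ k, StrictCover ω (x j) (y j)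
  yw : ∀ j ≤ k, WeakCover ω (y j) (w j)
  xy' : ∀ j < k, WeakCover ω (x j) (y (j + 1))
  yw' : ∀ j < k, StrictCover ω (y (j + 1)) (w j)
  vy : WeakCover ω v (y 0)
  yu : StrictCover ω (y 0) u
  qw : StrictCover ω q (w k)
  gu : WeakCover ω g u
  xu : 1 ≤ k → StrictCover ω (x k) u
  vw : 1 ≤ k → WeakCover ω v (w k)
  xmin : ∀ j ≤ k, IsMin (x j)
  vmin : IsMin v
  qmin : IsMin q
  gmin : IsMin g
  wmax : ∀ j ≤ k, IsMax (w j)
  umax : IsMax u
  /-- the east neighbour of `x k` is maximal -/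
  emax : ∀ e, WeakCover ω (x k) e → IsMax e
  /-- the south neighbour of `v` is maximal -/
  fmax : ∀ f, StrictCover ω v f → IsMax f
  /-- `g` is isolated in `P ∖ U'` -/
  giso : ∀ c, StrictCover ω g c → c ∈ U (neg ω)

/-- the final world: every local defect of `(P, ω)` lies in one of the strips `st i` -/
structure World (ω : P → α) where
  ι : Type
  fin : Fintype ι
  st : ι → Strip ω
  inj_u : Function.Injective (fun i => (st i).u)
  inj_w : Function.Injective (fun i => (st i).w (st i).k)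
  /-- no specials -/
  wu : ∀ i j, (st i).w (st i).k ≠ (st j).u
  xv : ∀ i j, (st i).x (st i).k ≠ (st j).v
  ls : ∀ a b c, StrictCover ω a c → StrictCover ω b c → a ≠ b → ∃ i, 1 ≤ (st i).k ∧
    c = (st i).u ∧ ((a = (st i).x (st i).k ∧ b = (st i).y 0) ∨
      (b = (st i).x (st i).k ∧ a = (st i).y 0))
  us : ∀ c a b, StrictCover ω c a → StrictCover ω c b → a ≠ b → ∃ i, 1 ≤ (st i).k ∧
    c = (st i).x (st i).k ∧ ((a = (st i).y (st i).k ∧ b = (st i).u) ∨
      (b = (st i).y (st i).k ∧ a = (st i).u))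
  lw : ∀ a b c, WeakCover ω a c → WeakCover ω b c → a ≠ b → ∃ i, 1 ≤ (st i).k ∧
    c = (st i).w (st i).k ∧ ((a = (st i).v ∧ b = (st i).y (st i).k) ∨
      (b = (st i).v ∧ a = (st i).y (st i).k))
  uw : ∀ c a b, WeakCover ω c a → WeakCover ω c b → a ≠ b → ∃ i, 1 ≤ (st i).k ∧
    c = (st i).v ∧ ((a = (st i).y 0 ∧ b = (st i).w (st i).k) ∨
      (b = (st i).y 0 ∧ a = (st i).w (st i).k))
  sw : ∀ a b c, StrictCover ω a b → WeakCover ω b c →
    (∃ z, WeakCover ω a z ∧ StrictCover ω z c) ∨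
    ∃ i, a = (st i).x (st i).k ∧ b = (st i).y (st i).k ∧ c = (st i).w (st i).k
  ws : ∀ a b c, WeakCover ω a b → StrictCover ω b c →
    (∃ z, StrictCover ω a z ∧ WeakCover ω z c) ∨
    ∃ i, a = (st i).v ∧ b = (st i).y 0 ∧ c = (st i).u

/-! ## the locked sets -/

variable (ω : P → α)

/-- forced into the first (weak) part -/
def FI (A T : Finset P) (e : P) : Prop :=
  (∃ t ∈ T, e ⋖ t) ∨ ∃ f ∈ A \ T, WeakCover ω e f

/-- forced into the last (strict) part -/
def FB (A T : Finset P) (e : P) : Prop :=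
  (∃ t ∈ T, t ⋖ e) ∨ ∃ f ∈ A \ T, StrictCover ω f e

/-- `A` is locked with respect to `T` -/
def Locked (A T : Finset P) : Prop :=
  T ⊆ A ∧ ∀ e ∈ A \ T, (FI ω A T e ∧ ¬ FB ω A T e) ∨ (FB ω A T e ∧ ¬ FI ω A T e)

/-- the weight of `(A, T)` -/
noncomputable def wt (A T : Finset P) : ℤ :=
  if Locked ω A T then (-1) ^ ((A \ T).filter (FB ω A T)).card else 0

/-- `W₁W₂ - W₂W₁` on `T` -/
noncomputable def dlt (T : Finset P) : ℤ :=
  ((T.filter (fun i => (∀ f ∈ T, ¬ f ⋖ i) ∧
      ∀ a ∈ T, ∀ b ∈ T, a ≠ i → b ≠ i → ¬ StrictCover ω a b)).card : ℤ) -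
  ((T.filter (fun i => (∀ f ∈ T, ¬ i ⋖ f) ∧
      ∀ a ∈ T, ∀ b ∈ T, a ≠ i → b ≠ i → ¬ StrictCover ω a b)).card : ℤ)

/-- the coefficient of `A` -/
noncomputable def XX (A : Finset P) : ℤ :=
  ∑ T ∈ A.powersetCard 3, dlt ω T * wt ω A T

end World

section F

variable {P : Type*} {α : Type*} [PartialOrder P] [Fintype P] [LinearOrder α]

/-- the skew graph `F = P ∖ U'` -/
noncomputable def sF {ω : P → α} (h : Setup ω) : Skew {x : P // x ∉ U (neg ω)} where
  s a b := StrictCover ω a.1 b.1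
  w a b := WeakCover ω a.1 b.1
  lab x := (pEG ω).lab x.1
  rk x := (pEG ω).rk x.1
  lab_s h := (pEG ω).lab_s h
  lab_w h := (pEG ω).lab_w h
  rk_s h := (pEG ω).rk_s h
  rk_w h := (pEG ω).rk_w h
  ls {a b y} h1 h2 := Subtype.ext (h.R'.ls _ _ _ a.2 b.2 y.2 h1 h2)
  us {x a b} h1 h2 := Subtype.ext (h.R'.us _ _ _ x.2 a.2 b.2 h1 h2)
  lw {a b y} h1 h2 := Subtype.ext (h.R'.lw _ _ _ a.2 b.2 y.2 h1 h2)
  uw {x a b} h1 h2 := Subtype.ext (h.R'.uw _ _ _ x.2 a.2 b.2 h1 h2)
  sw {x y z} h1 h2 := by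
    obtain ⟨t, h3, h4⟩ := h.R'.sw _ _ _ x.2 y.2 z.2 h1 h2
    exact ⟨⟨t, fun ht => z.2 (U_up h4.1.le ht)⟩, h3, h4⟩
  ws {x y z} h1 h2 := by
    obtain ⟨t, h3, h4⟩ := h.R'.ws _ _ _ x.2 y.2 z.2 h1 h2
    exact ⟨⟨t, fun ht => z.2 (U_up h4.1.le ht)⟩, h3, h4⟩

/-- `F ∖ A` -/
noncomputable def FA {ω : P → α} (A : Finset P) : Finset {x : P // x ∉ U (neg ω)} :=
  univ.filter (fun x => x.1 ∉ A)

end F

section Locked

variable {P : Type*} {α : Type*} [PartialOrder P] [Fintype P] [LinearOrder α]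
variable {ω : P → α}

/-- `T_C = {x_k, y_k, w_k}` -/
noncomputable def Strip.TC (t : Strip ω) : Finset P := {t.x t.k, t.y t.k, t.w t.k}
/-- `T_D = {v, y_0, u}` -/
noncomputable def Strip.TD (t : Strip ω) : Finset P := {t.v, t.y 0, t.u}
/-- `T_LW = {v, y_k, w_k}` -/
noncomputable def Strip.TW (t : Strip ω) : Finset P := {t.v, t.y t.k, t.w t.k}
/-- `T_LS = {x_k, y_0, u}` -/
noncomputable def Strip.TS (t : Strip ω) : Finset P := {t.x t.k, t.y 0, t.u}

/-- the base of a C-type set -/
noncomputable def Strip.BC (t : Strip ω) : Finset P :=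
  {t.x t.k, t.y t.k, t.w t.k, t.q, t.v, if t.k = 0 then t.v else t.x (t.k - 1)}
/-- the base of a D-type set -/
noncomputable def Strip.BD (t : Strip ω) : Finset P :=
  {t.v, t.y 0, t.u, t.x 0, t.g, t.x t.k}

/-- `(A, T)` is a visible pair of C-type of the strip `t` -/
def Strip.isC (t : Strip ω) (A T : Finset P) : Prop :=
  IsLow A ∧ Locked ω A T ∧ (T = t.TC ∨ (1 ≤ t.k ∧ T = t.TW))
/-- `(A, T)` is a visible pair of D-type of the strip `t` -/
def Strip.isD (t : Strip ω) (A T : Finset P) : Prop :=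
  IsLow A ∧ Locked ω A T ∧ (T = t.TD ∨ (1 ≤ t.k ∧ T = t.TS))

end Locked

section Sign

variable {M : Type*}

/-- `h` is the head of the diagonal of `x` in `F` -/
def EG.Head (Q : EG M) (F : Finset M) (x h : M) : Prop :=
  h ∈ Q.B0 F ∧ Relation.ReflTransGen (fun a b => a ∈ F ∧ b ∈ F ∧
    ∃ c ∈ F, Q.s a c ∧ Q.w c b) h x

/-- the sign `σ(F)` of the leading coefficient of `K F` -/
noncomputable def EG.sgn (Q : EG M) (F : Finset M) : ℚ :=
  (-1) ^ (F.filter (fun x => ∃ h, Q.Head F x h ∧ Q.sl F h)).card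

/-- rows. `rows F` = number of elements of `F` without west neighbour in `F`. -/
noncomputable def EG.rows (Q : EG M) (F : Finset M) : ℕ := (F.filter (fun x => ¬ Q.wl F x)).card

end Sign

end Pool.PP2
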