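import Pool.Agent.Lib.PP2.G.Defs

/-!
# the values of `dlt`
-/

namespace Pool.PP2

open Finset Classical Pool.PPart

variable {P : Type*} {α : Type*} [PartialOrder P] [Fintype P] [LinearOrder α]
variable {ω : P → α}

theorem Dlt_irrefl (a : P) : ¬ a ⋖ a := fun h => lt_irrefl a h.lt

theorem Dlt_strict_irrefl (ω : P → α) (a : P) : ¬ StrictCover ω a a := fun h => lt_irrefl _ h.2

/-- the value of `dlt` on a set of three elements -/
theorem dlt_three (ω : P → α) {a b c : P} (hab : a ≠ b) (hac : a ≠ c) (hbc : b ≠ c) :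
    dlt ω {a, b, c} =
      ((if ¬ b ⋖ a ∧ ¬ c ⋖ a ∧ ¬ StrictCover ω b c ∧ ¬ StrictCover ω c b then (1 : ℤ) else 0) +
       ((if ¬ a ⋖ b ∧ ¬ c ⋖ b ∧ ¬ StrictCover ω a c ∧ ¬ StrictCover ω c a then (1 : ℤ) else 0) +
       (if ¬ a ⋖ c ∧ ¬ b ⋖ c ∧ ¬ StrictCover ω a b ∧ ¬ StrictCover ω b a then (1 : ℤ) else 0))) -
      ((if ¬ a ⋖ b ∧ ¬ a ⋖ c ∧ ¬ StrictCover ω b c ∧ ¬ StrictCover ω c b then (1 : ℤ) else 0) +
       ((if ¬ b ⋖ a ∧ ¬ b ⋖ c ∧ ¬ StrictCover ω a c ∧ ¬ StrictCover ω c a then (1 : ℤ) else 0) +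
       (if ¬ c ⋖ a ∧ ¬ c ⋖ b ∧ ¬ StrictCover ω a b ∧ ¬ StrictCover ω b a then (1 : ℤ) else 0))) := by
  have h1 : ∀ (p : P → Prop) [DecidablePred p], ((({a, b, c} : Finset P).filter p).card : ℤ) =
      (if p a then (1 : ℤ) else 0) + ((if p b then (1 : ℤ) else 0) +
        (if p c then (1 : ℤ) else 0)) := by
    intro p _
    rw [Finset.card_filter]
    push_cast
    rw [Finset.sum_insert (by simp [hab, hac]), Finset.sum_insert (by simp [hbc]),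
      Finset.sum_singleton]
  unfold dlt
  rw [h1, h1]
  simp only [Finset.mem_insert, Finset.mem_singleton, forall_eq_or_imp, forall_eq, ne_eq,
    not_true_eq_false, false_implies, true_implies, hab, hac, hbc, hab.symm, hac.symm, hbc.symm,
    not_false_eq_true, Dlt_irrefl, Dlt_strict_irrefl, true_and, and_true, implies_true,
    and_assoc]

theorem Strip.x_ne_y (t : Strip ω) {i j : ℕ} (hi : i ≤ t.k) (hj : j ≤ t.k) : t.x i ≠ t.y j := by
  intro h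
  have h1 := (t.xy j hj).1.lt
  rw [← h] at h1
  exact (t.xmin i hi).not_lt h1

theorem Strip.v_ne_y (t : Strip ω) {j : ℕ} (hj : j ≤ t.k) : t.v ≠ t.y j := by
  intro h
  have h1 := (t.xy j hj).1.lt
  rw [← h] at h1
  exact t.vmin.not_lt h1

theorem card_TC (h : Setup ω) (W : World ω) (i : W.ι) : (W.st i).TC.card = 3 := by
  set t := W.st i
  have h1 := (t.xy t.k le_rfl).1.lt
  have h2 := (t.yw t.k le_rfl).1.lt
  unfold Strip.TC
  exact Finset.card_eq_three.2 ⟨_, _, _, h1.ne, (h1.trans h2).ne, h2.ne, rfl⟩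

theorem card_TD (h : Setup ω) (W : World ω) (i : W.ι) : (W.st i).TD.card = 3 := by
  set t := W.st i
  have h1 := t.vy.1.lt
  have h2 := t.yu.1.lt
  unfold Strip.TD
  exact Finset.card_eq_three.2 ⟨_, _, _, h1.ne, (h1.trans h2).ne, h2.ne, rfl⟩

theorem card_TW (h : Setup ω) (W : World ω) (i : W.ι) (hk : 1 ≤ (W.st i).k) :
    (W.st i).TW.card = 3 := by
  set t := W.st i
  have h1 := (t.vw hk).1.lt
  have h2 := (t.yw t.k le_rfl).1.lt
  unfold Strip.TW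
  exact Finset.card_eq_three.2 ⟨_, _, _, t.v_ne_y le_rfl, h1.ne, h2.ne, rfl⟩

theorem card_TS (h : Setup ω) (W : World ω) (i : W.ι) (hk : 1 ≤ (W.st i).k) :
    (W.st i).TS.card = 3 := by
  set t := W.st i
  have h1 := (t.xu hk).1.lt
  have h2 := t.yu.1.lt
  unfold Strip.TS
  exact Finset.card_eq_three.2 ⟨_, _, _, t.x_ne_y le_rfl (Nat.zero_le _), h1.ne, h2.ne, rfl⟩

theorem Dlt_weak_not_strict {a b : P} (h : WeakCover ω a b) : ¬ StrictCover ω a b :=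
  fun h' => lt_asymm h.2 h'.2

theorem Dlt_not_strict_of_lt {a b : P} (h : a < b) : ¬ StrictCover ω b a :=
  fun h' => lt_asymm h h'.1.lt

theorem Dlt_not_cov_of_lt {a b : P} (h : a < b) : ¬ b ⋖ a :=
  fun h' => lt_asymm h h'.lt

theorem Dlt_not_cov_trans {a b c : P} (h1 : a < b) (h2 : b < c) : ¬ a ⋖ c :=
  fun h' => h'.2 h1 h2

theorem dlt_TC (h : Setup ω) (W : World ω) (i : W.ι) : dlt ω (W.st i).TC = 1 := by
  set t := W.st i
  have c1 := t.xy t.k le_rfl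
  have c2 := t.yw t.k le_rfl
  have h1 := c1.1.lt
  have h2 := c2.1.lt
  unfold Strip.TC
  rw [dlt_three ω h1.ne (h1.trans h2).ne h2.ne]
  have e1 : ¬ StrictCover ω (t.x t.k) (t.w t.k) := fun h' => Dlt_not_cov_trans h1 h2 h'.1
  simp [c1, c1.1, c2.1, Dlt_weak_not_strict c2, Dlt_not_strict_of_lt h2,
    Dlt_not_cov_of_lt h1, Dlt_not_cov_of_lt (h1.trans h2)]

theorem dlt_TD (h : Setup ω) (W : World ω) (i : W.ι) : dlt ω (W.st i).TD = -1 := by
  set t := W.st i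
  have c1 := t.vy
  have c2 := t.yu
  have h1 := c1.1.lt
  have h2 := c2.1.lt
  unfold Strip.TD
  rw [dlt_three ω h1.ne (h1.trans h2).ne h2.ne]
  simp [c1.1, c2, c2.1, Dlt_weak_not_strict c1, Dlt_not_strict_of_lt h1,
    Dlt_not_cov_of_lt h2, Dlt_not_cov_of_lt (h1.trans h2)]

theorem dlt_TW (h : Setup ω) (W : World ω) (i : W.ι) (hk : 1 ≤ (W.st i).k) :
    dlt ω (W.st i).TW = 1 := by
  set t := W.st i
  have c1 := t.vw hk
  have c2 := t.yw t.k le_rfl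
  have h1 := c1.1.lt
  have h2 := c2.1.lt
  have n1 : ¬ t.v ⋖ t.y t.k := fun h' => c1.1.2 h'.lt h2
  have n2 : ¬ t.y t.k ⋖ t.v := fun h' => t.vmin.not_lt h'.lt
  have n3 : ¬ StrictCover ω t.v (t.y t.k) := fun h' => n1 h'.1
  have n4 : ¬ StrictCover ω (t.y t.k) t.v := fun h' => n2 h'.1
  unfold Strip.TW
  rw [dlt_three ω (t.v_ne_y le_rfl) h1.ne h2.ne]
  simp [c1.1, c2.1, n1, n2, n3, n4, Dlt_weak_not_strict c1, Dlt_weak_not_strict c2,
    Dlt_not_strict_of_lt h1, Dlt_not_strict_of_lt h2, Dlt_not_cov_of_lt h1,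
    Dlt_not_cov_of_lt h2]

theorem dlt_TS (h : Setup ω) (W : World ω) (i : W.ι) (hk : 1 ≤ (W.st i).k) :
    dlt ω (W.st i).TS = -1 := by
  set t := W.st i
  have c1 := t.xu hk
  have c2 := t.yu
  have h1 := c1.1.lt
  have h2 := c2.1.lt
  have n1 : ¬ t.x t.k ⋖ t.y 0 := fun h' => c1.1.2 h'.lt h2
  have n2 : ¬ t.y 0 ⋖ t.x t.k := fun h' => (t.xmin t.k le_rfl).not_lt h'.lt
  have n3 : ¬ StrictCover ω (t.x t.k) (t.y 0) := fun h' => n1 h'.1
  have n4 : ¬ StrictCover ω (t.y 0) (t.x t.k) := fun h' => n2 h'.1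
  unfold Strip.TS
  rw [dlt_three ω (t.x_ne_y le_rfl (Nat.zero_le _)) h1.ne h2.ne]
  simp [c1, c2, c1.1, c2.1, n1, n2, n3, n4,
    Dlt_not_strict_of_lt h1, Dlt_not_strict_of_lt h2, Dlt_not_cov_of_lt h1,
    Dlt_not_cov_of_lt h2]

end Pool.PP2
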