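import Pool.Agent.Lib.PP2.G.Lab

/-!
# domination
-/

namespace Pool.PP2

open Finset Classical Pool.PPart

variable {P : Type*} {α : Type*} [PartialOrder P] [Fintype P] [LinearOrder α]
variable {ω : P → α}

theorem Dom_FI {A T : Finset P} {e f : P} (hf : f ∈ A) (hef : WeakCover ω e f) : FI ω A T e := by
  by_cases h1 : f ∈ T
  · exact Or.inl ⟨f, h1, hef.1⟩
  · exact Or.inr ⟨f, mem_sdiff.2 ⟨hf, h1⟩, hef⟩

theorem Dom_FB {A T : Finset P} {e f : P} (hf : f ∈ A) (hef : StrictCover ω f e) :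
    FB ω A T e := by
  by_cases h1 : f ∈ T
  · exact Or.inl ⟨f, h1, hef.1⟩
  · exact Or.inr ⟨f, mem_sdiff.2 ⟨hf, h1⟩, hef⟩

theorem Dom_nFB {A T : Finset P} {e : P} (he : IsMin e) : ¬ FB ω A T e := by
  rintro (⟨t, _, h1⟩ | ⟨f, _, h1⟩)
  · exact Lab_not_min h1 he
  · exact Lab_not_min h1.1 he

theorem Dom_nFI {A T : Finset P} {e : P} (he : IsMax e) : ¬ FI ω A T e := by
  rintro (⟨t, _, h1⟩ | ⟨f, _, h1⟩)
  · exact Lab_not_max h1 he
  · exact Lab_not_max h1.1 he

theorem Dom_low {A : Finset P} (hA : ∀ z ∈ A, ∀ c, c ⋖ z → c ∈ A) : IsLow A := by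
  intro x
  induction x using WellFoundedLT.induction with
  | _ x ih =>
    intro hx y hyx
    rcases hyx.eq_or_lt with h1 | h1
    · exact h1 ▸ hx
    · obtain ⟨c, h2, h3⟩ := exists_le_covBy_of_lt h1
      exact ih c h3.lt (hA x hx c h3) y h2

/-- chunk G4: domination: a D-type set is strictly smaller than some C-type set of the same
strip: `A' = (A ∖ {w 0}) ∪ {all x j, y j} ∪ {w k, q}`. -/
theorem domination (h : Setup ω) (W : World ω) (i : W.ι) {A T : Finset P}
    (hA : (W.st i).isD A T) :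
    ∃ A', (W.st i).isC A' (W.st i).TC ∧ A.card < A'.card := by
  have hlb := fun {e : P} (he : e ∈ A \ T) hl => label_bound h W i hA (e := e) he hl
  obtain ⟨hlow, ⟨hTA, hlock⟩, hT⟩ := hA
  have hTsub : ∀ z ∈ T, z = (W.st i).v ∨ z = (W.st i).y 0 ∨ z = (W.st i).u ∨
      z = (W.st i).x (W.st i).k := by
    intro z hz
    rcases hT with hT | ⟨_, hT⟩
    · rw [hT, Strip.TD] at hz
      simp only [mem_insert, mem_singleton] at hz
      tauto
    · rw [hT, Strip.TS] at hz
      simp only [mem_insert, mem_singleton] at hz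
      tauto
  have hy0T : (W.st i).y 0 ∈ T := by
    rcases hT with hT | ⟨_, hT⟩
    · rw [hT, Strip.TD]; simp
    · rw [hT, Strip.TS]; simp
  have huT : (W.st i).u ∈ T := by
    rcases hT with hT | ⟨_, hT⟩
    · rw [hT, Strip.TD]; simp
    · rw [hT, Strip.TS]; simp
  have hy0A := hTA hy0T
  have huA := hTA huT
  have hvA : (W.st i).v ∈ A := hlow _ hy0A _ (W.st i).vy.1.le
  have hxkA : (W.st i).x (W.st i).k ∈ A := by
    rcases Nat.eq_zero_or_pos (W.st i).k with hk | hk
    · rw [hk]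
      exact hlow _ hy0A _ ((W.st i).xy 0 (Nat.zero_le _)).1.le
    · exact hlow _ huA _ ((W.st i).xu hk).1.le
  -- basic facts on the cells
  have hx_nmax : ∀ j ≤ (W.st i).k, ¬ IsMax ((W.st i).x j) := fun j hj =>
    Lab_not_max ((W.st i).xy j hj).1
  have hv_nmax : ¬ IsMax (W.st i).v := Lab_not_max (W.st i).vy.1
  have hq_nmax : ¬ IsMax (W.st i).q := Lab_not_max (W.st i).qw.1
  have hu_ne_w : ∀ j ≤ (W.st i).k, (W.st i).u ≠ (W.st i).w j := by
    intro j hj h1
    have h2 := Lab_u_lt (W.st i)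
    have h3 := Lab_y_lt_w (W.st i) hj
    have h4 := Lab_y0_le (W.st i) hj
    rw [h1] at h2
    exact absurd (h4.trans_lt h3) h2.not_gt
  have hw_lt_wk : ∀ j < (W.st i).k, ω ((W.st i).w j) < ω ((W.st i).w (W.st i).k) := fun j hj =>
    (Lab_lt (W.st i) hj le_rfl).2.1.trans (Lab_y_lt_wk (W.st i) le_rfl)
  have hx_lt_xk : ∀ j < (W.st i).k, ω ((W.st i).x j) < ω ((W.st i).x (W.st i).k) := fun j hj =>
    (Lab_lt (W.st i) hj le_rfl).1.trans (Lab_y_lt_x (W.st i) le_rfl)
  have hqxk : (W.st i).q ≠ (W.st i).x (W.st i).k := by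
    intro h1
    have h2 : StrictCover ω (W.st i).q ((W.st i).y (W.st i).k) := by
      rw [h1]; exact (W.st i).xy _ le_rfl
    have h3 := Lab_su_q W i h2
    exact Lab_y_not_max (W.st i) le_rfl (h3 ▸ (W.st i).wmax _ le_rfl)
  have hqA : (W.st i).q ∉ A := by
    intro hq
    have hlq : ω ((W.st i).w (W.st i).k) < ω (W.st i).q := (W.st i).qw.2
    have hqT : (W.st i).q ∉ T := by
      intro h1
      have hy := Lab_y0_lt_wk (W.st i)
      rcases hTsub _ h1 with h2 | h2 | h2 | h2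
      · rw [h2] at hlq
        exact absurd ((Lab_v_lt (W.st i)).trans hy) hlq.not_gt
      · rw [h2] at hlq
        exact absurd hy hlq.not_gt
      · rw [h2] at hlq
        exact absurd ((Lab_u_lt (W.st i)).trans hy) hlq.not_gt
      · exact hqxk h2
    rcases hlb (mem_sdiff.2 ⟨hq, hqT⟩) hlq with h1 | h1
    · exact hqxk h1
    · exact Lab_not_min h1.1 (W.st i).qmin
  have hwkA : (W.st i).w (W.st i).k ∉ A := fun h1 => hqA (hlow _ h1 _ (W.st i).qw.1.le)
  have hwjA : ∀ j ≤ (W.st i).k, 1 ≤ j → (W.st i).w j ∉ A := by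
    intro j hj hj1 hw
    rcases hj.eq_or_lt with h1 | h1
    · exact hwkA (h1 ▸ hw)
    have hyA : (W.st i).y j ∈ A := hlow _ hw _ ((W.st i).yw j hj).1.le
    have hxA : (W.st i).x j ∈ A := hlow _ hyA _ ((W.st i).xy j hj).1.le
    have hyT : (W.st i).y j ∉ T := by
      intro h2
      rcases hTsub _ h2 with h3 | h3 | h3 | h3
      · exact Lab_y_not_min (W.st i) hj (h3 ▸ (W.st i).vmin)
      · have := (Lab_lt (W.st i) (show 0 < j from hj1) hj).2.2
        rw [h3] at this
        exact lt_irrefl _ this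
      · exact Lab_y_not_max (W.st i) hj (h3 ▸ (W.st i).umax)
      · exact Lab_y_not_min (W.st i) hj (h3 ▸ (W.st i).xmin _ le_rfl)
    have h4 : FI ω A T ((W.st i).y j) := Dom_FI hw ((W.st i).yw j hj)
    have h5 : FB ω A T ((W.st i).y j) := Dom_FB hxA ((W.st i).xy j hj)
    rcases hlock _ (mem_sdiff.2 ⟨hyA, hyT⟩) with ⟨_, h6⟩ | ⟨_, h6⟩
    · exact h6 h5
    · exact h6 h4
  -- the set
  obtain ⟨A', hA'⟩ : ∃ A' : Finset P, A' = A.erase ((W.st i).w 0) ∪
      (range ((W.st i).k + 1)).image (W.st i).x ∪ (range ((W.st i).k + 1)).image (W.st i).y ∪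
      {(W.st i).w (W.st i).k, (W.st i).q} := ⟨_, rfl⟩
  have hmem : ∀ z, z ∈ A' ↔ ((z ∈ A ∧ z ≠ (W.st i).w 0) ∨ (∃ j ≤ (W.st i).k, z = (W.st i).x j) ∨
      (∃ j ≤ (W.st i).k, z = (W.st i).y j) ∨ z = (W.st i).w (W.st i).k ∨ z = (W.st i).q) := by
    intro z
    rw [hA']
    simp only [mem_union, mem_erase, mem_image, mem_range, mem_insert, mem_singleton,
      Nat.lt_succ_iff]
    constructor
    · rintro (((⟨h1, h2⟩ | ⟨j, hj, h1⟩) | ⟨j, hj, h1⟩) | h1)
      · exact Or.inl ⟨h2, h1⟩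
      · exact Or.inr (Or.inl ⟨j, hj, h1.symm⟩)
      · exact Or.inr (Or.inr (Or.inl ⟨j, hj, h1.symm⟩))
      · exact Or.inr (Or.inr (Or.inr h1))
    · rintro (⟨h1, h2⟩ | ⟨j, hj, h1⟩ | ⟨j, hj, h1⟩ | h1)
      · exact Or.inl (Or.inl (Or.inl ⟨h2, h1⟩))
      · exact Or.inl (Or.inl (Or.inr ⟨j, hj, h1.symm⟩))
      · exact Or.inl (Or.inr ⟨j, hj, h1.symm⟩)
      · exact Or.inr h1
  have hold : ∀ z ∈ A, z ≠ (W.st i).w 0 → z ∈ A' := fun z h1 h2 => (hmem z).2 (Or.inl ⟨h1, h2⟩)
  have hxA' : ∀ j ≤ (W.st i).k, (W.st i).x j ∈ A' := fun j hj =>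
    (hmem _).2 (Or.inr (Or.inl ⟨j, hj, rfl⟩))
  have hyA' : ∀ j ≤ (W.st i).k, (W.st i).y j ∈ A' := fun j hj =>
    (hmem _).2 (Or.inr (Or.inr (Or.inl ⟨j, hj, rfl⟩)))
  have hwkA' : (W.st i).w (W.st i).k ∈ A' := (hmem _).2 (Or.inr (Or.inr (Or.inr (Or.inl rfl))))
  have hqA' : (W.st i).q ∈ A' := (hmem _).2 (Or.inr (Or.inr (Or.inr (Or.inr rfl))))
  have hvA' : (W.st i).v ∈ A' := hold _ hvA fun h1 => hv_nmax (h1 ▸ (W.st i).wmax 0 (Nat.zero_le _))
  have huA' : (W.st i).u ∈ A' := hold _ huA (hu_ne_w 0 (Nat.zero_le _))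
  have hwjA' : ∀ j < (W.st i).k, (W.st i).w j ∉ A' := by
    intro j hj hw
    rcases (hmem _).1 hw with ⟨h1, h2⟩ | ⟨m, hm, h1⟩ | ⟨m, hm, h1⟩ | h1 | h1
    · rcases Nat.eq_zero_or_pos j with h3 | h3
      · exact h2 (by rw [h3])
      · exact hwjA j hj.le h3 h1
    · exact hx_nmax m hm (h1 ▸ (W.st i).wmax j hj.le)
    · exact Lab_y_not_max (W.st i) hm (h1 ▸ (W.st i).wmax j hj.le)
    · have := hw_lt_wk j hj
      rw [h1] at this
      exact lt_irrefl _ this
    · exact hq_nmax (h1 ▸ (W.st i).wmax j hj.le)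
  have hlow' : IsLow A' := by
    apply Dom_low
    intro z hz c hc
    rcases (hmem _).1 hz with ⟨h1, _⟩ | ⟨m, hm, h1⟩ | ⟨m, hm, h1⟩ | h1 | h1
    · exact hold c (hlow _ h1 _ hc.le)
        fun h2 => Lab_not_max hc (h2 ▸ (W.st i).wmax 0 (Nat.zero_le _))
    · exact absurd (h1 ▸ (W.st i).xmin m hm) (Lab_not_min hc)
    · subst h1
      rcases Lab_cov h.inj hc with h2 | h2
      · rw [Lab_sl_y W i hm h2]; exact hxA' m hm
      · cases m with
        | zero => rw [Lab_wl_y0 W i h2]; exact hvA'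
        | succ m => rw [Lab_wl_y W i hm h2]; exact hxA' m (Nat.le_of_succ_le hm)
    · subst h1
      rcases Lab_cov h.inj hc with h2 | h2
      · rw [Lab_sl_wk W i h2]; exact hqA'
      · rcases Lab_wl_wk W i h2 with h3 | ⟨_, h3⟩
        · rw [h3]; exact hyA' _ le_rfl
        · rw [h3]; exact hvA'
    · exact absurd (h1 ▸ (W.st i).qmin) (Lab_not_min hc)
  have hTCmem : ∀ z, z ∈ (W.st i).TC ↔ (z = (W.st i).x (W.st i).k ∨ z = (W.st i).y (W.st i).k ∨
      z = (W.st i).w (W.st i).k) := by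
    intro z
    rw [Strip.TC]
    simp only [mem_insert, mem_singleton]
  have hTC : (W.st i).TC ⊆ A' := by
    intro z hz
    rcases (hTCmem z).1 hz with h1 | h1 | h1
    · rw [h1]; exact hxA' _ le_rfl
    · rw [h1]; exact hyA' _ le_rfl
    · rw [h1]; exact hwkA'
  have hlocked : Locked ω A' (W.st i).TC := by
    refine ⟨hTC, fun e he => ?_⟩
    obtain ⟨heA', heTC⟩ := mem_sdiff.1 he
    rw [hTCmem] at heTC
    push Not at heTC
    obtain ⟨hexk, heyk, hewk⟩ := heTC
    -- x j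
    by_cases hx : ∃ j ≤ (W.st i).k, e = (W.st i).x j
    · obtain ⟨j, hj, rfl⟩ := hx
      have hjk : j < (W.st i).k := lt_of_le_of_ne hj fun h1 => hexk (by rw [h1])
      exact Or.inl ⟨Dom_FI (hyA' (j + 1) hjk) ((W.st i).xy' j hjk), Dom_nFB ((W.st i).xmin j hj)⟩
    -- y j
    by_cases hy : ∃ j ≤ (W.st i).k, e = (W.st i).y j
    · obtain ⟨j, hj, rfl⟩ := hy
      have hjk : j < (W.st i).k := lt_of_le_of_ne hj fun h1 => heyk (by rw [h1])
      refine Or.inr ⟨Dom_FB (hxA' j hj) ((W.st i).xy j hj), ?_⟩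
      rintro (⟨t, ht, h1⟩ | ⟨f, hf, h1⟩)
      · rcases Lab_cov h.inj h1 with h2 | h2
        · cases j with
          | zero =>
            rw [Lab_su_y0 W i h2, hTCmem] at ht
            rcases ht with h3 | h3 | h3
            · exact hx_nmax _ le_rfl (h3 ▸ (W.st i).umax)
            · exact Lab_y_not_max (W.st i) le_rfl (h3 ▸ (W.st i).umax)
            · exact hu_ne_w _ le_rfl h3
          | succ m =>
            rw [Lab_su_y W i hj h2] at ht
            exact hwjA' m hj (hTC ht)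
        · rw [Lab_wu_y W i hj h2] at ht
          exact hwjA' j hjk (hTC ht)
      · rw [Lab_wu_y W i hj h1] at hf
        exact hwjA' j hjk (mem_sdiff.1 hf).1
    -- q
    by_cases hq : e = (W.st i).q
    · subst hq
      exact Or.inl ⟨Or.inl ⟨_, (hTCmem _).2 (Or.inr (Or.inr rfl)), (W.st i).qw.1⟩,
        Dom_nFB (W.st i).qmin⟩
    -- v
    by_cases hv : e = (W.st i).v
    · subst hv
      exact Or.inl ⟨Dom_FI (hyA' 0 (Nat.zero_le _)) (W.st i).vy, Dom_nFB (W.st i).vmin⟩
    -- u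
    by_cases hu : e = (W.st i).u
    · subst hu
      exact Or.inr ⟨Dom_FB (hyA' 0 (Nat.zero_le _)) (W.st i).yu, Dom_nFI (W.st i).umax⟩
    push Not at hx hy
    have heA : e ∈ A ∧ e ≠ (W.st i).w 0 := by
      rcases (hmem e).1 heA' with h1 | ⟨j, hj, h1⟩ | ⟨j, hj, h1⟩ | h1 | h1
      · exact h1
      · exact absurd h1 (hx j hj)
      · exact absurd h1 (hy j hj)
      · exact absurd h1 hewk
      · exact absurd h1 hq
    obtain ⟨heA, hew0⟩ := heA
    have hewj : ∀ j ≤ (W.st i).k, e ≠ (W.st i).w j := by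
      intro j hj h1
      rcases Nat.eq_zero_or_pos j with h3 | h3
      · exact hew0 (h1.trans (by rw [h3]))
      · exact hwjA j hj h3 (h1 ▸ heA)
    have heT : e ∉ T := by
      intro h1
      rcases hTsub e h1 with h2 | h2 | h2 | h2
      · exact hv h2
      · exact hy 0 (Nat.zero_le _) h2
      · exact hu h2
      · exact hexk h2
    have hfw : ∀ f, ¬ IsMax f → f ≠ (W.st i).w 0 := fun f h1 h2 =>
      h1 (h2 ▸ (W.st i).wmax 0 (Nat.zero_le _))
    have hlk := hlock e (mem_sdiff.2 ⟨heA, heT⟩)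
    have hsuy : ∀ j ≤ (W.st i).k, ¬ StrictCover ω ((W.st i).y j) e := by
      intro j hj h1
      cases j with
      | zero => exact hu (Lab_su_y0 W i h1)
      | succ m => exact hewj m (Nat.le_of_succ_le hj) (Lab_su_y W i hj h1)
    have hwly : ∀ j ≤ (W.st i).k, ¬ WeakCover ω e ((W.st i).y j) := by
      intro j hj h1
      cases j with
      | zero => exact hv (Lab_wl_y0 W i h1)
      | succ m => exact hx m (Nat.le_of_succ_le hj) (Lab_wl_y W i hj h1)
    have hwlwk : ¬ WeakCover ω e ((W.st i).w (W.st i).k) := by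
      intro h1
      rcases Lab_wl_wk W i h1 with h3 | ⟨_, h3⟩
      · exact heyk h3
      · exact hv h3
    have hFB1 : FB ω A T e → FB ω A' (W.st i).TC e := by
      rintro (⟨t, ht, h1⟩ | ⟨f, hf, h1⟩)
      · rcases hTsub t ht with rfl | rfl | rfl | rfl
        · rcases Lab_cov h.inj h1 with h2 | h2
          · exact Dom_FB hvA' h2
          · rcases Lab_wu_v W i h2 with h3 | ⟨_, h3⟩
            · exact absurd h3 (hy 0 (Nat.zero_le _))
            · exact absurd h3 hewk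
        · rcases Lab_cov h.inj h1 with h2 | h2
          · exact absurd h2 (hsuy 0 (Nat.zero_le _))
          · exact absurd (Lab_wu_y W i (Nat.zero_le _) h2) hew0
        · exact absurd (W.st i).umax (Lab_not_max h1)
        · exact Or.inl ⟨_, (hTCmem _).2 (Or.inl rfl), h1⟩
      · exact Dom_FB (hold f (mem_sdiff.1 hf).1 (hfw f (Lab_not_max h1.1))) h1
    have hFB2 : FB ω A' (W.st i).TC e → FB ω A T e := by
      rintro (⟨t, ht, h1⟩ | ⟨f, hf, h1⟩)
      · rcases (hTCmem t).1 ht with rfl | rfl | rfl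
        · rcases Lab_cov h.inj h1 with h2 | h2
          · exact Dom_FB hxkA h2
          · have h3 := (W.st i).emax _ h2
            rcases hlk with ⟨h4, _⟩ | ⟨h4, _⟩
            · exact absurd h4 (Dom_nFI h3)
            · exact h4
        · rcases Lab_cov h.inj h1 with h2 | h2
          · exact absurd h2 (hsuy _ le_rfl)
          · exact absurd (Lab_wu_y W i le_rfl h2) hewk
        · exact absurd ((W.st i).wmax _ le_rfl) (Lab_not_max h1)
      · rcases (hmem f).1 (mem_sdiff.1 hf).1 with ⟨h2, _⟩ | ⟨j, hj, h2⟩ | ⟨j, hj, h2⟩ | h2 | h2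
        · exact Dom_FB h2 h1
        · subst h2
          rcases hj.eq_or_lt with h3 | h3
          · subst h3
            exact Dom_FB hxkA h1
          · exact absurd (Lab_su_x W i h3 h1) (hy j hj)
        · subst h2
          exact absurd h1 (hsuy j hj)
        · exact absurd (h2 ▸ (W.st i).wmax _ le_rfl) (Lab_not_max h1.1)
        · subst h2
          exact absurd (Lab_su_q W i h1) hewk
    have hFI1 : FI ω A T e → FI ω A' (W.st i).TC e := by
      rintro (⟨t, ht, h1⟩ | ⟨f, hf, h1⟩)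
      · rcases hTsub t ht with rfl | rfl | rfl | rfl
        · exact absurd (W.st i).vmin (Lab_not_min h1)
        · rcases Lab_cov h.inj h1 with h2 | h2
          · exact absurd (Lab_sl_y W i (Nat.zero_le _) h2) (hx 0 (Nat.zero_le _))
          · exact absurd h2 (hwly 0 (Nat.zero_le _))
        · rcases Lab_cov h.inj h1 with h2 | h2
          · rcases Lab_sl_u W i h2 with h3 | ⟨_, h3⟩
            · exact absurd h3 (hy 0 (Nat.zero_le _))
            · exact absurd h3 hexk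
          · exact Dom_FI huA' h2
        · exact absurd ((W.st i).xmin _ le_rfl) (Lab_not_min h1)
      · by_cases h2 : f = (W.st i).w 0
        · subst h2
          rcases Nat.eq_zero_or_pos (W.st i).k with h3 | h3
          · exact absurd (h3 ▸ (mem_sdiff.1 hf).1) hwkA
          · exact absurd (Lab_wl_w W i h3 h1) (hy 0 (Nat.zero_le _))
        · exact Dom_FI (hold f (mem_sdiff.1 hf).1 h2) h1
    have hFI2 : FI ω A' (W.st i).TC e → FI ω A T e := by
      rintro (⟨t, ht, h1⟩ | ⟨f, hf, h1⟩)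
      · rcases (hTCmem t).1 ht with rfl | rfl | rfl
        · exact absurd ((W.st i).xmin _ le_rfl) (Lab_not_min h1)
        · rcases Lab_cov h.inj h1 with h2 | h2
          · exact absurd (Lab_sl_y W i le_rfl h2) hexk
          · exact absurd h2 (hwly _ le_rfl)
        · rcases Lab_cov h.inj h1 with h2 | h2
          · exact absurd (Lab_sl_wk W i h2) hq
          · exact absurd h2 hwlwk
      · rcases (hmem f).1 (mem_sdiff.1 hf).1 with ⟨h2, _⟩ | ⟨j, hj, h2⟩ | ⟨j, hj, h2⟩ | h2 | h2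
        · exact Dom_FI h2 h1
        · exact absurd (h2 ▸ (W.st i).xmin j hj) (Lab_not_min h1.1)
        · subst h2
          exact absurd h1 (hwly j hj)
        · subst h2
          exact absurd h1 hwlwk
        · exact absurd (h2 ▸ (W.st i).qmin) (Lab_not_min h1.1)
    rcases hlk with ⟨h1, h2⟩ | ⟨h1, h2⟩
    · exact Or.inl ⟨hFI1 h1, fun h3 => h2 (hFB2 h3)⟩
    · exact Or.inr ⟨hFB1 h1, fun h3 => h2 (hFI2 h3)⟩
  refine ⟨A', ⟨hlow', hlocked, Or.inl rfl⟩, ?_⟩
  have hsub : insert (W.st i).q (insert ((W.st i).w (W.st i).k) (A.erase ((W.st i).w 0))) ⊆ A' := by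
    intro z hz
    simp only [mem_insert, mem_erase] at hz
    rcases hz with h1 | h1 | ⟨h1, h2⟩
    · rw [h1]; exact hqA'
    · rw [h1]; exact hwkA'
    · exact hold z h2 h1
  have hc := card_le_card hsub
  have hqw : (W.st i).q ≠ (W.st i).w (W.st i).k := (W.st i).qw.1.lt.ne
  rw [card_insert_of_notMem, card_insert_of_notMem] at hc
  · have := pred_card_le_card_erase (s := A) (a := (W.st i).w 0)
    omega
  · exact fun h1 => hwkA (mem_of_mem_erase h1)
  · intro h1
    rcases mem_insert.1 h1 with h2 | h2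
    · exact hqw h2
    · exact hqA (mem_of_mem_erase h2)

end Pool.PP2
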