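import Pool.Agent.Lib.PP2.G.RimE1

/-!
# maximal C-type sets
-/

namespace Pool.PP2

open Finset Classical Pool.PPart

variable {P : Type*} {α : Type*} [PartialOrder P] [Fintype P] [LinearOrder α]
variable {ω : P → α}

/-- chunk G5d (e2): if `A` has maximal size among all C-type sets (of all strips), then the south
neighbour `c ∈ F` of an element `b ∈ A ∩ F` without west neighbour is in `A`.

Proof: otherwise add `c` and the cells to the left of `c` (they are in `J`). -/
theorem e2 (h : Setup ω) (W : World ω) (i : W.ι) {A T : Finset P}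
    (hA : (W.st i).isC A T)
    (hmax : ∀ j A' T', (W.st j).isC A' T' → A'.card ≤ A.card)
    {b c : P} (hb : b ∈ A) (hw : ¬ ∃ z, WeakCover ω z b) (hbc : StrictCover ω b c)
    (hc : c ∉ U (neg ω)) : c ∈ A := by
  by_contra hcA
  have hlow := hA.1
  have hTA : T ⊆ A := hA.2.1.1
  have hcm : ¬ IsMax c := re_not_max_of_not_U hc
  -- structure of the new elements
  have hnew : ∀ z, z ≤ c → z ∉ A → z ≠ c →
      (¬ ∃ a, StrictCover ω a z) ∧ ∃ z', z' ≤ c ∧ z' ∉ A ∧ WeakCover ω z z' := by
    intro z
    induction z using WellFoundedGT.induction with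
    | ind z ih =>
      intro hzc hzA hne
      obtain ⟨z', h1, h2⟩ := exists_covBy_le_of_lt (lt_of_le_of_ne hzc hne)
      have hz'A : z' ∉ A := fun h3 => hzA (hlow z' h3 z h1.le)
      by_cases hz'c : z' = c
      · subst hz'c
        have hweak : WeakCover ω z z' := by
          rcases strict_or_weak h.inj h1 with h3 | h3
          · exact absurd (re_ls W h3 hbc hcm ▸ hb) hzA
          · exact h3
        refine ⟨?_, z', le_rfl, hcA, hweak⟩
        rintro ⟨a, ha⟩
        obtain ⟨t, ht1, ht2⟩ := re_sw W ha hweak hcm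
        have := re_ls W ht2 hbc hcm
        subst this
        exact hw ⟨a, ht1⟩
      · obtain ⟨h3, _⟩ := ih z' h1.lt h2 hz'A hz'c
        have hweak : WeakCover ω z z' := by
          rcases strict_or_weak h.inj h1 with h4 | h4
          · exact absurd ⟨z, h4⟩ h3
          · exact h4
        refine ⟨?_, z', h2, hz'A, hweak⟩
        rintro ⟨a, ha⟩
        have hz'm : ¬ IsMax z' := fun h4 => h4.not_lt (lt_of_le_of_ne h2 hz'c)
        obtain ⟨t, ht1, ht2⟩ := re_sw W ha hweak hz'm
        exact h3 ⟨t, ht2⟩
  set A' : Finset P := A ∪ univ.filter (fun z => z ≤ c) with hA'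
  have hmem : ∀ z, z ∈ A' ↔ z ∈ A ∨ z ≤ c := by intro z; simp [hA']
  have hlow' : IsLow A' := by
    intro x hx y hy
    rw [hmem] at hx ⊢
    rcases hx with hx | hx
    · exact Or.inl (hlow x hx y hy)
    · exact Or.inr (hy.trans hx)
  have hAA' : A ⊆ A' := Finset.subset_union_left
  have hlock : Locked ω A' T := by
    refine ⟨hTA.trans hAA', ?_⟩
    intro e he
    rw [Finset.mem_sdiff, hmem] at he
    obtain ⟨he, heT⟩ := he
    by_cases heA : e ∈ A
    · -- old elements
      have hFB : FB ω A' T e ↔ FB ω A T e := by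
        constructor
        · rintro (h1 | ⟨f, hf, hfe⟩)
          · exact Or.inl h1
          · exact Or.inr ⟨f, Finset.mem_sdiff.2 ⟨hlow e heA f hfe.1.le,
              (Finset.mem_sdiff.1 hf).2⟩, hfe⟩
        · rintro (h1 | ⟨f, hf, hfe⟩)
          · exact Or.inl h1
          · exact Or.inr ⟨f, Finset.mem_sdiff.2 ⟨hAA' (Finset.mem_sdiff.1 hf).1,
              (Finset.mem_sdiff.1 hf).2⟩, hfe⟩
      rcases hA.2.1.2 e (Finset.mem_sdiff.2 ⟨heA, heT⟩) with h1 | h1
      · left
        refine ⟨?_, fun h2 => h1.2 (hFB.1 h2)⟩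
        rcases h1.1 with h2 | ⟨f, hf, hfe⟩
        · exact Or.inl h2
        · exact Or.inr ⟨f, Finset.mem_sdiff.2 ⟨hAA' (Finset.mem_sdiff.1 hf).1,
              (Finset.mem_sdiff.1 hf).2⟩, hfe⟩
      · right
        refine ⟨hFB.2 h1.1, ?_⟩
        rintro (h2 | ⟨f, hf, hef⟩)
        · exact h1.2 (Or.inl h2)
        · rw [Finset.mem_sdiff, hmem] at hf
          obtain ⟨hf, hfT⟩ := hf
          by_cases hfA : f ∈ A
          · exact h1.2 (Or.inr ⟨f, Finset.mem_sdiff.2 ⟨hfA, hfT⟩, hef⟩)
          · have hfc : f ≤ c := hf.resolve_left hfA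
            have hfm : ¬ IsMax f := by
              by_cases hfc' : f = c
              · rw [hfc']; exact hcm
              · exact fun h4 => h4.not_lt (lt_of_le_of_ne hfc hfc')
            have hes : ¬ ∃ z, StrictCover ω z e := by
              rintro ⟨z, hz⟩
              obtain ⟨t, ht1, ht2⟩ := re_sw W hz hef hfm
              by_cases hfc' : f = c
              · subst hfc'
                have := re_ls W ht2 hbc hcm
                subst this
                exact hw ⟨z, ht1⟩
              · exact (hnew f hfc hfA hfc').1 ⟨t, ht2⟩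
            rcases h1.1 with ⟨t, ht, hte⟩ | ⟨f', _, hfe'⟩
            · rcases strict_or_weak h.inj hte with h4 | h4
              · exact hes ⟨t, h4⟩
              · rcases re_weak_above W i hA ht h4 with h5 | h5
                · exact re_not_max hef.1 h5
                · exact hes h5
            · exact hes ⟨f', hfe'⟩
    · have hec : e ≤ c := he.resolve_left heA
      by_cases hec' : e = c
      · right
        subst hec'
        refine ⟨?_, ?_⟩
        · by_cases hbT : b ∈ T
          · exact Or.inl ⟨b, hbT, hbc.1⟩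
          · exact Or.inr ⟨b, Finset.mem_sdiff.2 ⟨hAA' hb, hbT⟩, hbc⟩
        · rintro (⟨t, ht, h2⟩ | ⟨f, hf, hef⟩)
          · exact heA (hlow t (hTA ht) e h2.le)
          · rw [Finset.mem_sdiff, hmem] at hf
            rcases hf.1 with h3 | h3
            · exact heA (hlow f h3 e hef.1.le)
            · exact absurd (lt_of_lt_of_le hef.1.lt h3) (lt_irrefl _)
      · left
        obtain ⟨h1, z', h2, h3, h4⟩ := hnew e hec heA hec'
        refine ⟨Or.inr ⟨z', Finset.mem_sdiff.2 ⟨(hmem z').2 (Or.inr h2),
          fun h5 => h3 (hTA h5)⟩, h4⟩, ?_⟩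
        rintro (⟨t, ht, hte⟩ | ⟨f, hf, hfe⟩)
        · rcases strict_or_weak h.inj hte with h5 | h5
          · exact h1 ⟨t, h5⟩
          · rcases re_weak_above W i hA ht h5 with h6 | h6
            · exact re_not_max h4.1 h6
            · exact h1 h6
        · exact h1 ⟨f, hfe⟩
  have hC : (W.st i).isC A' T := ⟨hlow', hlock, hA.2.2⟩
  have h1 := hmax i A' T hC
  have h2 : A ⊂ A' := by
    rw [Finset.ssubset_iff_of_subset hAA']
    exact ⟨c, (hmem c).2 (Or.inr le_rfl), hcA⟩
  have h3 := Finset.card_lt_card h2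
  omega

end Pool.PP2
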