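import Pool.Agent.Lib.PP2.G.Defs
import Pool.Agent.Lib.PP2.E8
import Pool.Agent.Lib.PP2.E10

/-!
# engine statements used in Part G
-/

namespace Pool.PP2

open Finset Classical Pool.PPart MvPolynomial

variable {M : Type*}

/-- diagonal step -/
def geng_D (Q : EG M) (F : Finset M) (a b : M) : Prop :=
  a ∈ F ∧ b ∈ F ∧ ∃ c ∈ F, Q.s a c ∧ Q.w c b

theorem geng_D_rk {Q : EG M} {F : Finset M} {a b : M} (h : geng_D Q F a b) : Q.rk a < Q.rk b := by
  obtain ⟨-, -, c, -, h1, h2⟩ := h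
  exact (Q.rk_s h1).trans (Q.rk_w h2)

theorem geng_D_unique (Q : Skew M) {F : Finset M} {a a' b : M} (h : geng_D Q.toEG F a b)
    (h' : geng_D Q.toEG F a' b) : a = a' := by
  obtain ⟨-, -, c, -, h1, h2⟩ := h
  obtain ⟨-, -, c', -, h1', h2'⟩ := h'
  have := Q.lw h2 h2'
  subst this
  exact Q.ls h1 h1'

theorem geng_B0_iff {Q : EG M} {F : Finset M} {x : M} (hx : x ∈ F) :
    x ∈ Q.B0 F ↔ ∀ a, ¬ geng_D Q F a x := by
  simp only [EG.B0, Finset.mem_filter, hx, true_and, geng_D]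
  constructor
  · rintro h a ⟨h1, c, h2, h3, h4⟩
    exact h ⟨c, h2, a, h1, h4, h3⟩
  · rintro h ⟨c, h2, a, h1, h4, h3⟩
    exact h a ⟨h1, c, h2, h3, h4⟩

theorem geng_head_iff {Q : EG M} {F : Finset M} {x h : M} :
    Q.Head F x h ↔ h ∈ Q.B0 F ∧ Relation.ReflTransGen (geng_D Q F) h x := Iff.rfl

theorem geng_head_unique (Q : Skew M) {F : Finset M} {x h h' : M} (h1 : Q.Head F x h)
    (h2 : Q.Head F x h') : h = h' := by
  rw [geng_head_iff] at h1 h2
  obtain ⟨hb, hr⟩ := h1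
  obtain ⟨hb', hr'⟩ := h2
  have hF : h ∈ F := (Finset.mem_filter.1 hb).1
  have hF' : h' ∈ F := (Finset.mem_filter.1 hb').1
  induction hr with
  | refl =>
    rcases Relation.ReflTransGen.cases_tail hr' with h3 | ⟨c, -, h3⟩
    · exact h3
    · exact absurd h3 ((geng_B0_iff hF).1 hb c)
  | tail hab hbc ih =>
    rcases Relation.ReflTransGen.cases_tail hr' with h3 | ⟨c, h4, h3⟩
    · subst h3
      exact absurd hbc ((geng_B0_iff hF').1 hb' _)
    · have := geng_D_unique Q hbc h3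
      subst this
      exact ih h4

theorem geng_head_B0 {Q : Skew M} {F : Finset M} {x h : M} (hx : x ∈ Q.B0 F)
    (h1 : Q.Head F x h) : h = x := by
  rw [geng_head_iff] at h1
  rcases Relation.ReflTransGen.cases_tail h1.2 with h3 | ⟨c, -, h3⟩
  · exact h3.symm
  · exact absurd h3 ((geng_B0_iff (Finset.mem_filter.1 hx).1).1 hx c)

theorem geng_exists_head (Q : EG M) {F : Finset M} : ∀ (n : ℕ) (x : M), x ∈ F →
    (F.filter (fun z => Q.rk z < Q.rk x)).card ≤ n → ∃ h, Q.Head F x h := by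
  intro n
  induction n with
  | zero =>
    intro x hx hn
    refine ⟨x, ?_, Relation.ReflTransGen.refl⟩
    rw [geng_B0_iff hx]
    intro a ha
    have : a ∈ F.filter (fun z => Q.rk z < Q.rk x) := Finset.mem_filter.2 ⟨ha.1, geng_D_rk ha⟩
    have h2 := Finset.card_pos.2 ⟨a, this⟩
    omega
  | succ n ih =>
    intro x hx hn
    by_cases hb : x ∈ Q.B0 F
    · exact ⟨x, hb, Relation.ReflTransGen.refl⟩
    · rw [geng_B0_iff hx] at hb
      push Not at hb
      obtain ⟨a, ha⟩ := hb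
      have hlt : (F.filter (fun z => Q.rk z < Q.rk a)).card < (F.filter (fun z => Q.rk z < Q.rk x)).card := by
        apply Finset.card_lt_card
        rw [Finset.ssubset_iff_of_subset]
        · exact ⟨a, Finset.mem_filter.2 ⟨ha.1, geng_D_rk ha⟩, by simp⟩
        · intro z hz
          rw [Finset.mem_filter] at hz ⊢
          exact ⟨hz.1, hz.2.trans (geng_D_rk ha)⟩
      obtain ⟨h, h1, h2⟩ := ih a ha.1 (by omega)
      exact ⟨h, h1, h2.tail ha⟩

/-- the count is additive under removal of `B0` -/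
theorem geng_sgn (Q : Skew M) {F : Finset M} (hF : Q.Cvx F) :
    Q.sgn F = (-1) ^ Q.ns (Q.B0 F) * Q.sgn (F \ Q.B0 F) := by
  set F' := F \ Q.B0 F with hF'
  have hB0F : Q.B0 F ⊆ F := Finset.filter_subset _ _
  have hlow := Q.B0_lowIn hF
  have hmem' : ∀ {x}, x ∈ F' ↔ x ∈ F ∧ x ∉ Q.B0 F := by
    intro x; rw [hF', Finset.mem_sdiff]
  -- the key equivalence
  have key : ∀ x ∈ F', (∃ h, Q.Head F' x h ∧ Q.sl F' h) ↔ (∃ h, Q.Head F x h ∧ Q.sl F h) := by
    intro x hx
    obtain ⟨hxF, hxB⟩ := hmem'.1 hx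
    obtain ⟨h, hh⟩ := geng_exists_head Q.toEG _ x hxF le_rfl
    have hhB := hh.1
    have hhF : h ∈ F := hB0F hhB
    -- first step
    rcases Relation.ReflTransGen.cases_head (geng_head_iff.1 hh).2 with h3 | ⟨h1, h3, h4⟩
    · exact absurd (h3 ▸ hhB) hxB
    have hh1F : h1 ∈ F := h3.2.1
    have hh1B : h1 ∉ Q.B0 F := by
      intro hb
      exact (geng_B0_iff hh1F).1 hb h h3
    have hh1 : h1 ∈ F' := hmem'.2 ⟨hh1F, hh1B⟩
    -- steps stay in F'
    have hstep : ∀ a b, a ∈ F' → geng_D Q.toEG F a b → b ∈ F' ∧ geng_D Q.toEG F' a b := by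
      rintro a b ha ⟨h5, h6, c, h7, h8, h9⟩
      have hc : c ∈ F' := by
        refine hmem'.2 ⟨h7, fun hcb => ?_⟩
        exact (hmem'.1 ha).2 (hlow.2 a h5 c hcb (Or.inl h8))
      have hb : b ∈ F' := by
        refine hmem'.2 ⟨h6, fun hbb => ?_⟩
        exact (hmem'.1 hc).2 (hlow.2 c h7 b hbb (Or.inr h9))
      exact ⟨hb, ha, hb, c, hc, h8, h9⟩
    have hchain : x ∈ F' ∧ Relation.ReflTransGen (geng_D Q.toEG F') h1 x := by
      clear hx hxF hxB hh
      induction h4 with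
      | refl => exact ⟨hh1, Relation.ReflTransGen.refl⟩
      | tail hab hbc ih =>
        obtain ⟨h5, h6⟩ := ih
        obtain ⟨h7, h8⟩ := hstep _ _ h5 hbc
        exact ⟨h7, h6.tail h8⟩
    have hh1B' : h1 ∈ Q.B0 F' := by
      rw [geng_B0_iff hh1]
      rintro a ⟨ha, -, c, hc, h8, h9⟩
      have : a = h := geng_D_unique Q (F := F) ⟨(hmem'.1 ha).1, hh1F, c, (hmem'.1 hc).1, h8, h9⟩ h3
      exact (hmem'.1 ha).2 (this ▸ hhB)
    have hhead' : Q.Head F' x h1 := ⟨hh1B', hchain.2⟩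
    obtain ⟨-, -, c, hc, hs, hw⟩ := h3
    have hsl : Q.sl F' h1 ↔ Q.sl F h := by
      constructor
      · rintro ⟨n, hn, hns⟩
        obtain ⟨hnF, hnB⟩ := hmem'.1 hn
        rw [geng_B0_iff hnF] at hnB
        push Not at hnB
        obtain ⟨z, hz, -, y, hy, hzy, hyn⟩ := hnB
        obtain ⟨t, ht1, ht2⟩ := Q.ws hyn hns
        have := Q.lw ht2 hw
        subst this
        have := Q.ls ht1 hs
        subst this
        exact ⟨z, hz, hzy⟩
      · rintro ⟨n, hn, hns⟩
        obtain ⟨t, ht1, ht2⟩ := Q.sw hs hw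
        have htF : t ∈ F := hF.mem hhF hh1F (Relation.ReflTransGen.single (Or.inr ht1))
          (Relation.ReflTransGen.single (Or.inl ht2))
        refine ⟨t, hmem'.2 ⟨htF, fun htB => ?_⟩, ht2⟩
        exact (geng_B0_iff htF).1 htB n ⟨hn, htF, h, hhF, hns, ht1⟩
    constructor
    · rintro ⟨g, hg1, hg2⟩
      have := geng_head_unique Q hg1 hhead'
      subst this
      exact ⟨h, hh, hsl.1 hg2⟩
    · rintro ⟨g, hg1, hg2⟩
      have := geng_head_unique Q hg1 hh
      subst this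
      exact ⟨h1, hhead', hsl.2 hg2⟩
  have hcount : (F.filter (fun x => ∃ h, Q.Head F x h ∧ Q.sl F h)).card =
      Q.ns (Q.B0 F) + (F'.filter (fun x => ∃ h, Q.Head F' x h ∧ Q.sl F' h)).card := by
    have hsplit : F.filter (fun x => ∃ h, Q.Head F x h ∧ Q.sl F h) =
        (Q.B0 F).filter (fun x => Q.sl (Q.B0 F) x) ∪
          F'.filter (fun x => ∃ h, Q.Head F' x h ∧ Q.sl F' h) := by
      ext x
      rw [Finset.mem_union, Finset.mem_filter, Finset.mem_filter, Finset.mem_filter]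
      by_cases hx : x ∈ Q.B0 F
      · have hxF' : x ∉ F' := fun h => (hmem'.1 h).2 hx
        have hxF : x ∈ F := hB0F hx
        simp only [hx, hxF, hxF', true_and, false_and, or_false]
        constructor
        · rintro ⟨h, h1, z, h2, h3⟩
          have := geng_head_B0 hx h1
          subst this
          exact ⟨z, hlow.2 z h2 _ hx (Or.inl h3), h3⟩
        · rintro ⟨z, h2, h3⟩
          exact ⟨x, ⟨hx, Relation.ReflTransGen.refl⟩, z, hB0F h2, h3⟩
      · by_cases hxF : x ∈ F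
        · have hxF' : x ∈ F' := hmem'.2 ⟨hxF, hx⟩
          simp only [hx, hxF, hxF', true_and, false_and, false_or]
          exact (key x hxF').symm
        · have hxF' : x ∉ F' := fun h => hxF (hmem'.1 h).1
          simp only [hx, hxF, hxF', false_and, false_or]
    rw [hsplit, Finset.card_union_of_disjoint]
    · rfl
    · rw [Finset.disjoint_left]
      intro x h1 h2
      exact (hmem'.1 (Finset.mem_filter.1 h2).1).2 (Finset.mem_filter.1 h1).1
  unfold EG.sgn
  rw [hcount, pow_add]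

theorem geng_lc (Q : Skew M) : ∀ (n : ℕ) (F : Finset M), F.card = n → Q.Cvx F →
    0 < Q.sgn F * mo.leadingCoeff (K Q.toEG F) := by
  intro n
  induction n using Nat.strong_induction_on with
  | _ n ih =>
    intro F hn hF
    rcases F.eq_empty_or_nonempty with rfl | hne
    · rw [K_empty]
      simp [EG.sgn, MonomialOrder.leadingCoeff]
    · obtain ⟨x, hx⟩ := hne
      obtain ⟨z, hz, -⟩ := Q.exists_end hF hx
      have hzB := (Q.end_mem_B0 hF hz).1
      have hzF : z ∈ F := (Finset.mem_filter.1 hzB).1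
      have hlt : (F \ Q.B0 F).card < F.card := by
        apply Finset.card_lt_card
        rw [Finset.ssubset_iff_of_subset Finset.sdiff_subset]
        exact ⟨z, hzF, fun h => (Finset.mem_sdiff.1 h).2 hzB⟩
      have h1 := ih _ (hn ▸ hlt) (F \ Q.B0 F) rfl (hF.up (Q.B0_lowIn hF))
      rw [geng_sgn Q hF, Q.leadingCoeff_K hF]
      have hprod : 0 < ∏ z ∈ Q.ends F, (1 / ((Q.comp F z ∩ Q.B0 F).card : ℚ)) := by
        apply Finset.prod_pos
        intro z hz
        have hzB := (Q.end_mem_B0 hF hz).1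
        have : z ∈ Q.comp F z ∩ Q.B0 F :=
          Finset.mem_inter.2 ⟨EG.mem_comp.2 ⟨(Finset.mem_filter.1 hzB).1, EG.conn_refl _ _⟩, hzB⟩
        have := Finset.card_pos.2 ⟨z, this⟩
        positivity
      have hsq : ((-1 : ℚ) ^ Q.ns (Q.B0 F)) * (-1) ^ Q.ns (Q.B0 F) = 1 := by
        rw [← mul_pow]; norm_num
      calc (0 : ℚ) < (∏ z ∈ Q.ends F, (1 / ((Q.comp F z ∩ Q.B0 F).card : ℚ))) *
            (Q.sgn (F \ Q.B0 F) * mo.leadingCoeff (K Q.toEG (F \ Q.B0 F))) := mul_pos hprod h1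
        _ = _ := by
          have : ∀ s p g l : ℚ, (s * g) * (s * p * l) = (s * s) * (p * (g * l)) := by
            intro s p g l; ring
          rw [this, hsq, one_mul]

/-- engine chunk: sign coherence. A nonempty sum of `K`'s with coherent signs is not zero. -/
theorem sign_coherence (Q : Skew M) {ι : Type*} (s : Finset ι) (hs : s.Nonempty) (a : ι → ℚ)
    (F : ι → Finset M) (hF : ∀ i ∈ s, Q.Cvx (F i)) (ha : ∀ i ∈ s, 0 < a i * Q.sgn (F i)) :
    ∑ i ∈ s, a i • K Q.toEG (F i) ≠ 0 := by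
  intro h0
  have h1 := mo_sum_coherent s (fun i => a i • K Q.toEG (F i)) 1 (Or.inl rfl) (by
    intro i hi
    have h2 := geng_lc Q _ (F i) rfl (hF i hi)
    have h3 := ha i hi
    have hane : a i ≠ 0 := by
      rintro h4
      rw [h4, zero_mul] at h3
      exact lt_irrefl _ h3
    have h4 : mo.leadingCoeff (a i • K Q.toEG (F i)) = a i * mo.leadingCoeff (K Q.toEG (F i)) := by
      rw [MvPolynomial.smul_eq_C_mul, MonomialOrder.leadingCoeff_mul, MonomialOrder.leadingCoeff_C]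
    rw [one_mul, h4]
    have hsg : Q.sgn (F i) * Q.sgn (F i) = 1 := by
      unfold EG.sgn; rw [← mul_pow]; norm_num
    calc (0 : ℚ) < (a i * Q.sgn (F i)) * (Q.sgn (F i) * mo.leadingCoeff (K Q.toEG (F i))) :=
          mul_pos h3 h2
      _ = a i * (Q.sgn (F i) * Q.sgn (F i)) * mo.leadingCoeff (K Q.toEG (F i)) := by ring
      _ = _ := by rw [hsg, mul_one]) 0 h0
  have h2 := h1.2.2 hs
  simp at h2

/-- the elements without west neighbour -/
theorem geng_rows_low (Q : EG M) (hsk : ∀ {x y z}, Q.s x y → Q.w z x → ∃ t, Q.s z t ∧ Q.w t y)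
    {F : Finset M} (hF : Q.Cvx F) : Q.LowIn F (F.filter (fun x => ¬ Q.wl F x)) ∧
      Q.SO (F.filter (fun x => ¬ Q.wl F x)) := by
  refine ⟨⟨Finset.filter_subset _ _, ?_⟩, ?_⟩
  · intro x hx y hy hxy
    rw [Finset.mem_filter] at hy ⊢
    refine ⟨hx, ?_⟩
    rintro ⟨z, hz, hzx⟩
    rcases hxy with h | h
    · obtain ⟨t, ht1, ht2⟩ := hsk h hzx
      exact hy.2 ⟨t, hF.mem hz hy.1 (Relation.ReflTransGen.single (Or.inl ht1))
        (Relation.ReflTransGen.single (Or.inr ht2)), ht2⟩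
    · exact hy.2 ⟨x, hx, h⟩
  · intro x hx y hy hxy
    rw [Finset.mem_filter] at hx hy
    exact hy.2 ⟨x, hx.1, hxy⟩

theorem geng_SO_card (Q : EG M) {F L : Finset M} (hL : Q.LowIn F L) (hS : Q.SO L) :
    L.card ≤ Q.rows F := by
  apply Finset.card_le_card
  intro x hx
  rw [Finset.mem_filter]
  refine ⟨hL.1 hx, ?_⟩
  rintro ⟨z, hz, hzx⟩
  exact hS z (hL.2 z hz x hx (Or.inr hzx)) x hx hzx

/-- engine chunk: positivity of the top power of `T_z` -/
theorem rows_le (Q : Skew M) {ι κ : Type*} (s : Finset ι) (t : Finset κ) (a : ι → ℚ) (b : κ → ℚ)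
    (F : ι → Finset M) (G : κ → Finset M) (hF : ∀ i ∈ s, Q.Cvx (F i)) (hG : ∀ i ∈ t, Q.Cvx (G i))
    (ha : ∀ i ∈ s, 0 < a i) (_hb : ∀ i ∈ t, 0 < b i)
    (h : ∑ i ∈ s, a i • K Q.toEG (F i) = ∑ i ∈ t, b i • K Q.toEG (G i)) (r : ℕ)
    (hr : ∀ i ∈ t, Q.rows (G i) ≤ r) : ∀ i ∈ s, Q.rows (F i) ≤ r := by
  intro i0 hi0
  by_contra hlt
  push Not at hlt
  obtain ⟨φ, hφ⟩ := exists_strip_op false (Q.rows (F i0))
  have hR : φ (∑ i ∈ t, b i • K Q.toEG (G i)) = 0 := by
    rw [map_sum]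
    apply Finset.sum_eq_zero
    intro i hi
    rw [map_smul, hφ M Q (G i) (hG i hi)]
    rw [Finset.sum_eq_zero, smul_zero]
    intro L hL
    rw [if_neg, zero_smul]
    rintro ⟨h1, h2⟩
    have hL' : Q.LowIn (G i) L := (Finset.mem_filter.1 hL).2
    have h3 := geng_SO_card Q.toEG hL' (by simpa using h1)
    have h4 := hr i hi
    omega
  rw [← h, map_sum] at hR
  have hpos := K_pos (M := M) (ι := (_ : ι) × Finset M)
    (s.sigma (fun i => Q.lows (F i)))
    (fun p => a p.1 * (if (if false = true then Q.WO p.2 else Q.SO p.2) ∧ p.2.card = Q.rows (F i0) then (1 : ℚ) else 0))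
    (fun _ => Q.toEG) (fun p => F p.1 \ p.2) (by
      rintro ⟨i, L⟩ hp
      have hi := (Finset.mem_sigma.1 hp).1
      have := (ha i hi).le
      split_ifs <;> simp [this]) (by
      rw [Finset.sum_sigma, ← hR]
      apply Finset.sum_congr rfl
      intro i hi
      rw [map_smul, hφ M Q (F i) (hF i hi), Finset.smul_sum]
      apply Finset.sum_congr rfl
      intro L hL
      rw [smul_smul, MvPolynomial.smul_eq_C_mul])
  have hlow := geng_rows_low Q.toEG (fun {x y z} h1 h2 => by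
    obtain ⟨t, h3, h4⟩ := Q.ws h2 h1
    exact ⟨t, h3, h4⟩) (hF i0 hi0)
  have h5 := hpos ⟨i0, (F i0).filter (fun x => ¬ Q.wl (F i0) x)⟩ (by
    rw [Finset.mem_sigma]
    refine ⟨hi0, ?_⟩
    rw [EG.lows, Finset.mem_filter, Finset.mem_powerset]
    exact ⟨Finset.filter_subset _ _, hlow.1⟩)
  rw [if_pos ⟨by simpa using hlow.2, rfl⟩, mul_one] at h5
  exact absurd h5 (ha i0 hi0).ne'

end Pool.PP2
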