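import Pool.Agent.Lib.PP2.G.Defs

/-!
# the entries of the operator
-/

namespace Pool.PP2

open Finset Classical Pool.PPart

variable {P : Type*} {α : Type*} [PartialOrder P] [Fintype P] [LinearOrder α]
variable {ω : P → α}

/-- a set closed under lower covers is a lower set -/
theorem Entry_low {B : Finset P} (hB : ∀ f e : P, f ⋖ e → e ∈ B → f ∈ B) : IsLow B := by
  intro x
  induction x using WellFoundedLT.induction with
  | ind x ih =>
    intro hx y hy
    rcases hy.eq_or_lt with h1 | h1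
    · rw [h1]; exact hx
    · obtain ⟨z, h2, h3⟩ := exists_le_covBy_of_lt h1
      exact ih z h3.lt (hB z x h3 hx) y h2

/-- the two conditions on `I` -/
def EntryC (ω : P → α) (A T I : Finset P) : Prop :=
  IsLow I ∧ IsLow (I ∪ T) ∧ WO ω ∅ I ∧ WO (fun x => OrderDual.toDual (ω x)) (I ∪ T) A

/-- the conditions are unary -/
theorem Entry_unary (hω : Function.Injective ω) {A T I : Finset P} (hA : IsLow A) (hT : T ⊆ A)
    (hI : I ⊆ A \ T) :
    EntryC ω A T I ↔ ∀ e ∈ A \ T, (FI ω A T e → e ∈ I) ∧ (FB ω A T e → e ∉ I) := by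
  have hdis : ∀ e, e ∈ I → e ∉ T := fun e he => (Finset.mem_sdiff.1 (hI he)).2
  constructor
  · rintro ⟨h1, h2, h3, h4⟩ e he
    have heA := (Finset.mem_sdiff.1 he).1
    have heT := (Finset.mem_sdiff.1 he).2
    constructor
    · rintro (⟨t, ht, het⟩ | ⟨f, hf, hef⟩)
      · have h5 := h2 t (Finset.mem_union_right _ ht) e het.le
        rcases Finset.mem_union.1 h5 with h6 | h6
        · exact h6
        · exact absurd h6 heT
      · by_contra h5
        have h6 : e ∉ I ∪ T := by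
          rw [Finset.mem_union, not_or]
          exact ⟨h5, heT⟩
        exact h4 e f hef.1.lt h6 (Finset.mem_sdiff.1 hf).1 hef.2
    · rintro (⟨t, ht, het⟩ | ⟨f, hf, hef⟩) heI
      · exact hdis t (h1 e heI t het.le) ht
      · exact h3 f e hef.1.lt (Finset.notMem_empty f) heI hef.2
  · intro h
    have hlowI : ∀ f e : P, f ⋖ e → e ∈ I → f ∈ I ∧ WeakCover ω f e := by
      intro f e hfe he
      have heS := hI he
      have heA := (Finset.mem_sdiff.1 heS).1
      have hfA := hA e heA f hfe.le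
      by_cases hfT : f ∈ T
      · exact absurd he ((h e heS).2 (Or.inl ⟨f, hfT, hfe⟩))
      · have hfS : f ∈ A \ T := Finset.mem_sdiff.2 ⟨hfA, hfT⟩
        rcases strict_or_weak hω hfe with h5 | h5
        · exact absurd he ((h e heS).2 (Or.inr ⟨f, hfS, h5⟩))
        · exact ⟨(h f hfS).1 (Or.inr ⟨e, heS, h5⟩), h5⟩
    have hL1 : IsLow I := Entry_low (fun f e hfe he => (hlowI f e hfe he).1)
    have hL2 : IsLow (I ∪ T) := by
      apply Entry_low
      intro f e hfe he
      rw [Finset.mem_union] at he ⊢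
      rcases he with he | he
      · exact Or.inl (hlowI f e hfe he).1
      · by_cases hfT : f ∈ T
        · exact Or.inr hfT
        · left
          exact (h f (Finset.mem_sdiff.2 ⟨hA e (hT he) f hfe.le, hfT⟩)).1 (Or.inl ⟨e, he, hfe⟩)
    refine ⟨hL1, hL2, ?_, ?_⟩
    · have key : ∀ y ∈ I, ∀ x ≤ y, ω x ≤ ω y := by
        intro y
        induction y using WellFoundedLT.induction with
        | ind y ih =>
          intro hy x hx
          rcases hx.eq_or_lt with h1 | h1
          · rw [h1]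
          · obtain ⟨z, h2, h3⟩ := exists_le_covBy_of_lt h1
            obtain ⟨h4, h5⟩ := hlowI z y h3 hy
            exact (ih z h3.lt h4 x h2).trans h5.2.le
      intro x y hxy _ hy
      exact not_lt.2 (key y hy x hxy.le)
    · have key : ∀ y ∈ A, ∀ x ≤ y, x ∉ I ∪ T → ω y ≤ ω x := by
        intro y
        induction y using WellFoundedLT.induction with
        | ind y ih =>
          intro hy x hx hxK
          rcases hx.eq_or_lt with h1 | h1
          · rw [h1]
          · obtain ⟨z, h2, h3⟩ := exists_le_covBy_of_lt h1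
            have hzK : z ∉ I ∪ T := fun hz => hxK (hL2 z hz x h2)
            have hyK : y ∉ I ∪ T := fun hz => hxK (hL2 y hz x hx)
            have hzA : z ∈ A := hA y hy z h3.le
            rw [Finset.mem_union, not_or] at hzK hyK
            have hzS : z ∈ A \ T := Finset.mem_sdiff.2 ⟨hzA, hzK.2⟩
            have hyS : y ∈ A \ T := Finset.mem_sdiff.2 ⟨hy, hyK.2⟩
            rcases strict_or_weak hω h3 with h5 | h5
            · exact h5.2.le.trans (ih z h3.lt hzA x h2 hxK)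
            · exact absurd ((h z hzS).1 (Or.inr ⟨y, hyS, h5⟩)) hzK.1
      intro x y hxy hx hy hlt
      have h1 := key y hy x hxy.le hx
      exact absurd h1 (not_le.2 hlt)

/-- the signed sum over the admissible `I` is the weight -/
theorem Entry_wt (hω : Function.Injective ω) {A T : Finset P} (hA : IsLow A) (hT : T ⊆ A) :
    ∑ I ∈ (A \ T).powerset, (if EntryC ω A T I then (-1 : ℤ) ^ ((A \ T) \ I).card else 0) =
      wt ω A T := by
  have h1 : ∀ I ∈ (A \ T).powerset, (if EntryC ω A T I then (-1 : ℤ) ^ ((A \ T) \ I).card else 0) =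
      (∏ e ∈ I, (if FB ω A T e then (0 : ℤ) else 1)) *
        ∏ e ∈ (A \ T) \ I, (if FI ω A T e then (0 : ℤ) else -1) := by
    intro I hI
    rw [Finset.mem_powerset] at hI
    by_cases hc : EntryC ω A T I
    · rw [if_pos hc]
      rw [Entry_unary hω hA hT hI] at hc
      have g1 : ∏ e ∈ I, (if FB ω A T e then (0 : ℤ) else 1) = 1 := by
        apply Finset.prod_eq_one
        intro e he
        rw [if_neg (fun h => (hc e (hI he)).2 h he)]
      have g2 : ∏ e ∈ (A \ T) \ I, (if FI ω A T e then (0 : ℤ) else -1) =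
          ∏ e ∈ (A \ T) \ I, (-1 : ℤ) := by
        apply Finset.prod_congr rfl
        intro e he
        rw [Finset.mem_sdiff] at he
        rw [if_neg (fun h => he.2 ((hc e he.1).1 h))]
      rw [g1, g2, Finset.prod_const, one_mul]
    · rw [if_neg hc]
      rw [Entry_unary hω hA hT hI] at hc
      push Not at hc
      obtain ⟨e, he, hc⟩ := hc
      by_cases h2 : FI ω A T e → e ∈ I
      · obtain ⟨h3, h4⟩ := hc h2
        rw [Finset.prod_eq_zero h4 (by rw [if_pos h3]), zero_mul]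
      · push Not at h2
        rw [Finset.prod_eq_zero (s := (A \ T) \ I) (i := e) (Finset.mem_sdiff.2 ⟨he, h2.2⟩)
          (by rw [if_pos h2.1]), mul_zero]
  rw [Finset.sum_congr rfl h1, ← Finset.prod_add]
  unfold wt
  by_cases hL : Locked ω A T
  · rw [if_pos hL]
    have h2 : ∀ e ∈ A \ T, ((if FB ω A T e then (0 : ℤ) else 1) +
        (if FI ω A T e then (0 : ℤ) else -1)) = if FB ω A T e then (-1 : ℤ) else 1 := by
      intro e he
      rcases hL.2 e he with ⟨h3, h4⟩ | ⟨h3, h4⟩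
      · simp [h3, h4]
      · simp [h3, h4]
    rw [Finset.prod_congr rfl h2, Finset.prod_ite, Finset.prod_const, Finset.prod_const_one,
      mul_one]
  · rw [if_neg hL]
    have h2 : ∃ e ∈ A \ T, ¬ ((FI ω A T e ∧ ¬ FB ω A T e) ∨ (FB ω A T e ∧ ¬ FI ω A T e)) := by
      by_contra hcon
      push Not at hcon
      refine hL ⟨hT, fun e he => ?_⟩
      have := hcon e he
      tauto
    obtain ⟨e, he, h3⟩ := h2
    apply Finset.prod_eq_zero he
    by_cases h4 : FI ω A T e <;> by_cases h5 : FB ω A T e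
    · simp [h4, h5]
    · exact absurd (Or.inl ⟨h4, h5⟩) h3
    · exact absurd (Or.inr ⟨h5, h4⟩) h3
    · simp [h4, h5]

/-- a step of size one is admissible as soon as the sets are lower -/
theorem Entry_WO_one {I B : Finset P} (hI : IsLow I) (hB : IsLow B) (hIB : I ⊆ B)
    (hc : B.card = I.card + 1) : WO ω I B := by
  intro x y hxy hx hy _
  have hxB := hB y hy x hxy.le
  have hyI : y ∉ I := fun h => hx (hI y h x hxy.le)
  have h1 : (B \ I).card = 1 := by rw [Finset.card_sdiff_of_subset hIB]; omega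
  obtain ⟨m, hm⟩ := Finset.card_eq_one.1 h1
  have h2 : x ∈ B \ I := Finset.mem_sdiff.2 ⟨hxB, hx⟩
  have h3 : y ∈ B \ I := Finset.mem_sdiff.2 ⟨hy, hyI⟩
  rw [hm, Finset.mem_singleton] at h2 h3
  rw [h2, h3] at hxy
  exact lt_irrefl _ hxy

/-- a step of size two is admissible if and only if there is no strict cover in it -/
theorem Entry_WO_two {I B : Finset P} (hI : IsLow I) (hB : IsLow B) (hIB : I ⊆ B)
    (hc : B.card = I.card + 2) :
    WO ω I B ↔ ∀ a ∈ B \ I, ∀ b ∈ B \ I, ¬ StrictCover ω a b := by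
  constructor
  · intro h a ha b hb hab
    exact h a b hab.1.lt (Finset.mem_sdiff.1 ha).2 (Finset.mem_sdiff.1 hb).1 hab.2
  · intro h x y hxy hx hy hlt
    have hxB := hB y hy x hxy.le
    have hyI : y ∉ I := fun h => hx (hI y h x hxy.le)
    have h2 : x ∈ B \ I := Finset.mem_sdiff.2 ⟨hxB, hx⟩
    have h3 : y ∈ B \ I := Finset.mem_sdiff.2 ⟨hy, hyI⟩
    refine h x h2 y h3 ⟨⟨hxy, ?_⟩, hlt⟩
    intro z hz1 hz2
    have hzB := hB y hy z hz2.le
    have hzI : z ∉ I := fun h => hx (hI z h x hz1.le)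
    have h4 : z ∈ B \ I := Finset.mem_sdiff.2 ⟨hzB, hzI⟩
    have h5 : ({x, z, y} : Finset P) ⊆ B \ I := by
      intro e he
      rw [Finset.mem_insert, Finset.mem_insert, Finset.mem_singleton] at he
      rcases he with rfl | rfl | rfl
      · exact h2
      · exact h4
      · exact h3
    have h6 := Finset.card_le_card h5
    rw [Finset.card_sdiff_of_subset hIB, Finset.card_eq_three.2 ⟨x, z, y, hz1.ne, hxy.ne, hz2.ne,
      rfl⟩] at h6
    omega

theorem Entry_ins {I K : Finset P} (hI : IsLow I) (hK : IsLow K) (hIK : I ⊆ K) {m : P}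
    (hm : m ∈ K \ I) : IsLow (insert m I) ↔ ∀ f ∈ K \ I, ¬ f ⋖ m := by
  rw [Finset.mem_sdiff] at hm
  constructor
  · intro h f hf hfm
    rw [Finset.mem_sdiff] at hf
    have h1 := h m (Finset.mem_insert_self _ _) f hfm.le
    rw [Finset.mem_insert] at h1
    rcases h1 with h1 | h1
    · exact hfm.lt.ne h1
    · exact hf.2 h1
  · intro h
    apply Entry_low
    intro f e hfe he
    rw [Finset.mem_insert] at he ⊢
    rcases he with rfl | he
    · by_contra h1
      rw [not_or] at h1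
      exact h f (Finset.mem_sdiff.2 ⟨hK e hm.1 f hfe.le, h1.2⟩) hfe
    · exact Or.inr (hI e he f hfe.le)

theorem Entry_era {I K : Finset P} (hI : IsLow I) (hK : IsLow K) {m : P}
    (hm : m ∈ K \ I) : IsLow (K.erase m) ↔ ∀ f ∈ K \ I, ¬ m ⋖ f := by
  rw [Finset.mem_sdiff] at hm
  constructor
  · intro h f hf hfm
    rw [Finset.mem_sdiff] at hf
    have h1 := h f (Finset.mem_erase.2 ⟨hfm.lt.ne', hf.1⟩) m hfm.le
    exact Finset.notMem_erase _ _ h1
  · intro h
    apply Entry_low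
    intro f e hfe he
    rw [Finset.mem_erase] at he ⊢
    refine ⟨?_, hK e he.2 f hfe.le⟩
    rintro rfl
    exact h e (Finset.mem_sdiff.2 ⟨he.2, fun h1 => hm.2 (hI e h1 f hfe.le)⟩) hfe

/-- the entry of `W₁ W₂` -/
theorem Entry_12 (I K : LL P) :
    (wmat ω 1 * wmat ω 2) I K = if I.1 ⊆ K.1 ∧ K.1.card = I.1.card + 3 then
      (((K.1 \ I.1).filter (fun i => (∀ f ∈ K.1 \ I.1, ¬ f ⋖ i) ∧
        ∀ a ∈ K.1 \ I.1, ∀ b ∈ K.1 \ I.1, a ≠ i → b ≠ i → ¬ StrictCover ω a b)).card : ℤ)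
      else 0 := by
  rw [Matrix.mul_apply]
  simp only [wmat]
  by_cases hIK : I.1 ⊆ K.1 ∧ K.1.card = I.1.card + 3
  swap
  · rw [if_neg hIK]
    apply Finset.sum_eq_zero
    intro B _
    by_contra hne
    have h1 := left_ne_zero_of_mul hne
    have h2 := right_ne_zero_of_mul hne
    rw [ne_eq, ite_eq_right_iff, Classical.not_imp] at h1 h2
    apply hIK
    refine ⟨h1.1.1.trans h2.1.1, ?_⟩
    have := h1.1.2.1
    have := h2.1.2.1
    omega
  rw [if_pos hIK]
  obtain ⟨hIK, hc⟩ := hIK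
  have h0 : ∀ B : LL P, ((if I.1 ⊆ B.1 ∧ B.1.card = I.1.card + 1 ∧ WO ω I.1 B.1 then (1 : ℤ) else 0)
      * (if B.1 ⊆ K.1 ∧ K.1.card = B.1.card + 2 ∧ WO ω B.1 K.1 then 1 else 0)) =
      if (I.1 ⊆ B.1 ∧ B.1.card = I.1.card + 1 ∧ B.1 ⊆ K.1 ∧ WO ω B.1 K.1) then 1 else 0 := by
    intro B
    rw [ite_zero_mul_ite_zero, mul_one]
    apply if_congr _ rfl rfl
    constructor
    · rintro ⟨⟨h1, h2, h3⟩, h4, h5, h6⟩
      exact ⟨h1, h2, h4, h6⟩
    · rintro ⟨h1, h2, h3, h4⟩
      exact ⟨⟨h1, h2, Entry_WO_one I.2 B.2 h1 h2⟩, h3, by omega, h4⟩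
  rw [Finset.sum_congr rfl (fun B _ => h0 B), Finset.sum_boole]
  norm_cast
  symm
  refine Finset.card_bij (fun m hm => ⟨insert m I.1, ?_⟩) ?_ ?_ ?_
  · rw [Finset.mem_filter] at hm
    exact (Entry_ins I.2 K.2 hIK hm.1).2 hm.2.1
  · intro m hm
    rw [Finset.mem_filter] at hm ⊢
    have hmI := Finset.mem_sdiff.1 hm.1
    refine ⟨Finset.mem_univ _, Finset.subset_insert _ _, Finset.card_insert_of_notMem hmI.2,
      Finset.insert_subset hmI.1 hIK, ?_⟩
    have hlow := (Entry_ins I.2 K.2 hIK hm.1).2 hm.2.1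
    have hcard := Finset.card_insert_of_notMem hmI.2
    rw [Entry_WO_two hlow K.2 (Finset.insert_subset hmI.1 hIK) (by omega)]
    intro a ha b hb
    rw [Finset.mem_sdiff, Finset.mem_insert, not_or] at ha hb
    exact hm.2.2 a (Finset.mem_sdiff.2 ⟨ha.1, ha.2.2⟩) b (Finset.mem_sdiff.2 ⟨hb.1, hb.2.2⟩)
      ha.2.1 hb.2.1
  · intro m hm m' hm' heq
    rw [Finset.mem_filter, Finset.mem_sdiff] at hm hm'
    have h1 := congrArg Subtype.val heq
    simp only at h1
    have h2 : m ∈ insert m' I.1 := by rw [← h1]; exact Finset.mem_insert_self _ _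
    rcases Finset.mem_insert.1 h2 with h3 | h3
    · exact h3
    · exact absurd h3 hm.1.2
  · intro B hB
    rw [Finset.mem_filter] at hB
    obtain ⟨_, h1, h2, h3, h4⟩ := hB
    have h5 : (B.1 \ I.1).card = 1 := by rw [Finset.card_sdiff_of_subset h1]; omega
    obtain ⟨m, hm⟩ := Finset.card_eq_one.1 h5
    have hmB : m ∈ B.1 \ I.1 := by rw [hm]; exact Finset.mem_singleton_self _
    rw [Finset.mem_sdiff] at hmB
    have h6 : insert m I.1 = B.1 := by
      rw [Finset.insert_eq, ← hm, Finset.sdiff_union_of_subset h1]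
    have hmK : m ∈ K.1 \ I.1 := Finset.mem_sdiff.2 ⟨h3 hmB.1, hmB.2⟩
    refine ⟨m, ?_, Subtype.ext h6⟩
    rw [Finset.mem_filter]
    refine ⟨hmK, (Entry_ins I.2 K.2 hIK hmK).1 (h6 ▸ B.2), ?_⟩
    intro a ha b hb ham hbm
    rw [Entry_WO_two B.2 K.2 h3 (by omega)] at h4
    rw [Finset.mem_sdiff] at ha hb
    refine h4 a (Finset.mem_sdiff.2 ⟨ha.1, ?_⟩) b (Finset.mem_sdiff.2 ⟨hb.1, ?_⟩)
    · rw [← h6, Finset.mem_insert, not_or]; exact ⟨ham, ha.2⟩
    · rw [← h6, Finset.mem_insert, not_or]; exact ⟨hbm, hb.2⟩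

/-- the entry of `W₂ W₁` -/
theorem Entry_21 (I K : LL P) :
    (wmat ω 2 * wmat ω 1) I K = if I.1 ⊆ K.1 ∧ K.1.card = I.1.card + 3 then
      (((K.1 \ I.1).filter (fun i => (∀ f ∈ K.1 \ I.1, ¬ i ⋖ f) ∧
        ∀ a ∈ K.1 \ I.1, ∀ b ∈ K.1 \ I.1, a ≠ i → b ≠ i → ¬ StrictCover ω a b)).card : ℤ)
      else 0 := by
  rw [Matrix.mul_apply]
  simp only [wmat]
  by_cases hIK : I.1 ⊆ K.1 ∧ K.1.card = I.1.card + 3
  swap
  · rw [if_neg hIK]
    apply Finset.sum_eq_zero
    intro B _
    by_contra hne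
    have h1 := left_ne_zero_of_mul hne
    have h2 := right_ne_zero_of_mul hne
    rw [ne_eq, ite_eq_right_iff, Classical.not_imp] at h1 h2
    apply hIK
    refine ⟨h1.1.1.trans h2.1.1, ?_⟩
    have := h1.1.2.1
    have := h2.1.2.1
    omega
  rw [if_pos hIK]
  obtain ⟨hIK, hc⟩ := hIK
  have h0 : ∀ B : LL P, ((if I.1 ⊆ B.1 ∧ B.1.card = I.1.card + 2 ∧ WO ω I.1 B.1 then (1 : ℤ) else 0)
      * (if B.1 ⊆ K.1 ∧ K.1.card = B.1.card + 1 ∧ WO ω B.1 K.1 then 1 else 0)) =
      if (I.1 ⊆ B.1 ∧ B.1.card = I.1.card + 2 ∧ B.1 ⊆ K.1 ∧ WO ω I.1 B.1) then 1 else 0 := by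
    intro B
    rw [ite_zero_mul_ite_zero, mul_one]
    apply if_congr _ rfl rfl
    constructor
    · rintro ⟨⟨h1, h2, h3⟩, h4, h5, h6⟩
      exact ⟨h1, h2, h4, h3⟩
    · rintro ⟨h1, h2, h3, h4⟩
      exact ⟨⟨h1, h2, h4⟩, h3, by omega, Entry_WO_one B.2 K.2 h3 (by omega)⟩
  rw [Finset.sum_congr rfl (fun B _ => h0 B), Finset.sum_boole]
  norm_cast
  symm
  refine Finset.card_bij (fun m hm => ⟨K.1.erase m, ?_⟩) ?_ ?_ ?_
  · rw [Finset.mem_filter] at hm
    exact (Entry_era I.2 K.2 hm.1).2 hm.2.1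
  · intro m hm
    rw [Finset.mem_filter] at hm ⊢
    have hmI := Finset.mem_sdiff.1 hm.1
    have hsub : I.1 ⊆ K.1.erase m := by
      intro e he
      rw [Finset.mem_erase]
      exact ⟨fun h => hmI.2 (h ▸ he), hIK he⟩
    have hcard := Finset.card_erase_of_mem hmI.1
    have hlow := (Entry_era I.2 K.2 hm.1).2 hm.2.1
    refine ⟨Finset.mem_univ _, hsub, by simp only; omega, Finset.erase_subset _ _, ?_⟩
    rw [Entry_WO_two I.2 hlow hsub (by omega)]
    intro a ha b hb
    rw [Finset.mem_sdiff, Finset.mem_erase] at ha hb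
    exact hm.2.2 a (Finset.mem_sdiff.2 ⟨ha.1.2, ha.2⟩) b (Finset.mem_sdiff.2 ⟨hb.1.2, hb.2⟩)
      ha.1.1 hb.1.1
  · intro m hm m' hm' heq
    rw [Finset.mem_filter, Finset.mem_sdiff] at hm hm'
    have h1 := congrArg Subtype.val heq
    simp only at h1
    by_contra hne
    have h2 : m ∈ K.1.erase m' := Finset.mem_erase.2 ⟨hne, hm.1.1⟩
    rw [← h1] at h2
    exact Finset.notMem_erase _ _ h2
  · intro B hB
    rw [Finset.mem_filter] at hB
    obtain ⟨_, h1, h2, h3, h4⟩ := hB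
    have h5 : (K.1 \ B.1).card = 1 := by rw [Finset.card_sdiff_of_subset h3]; omega
    obtain ⟨m, hm⟩ := Finset.card_eq_one.1 h5
    have hmB : m ∈ K.1 \ B.1 := by rw [hm]; exact Finset.mem_singleton_self _
    rw [Finset.mem_sdiff] at hmB
    have h6 : K.1.erase m = B.1 := by
      rw [Finset.erase_eq, ← hm, Finset.sdiff_sdiff_eq_self h3]
    have hmK : m ∈ K.1 \ I.1 := Finset.mem_sdiff.2 ⟨hmB.1, fun h => hmB.2 (h1 h)⟩
    refine ⟨m, ?_, Subtype.ext h6⟩
    rw [Finset.mem_filter]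
    refine ⟨hmK, (Entry_era I.2 K.2 hmK).1 (h6 ▸ B.2), ?_⟩
    intro a ha b hb ham hbm
    rw [Entry_WO_two I.2 B.2 h1 (by omega)] at h4
    rw [Finset.mem_sdiff] at ha hb
    refine h4 a (Finset.mem_sdiff.2 ⟨?_, ha.2⟩) b (Finset.mem_sdiff.2 ⟨?_, hb.2⟩)
    · rw [← h6, Finset.mem_erase]; exact ⟨ham, ha.1⟩
    · rw [← h6, Finset.mem_erase]; exact ⟨hbm, hb.1⟩

/-- the entry of the commutator -/
theorem Entry_comm (I K : LL P) :
    (wmat ω 1 * wmat ω 2 - wmat ω 2 * wmat ω 1) I K =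
      if I.1 ⊆ K.1 ∧ K.1.card = I.1.card + 3 then dlt ω (K.1 \ I.1) else 0 := by
  rw [Matrix.sub_apply, Entry_12, Entry_21]
  by_cases h : I.1 ⊆ K.1 ∧ K.1.card = I.1.card + 3
  · rw [if_pos h, if_pos h, if_pos h]
    rfl
  · rw [if_neg h, if_neg h, if_neg h, sub_zero]

/-- chunk G1a: the entry of the operator `Σ (-1)^b W_a (W₁W₂ - W₂W₁) S_b`.

Proof: expand the product of matrices; for fixed `T` the sum over `I` (weak-only lower, everything
below...) factors over the elements of `A ∖ T` (each element is forced to `I`, forced to `B`, free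
or contradictory; a free element kills the sum). -/
theorem XX_entry (ω : P → α) (hω : Function.Injective ω) (n : ℕ) (hn : 3 ≤ n) (A : LL P) :
    (∑ p ∈ antidiagonal (n - 3), (-1 : ℤ) ^ p.2 • (wmat ω p.1 *
      (wmat ω 1 * wmat ω 2 - wmat ω 2 * wmat ω 1) * smat ω p.2)) (botL P) A =
    if A.1.card = n then XX ω A.1 else 0 := by
  -- expand
  have h1 : (∑ p ∈ antidiagonal (n - 3), (-1 : ℤ) ^ p.2 • (wmat ω p.1 *
      (wmat ω 1 * wmat ω 2 - wmat ω 2 * wmat ω 1) * smat ω p.2)) (botL P) A =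
      ∑ K : LL P, ∑ I : LL P, ∑ p ∈ antidiagonal (n - 3), (-1 : ℤ) ^ p.2 *
        (wmat ω p.1 (botL P) I * (if I.1 ⊆ K.1 ∧ K.1.card = I.1.card + 3 then
          dlt ω (K.1 \ I.1) else 0) * smat ω p.2 K A) := by
    rw [Matrix.sum_apply]
    have h2 : ∀ p ∈ antidiagonal (n - 3), ((-1 : ℤ) ^ p.2 • (wmat ω p.1 *
        (wmat ω 1 * wmat ω 2 - wmat ω 2 * wmat ω 1) * smat ω p.2)) (botL P) A =
        ∑ K : LL P, ∑ I : LL P, (-1 : ℤ) ^ p.2 *
        (wmat ω p.1 (botL P) I * (if I.1 ⊆ K.1 ∧ K.1.card = I.1.card + 3 then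
          dlt ω (K.1 \ I.1) else 0) * smat ω p.2 K A) := by
      intro p _
      rw [Matrix.smul_apply, Matrix.mul_apply, smul_eq_mul, Finset.mul_sum]
      apply Finset.sum_congr rfl
      intro K _
      rw [Matrix.mul_apply, Finset.sum_mul, Finset.mul_sum]
      apply Finset.sum_congr rfl
      intro I _
      rw [Entry_comm]
    rw [Finset.sum_congr rfl h2, Finset.sum_comm]
    apply Finset.sum_congr rfl
    intro K _
    rw [Finset.sum_comm]
  -- the inner sum
  have h2 : ∀ K I : LL P, ∑ p ∈ antidiagonal (n - 3), (-1 : ℤ) ^ p.2 *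
        (wmat ω p.1 (botL P) I * (if I.1 ⊆ K.1 ∧ K.1.card = I.1.card + 3 then
          dlt ω (K.1 \ I.1) else 0) * smat ω p.2 K A) =
      if A.1.card = n then (if I.1 ⊆ K.1 ∧ K.1.card = I.1.card + 3 ∧ K.1 ⊆ A.1 ∧ WO ω ∅ I.1 ∧
        WO (fun x => OrderDual.toDual (ω x)) K.1 A.1 then
        (-1 : ℤ) ^ (A.1.card - K.1.card) * dlt ω (K.1 \ I.1) else 0) else 0 := by
    intro K I
    by_cases hcond : A.1.card = n ∧ I.1 ⊆ K.1 ∧ K.1.card = I.1.card + 3 ∧ K.1 ⊆ A.1 ∧
        WO ω ∅ I.1 ∧ WO (fun x => OrderDual.toDual (ω x)) K.1 A.1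
    · obtain ⟨g1, g2, g3, g4, g5, g6⟩ := hcond
      have g7 := Finset.card_le_card g4
      rw [if_pos g1]
      rw [if_pos (show I.1 ⊆ K.1 ∧ K.1.card = I.1.card + 3 ∧ K.1 ⊆ A.1 ∧ WO ω ∅ I.1 ∧
        WO (fun x => OrderDual.toDual (ω x)) K.1 A.1 from ⟨g2, g3, g4, g5, g6⟩)]
      rw [Finset.sum_eq_single (I.1.card, A.1.card - K.1.card)]
      · have e1 : wmat ω I.1.card (botL P) I = 1 := by
          rw [wmat]
          exact if_pos ⟨Finset.empty_subset _, by simp [botL], g5⟩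
        have e2 : smat ω (A.1.card - K.1.card) K A = 1 := by
          rw [smat, wmat]
          exact if_pos ⟨g4, by omega, g6⟩
        simp only
        rw [e1, e2, if_pos ⟨g2, g3⟩, one_mul, mul_one]
      · rintro ⟨a, b⟩ hp hne
        rw [HasAntidiagonal.mem_antidiagonal] at hp
        simp only at hp ⊢
        by_cases ha : a = I.1.card
        · have hb : b ≠ A.1.card - K.1.card := fun hb => hne (by rw [ha, hb])
          have e2 : smat ω b K A = 0 := by
            rw [smat, wmat]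
            exact if_neg (fun h => hb (by have := h.2.1; omega))
          rw [e2, mul_zero, mul_zero]
        · have e1 : wmat ω a (botL P) I = 0 := by
            rw [wmat]
            refine if_neg (fun h => ha ?_)
            have := h.2.1
            simp only [botL, Finset.card_empty, zero_add] at this
            exact this.symm
          rw [e1, zero_mul, zero_mul, mul_zero]
      · intro hp
        exfalso
        apply hp
        rw [HasAntidiagonal.mem_antidiagonal]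
        simp only
        omega
    · have e0 : (if A.1.card = n then (if I.1 ⊆ K.1 ∧ K.1.card = I.1.card + 3 ∧ K.1 ⊆ A.1 ∧
          WO ω ∅ I.1 ∧ WO (fun x => OrderDual.toDual (ω x)) K.1 A.1 then
          (-1 : ℤ) ^ (A.1.card - K.1.card) * dlt ω (K.1 \ I.1) else 0) else 0) = 0 := by
        by_cases g1 : A.1.card = n
        · rw [if_pos g1, if_neg (fun h => hcond ⟨g1, h⟩)]
        · rw [if_neg g1]
      rw [e0]
      apply Finset.sum_eq_zero
      rintro ⟨a, b⟩ hp
      rw [HasAntidiagonal.mem_antidiagonal] at hp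
      simp only at hp ⊢
      by_contra hne
      have n1 := right_ne_zero_of_mul hne
      have n2 := right_ne_zero_of_mul n1
      have n3 := left_ne_zero_of_mul n1
      have n4 := right_ne_zero_of_mul n3
      have n5 := left_ne_zero_of_mul n3
      rw [smat] at n2
      simp only [wmat] at n2 n5
      rw [ne_eq, ite_eq_right_iff, Classical.not_imp] at n2 n4 n5
      obtain ⟨⟨m1, m2, m3⟩, _⟩ := n2
      obtain ⟨⟨m4, m5⟩, _⟩ := n4
      obtain ⟨⟨_, m6, m7⟩, _⟩ := n5
      simp only [botL, Finset.card_empty, zero_add] at m6 m7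
      exact hcond ⟨by omega, m4, m5, m1, m7, m3⟩
  rw [h1, Finset.sum_congr rfl (fun K _ => Finset.sum_congr rfl (fun I _ => h2 K I))]
  by_cases hn' : A.1.card = n
  swap
  · simp only [if_neg hn', Finset.sum_const_zero]
  simp only [if_pos hn']
  -- the two sums
  have h3 : XX ω A.1 = ∑ s ∈ (((A.1.powersetCard 3).sigma (fun T => (A.1 \ T).powerset)).filter
      (fun s => EntryC ω A.1 s.1 s.2)), (-1 : ℤ) ^ ((A.1 \ s.1) \ s.2).card * dlt ω s.1 := by
    rw [Finset.sum_filter, XX]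
    rw [← Finset.sum_sigma' (A.1.powersetCard 3) (fun T => (A.1 \ T).powerset)
      (fun T I => if EntryC ω A.1 T I then (-1 : ℤ) ^ ((A.1 \ T) \ I).card * dlt ω T else 0)]
    apply Finset.sum_congr rfl
    intro T hT
    rw [Finset.mem_powersetCard] at hT
    rw [← Entry_wt hω A.2 hT.1, Finset.mul_sum]
    apply Finset.sum_congr rfl
    intro I _
    rw [mul_ite, mul_zero]
    apply if_congr Iff.rfl _ rfl
    ring
  rw [h3, ← Finset.sum_product' (univ : Finset (LL P)) (univ : Finset (LL P)) (fun K I =>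
    if I.1 ⊆ K.1 ∧ K.1.card = I.1.card + 3 ∧ K.1 ⊆ A.1 ∧ WO ω ∅ I.1 ∧
        WO (fun x => OrderDual.toDual (ω x)) K.1 A.1 then
        (-1 : ℤ) ^ (A.1.card - K.1.card) * dlt ω (K.1 \ I.1) else 0), ← Finset.sum_filter]
  refine Finset.sum_bij (fun q _ => ⟨q.1.1 \ q.2.1, q.2.1⟩) ?_ ?_ ?_ ?_
  · rintro ⟨K, I⟩ hq
    rw [Finset.mem_filter] at hq
    obtain ⟨_, g2, g3, g4, g5, g6⟩ := hq
    simp only at g2 g3 g4 g5 g6
    rw [Finset.mem_filter, Finset.mem_sigma, Finset.mem_powersetCard, Finset.mem_powerset]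
    simp only
    refine ⟨⟨⟨Finset.sdiff_subset.trans g4, ?_⟩, ?_⟩, I.2, ?_, g5, ?_⟩
    · rw [Finset.card_sdiff_of_subset g2]; omega
    · intro x hx
      rw [Finset.mem_sdiff, Finset.mem_sdiff]
      exact ⟨g4 (g2 hx), fun h => h.2 hx⟩
    · rw [Finset.union_sdiff_of_subset g2]; exact K.2
    · rw [Finset.union_sdiff_of_subset g2]; exact g6
  · rintro ⟨K, I⟩ hq ⟨K', I'⟩ hq' heq
    rw [Finset.mem_filter] at hq hq'
    have g2 := hq.2.1
    have g2' := hq'.2.1
    simp only [Sigma.mk.injEq, heq_eq_eq] at heq g2 g2'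
    obtain ⟨e1, e2⟩ := heq
    have e3 : K.1 = K'.1 := by
      rw [← Finset.union_sdiff_of_subset g2, ← Finset.union_sdiff_of_subset g2', e1, e2]
    rw [Subtype.ext e3, Subtype.ext e2]
  · rintro ⟨T, I⟩ hs
    rw [Finset.mem_filter, Finset.mem_sigma, Finset.mem_powersetCard, Finset.mem_powerset] at hs
    simp only at hs
    obtain ⟨⟨⟨g1, g2⟩, g3⟩, g4, g5, g6, g7⟩ := hs
    have hdis : Disjoint I T := by
      rw [Finset.disjoint_left]
      intro x hx hxT
      exact (Finset.mem_sdiff.1 (g3 hx)).2 hxT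
    refine ⟨(⟨I ∪ T, g5⟩, ⟨I, g4⟩), ?_, ?_⟩
    · rw [Finset.mem_filter]
      refine ⟨Finset.mem_product.2 ⟨Finset.mem_univ _, Finset.mem_univ _⟩,
        Finset.subset_union_left, ?_, ?_, g6, g7⟩
      · simp only
        rw [Finset.card_union_of_disjoint hdis, g2]
      · exact Finset.union_subset (g3.trans Finset.sdiff_subset) g1
    · simp only [Sigma.mk.injEq, heq_eq_eq, and_true]
      exact Finset.union_sdiff_cancel_left hdis
  · rintro ⟨K, I⟩ hq
    rw [Finset.mem_filter] at hq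
    obtain ⟨_, g2, g3, g4, g5, g6⟩ := hq
    simp only at g2 g3 g4 g5 g6 ⊢
    congr 2
    rw [sdiff_sdiff, Finset.sup_eq_union, Finset.sdiff_union_of_subset g2,
      Finset.card_sdiff_of_subset g4]

end Pool.PP2
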