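import Pool.Agent.Lib.PP2.G.Defs
import Pool.Agent.Lib.PP2.A1

/-!
# elements outside `J` have a strict lower cover
-/

namespace Pool.PP2

open Finset Classical Pool.PPart

variable {P : Type*} {α : Type*} [PartialOrder P] [Fintype P] [LinearOrder α]
variable {ω : P → α}

/-- an element outside `J` has a strict lower cover (from Part A, `N°`) -/
theorem exists_N (h : Setup ω) {x : P} (hx : x ∉ J ω) :
    ∃ a, StrictCover ω a x := h.exists_ls hx

end Pool.PP2
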