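import Pool.Agent.Lib.PP2.G.Defs

/-!
# covers and labels of the cells of a strip
-/

namespace Pool.PP2

open Finset Classical Pool.PPart

variable {P : Type*} {α : Type*} [PartialOrder P] [Fintype P] [LinearOrder α]
variable {ω : P → α}

section LabAux

omit [Fintype P] in
theorem Lab_not_max {a b : P} (hab : a ⋖ b) : ¬ IsMax a := fun hm => hab.lt.not_ge (hm hab.lt.le)

omit [Fintype P] in
theorem Lab_not_min {a b : P} (hab : a ⋖ b) : ¬ IsMin b := fun hm => hab.lt.not_ge (hm hab.lt.le)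

omit [Fintype P] in
theorem Lab_cov (hinj : Function.Injective ω) {a b : P} (hab : a ⋖ b) :
    StrictCover ω a b ∨ WeakCover ω a b := by
  rcases lt_trichotomy (ω a) (ω b) with h1 | h1 | h1
  · exact Or.inr ⟨hab, h1⟩
  · exact absurd (hinj h1) hab.lt.ne
  · exact Or.inl ⟨hab, h1⟩

theorem Lab_y_not_min (t : Strip ω) {j : ℕ} (hj : j ≤ t.k) : ¬ IsMin (t.y j) :=
  Lab_not_min (t.xy j hj).1

theorem Lab_y_not_max (t : Strip ω) {j : ℕ} (hj : j ≤ t.k) : ¬ IsMax (t.y j) :=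
  Lab_not_max (t.yw j hj).1

/-! labels -/

theorem Lab_lt (t : Strip ω) {i j : ℕ} (hij : i < j) (hj : j ≤ t.k) :
    ω (t.x i) < ω (t.y j) ∧ ω (t.w i) < ω (t.y j) ∧ ω (t.y i) < ω (t.y j) := by
  induction j with
  | zero => omega
  | succ m ih =>
    have h1 := (t.xy' m (by omega)).2
    have h2 := (t.yw' m (by omega)).2
    have h3 := (t.xy m (by omega)).2
    rcases Nat.lt_succ_iff_lt_or_eq.1 hij with h4 | h4
    · obtain ⟨h5, h6, h7⟩ := ih h4 (by omega)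
      exact ⟨h5.trans (h3.trans h1), h6.trans (h3.trans h1), h7.trans (h3.trans h1)⟩
    · subst h4
      exact ⟨h1, h2, h3.trans h1⟩

theorem Lab_y0_le (t : Strip ω) {j : ℕ} (hj : j ≤ t.k) : ω (t.y 0) ≤ ω (t.y j) := by
  rcases Nat.eq_zero_or_pos j with h1 | h1
  · rw [h1]
  · exact (Lab_lt t h1 hj).2.2.le

theorem Lab_v_lt (t : Strip ω) : ω t.v < ω (t.y 0) := t.vy.2

theorem Lab_u_lt (t : Strip ω) : ω t.u < ω (t.y 0) := t.yu.2

theorem Lab_g_lt (t : Strip ω) : ω t.g < ω (t.y 0) := t.gu.2.trans t.yu.2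

theorem Lab_y_lt_x (t : Strip ω) {j : ℕ} (hj : j ≤ t.k) : ω (t.y j) < ω (t.x j) := (t.xy j hj).2

theorem Lab_y_lt_w (t : Strip ω) {j : ℕ} (hj : j ≤ t.k) : ω (t.y j) < ω (t.w j) := (t.yw j hj).2

/-- the labels of all `y j` are below that of `w k` -/
theorem Lab_y_lt_wk (t : Strip ω) {j : ℕ} (hj : j ≤ t.k) : ω (t.y j) < ω (t.w t.k) := by
  rcases Nat.lt_or_eq_of_le hj with h1 | h1
  · exact ((Lab_lt t h1 le_rfl).2.2).trans (Lab_y_lt_w t le_rfl)
  · rw [h1]; exact Lab_y_lt_w t le_rfl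

theorem Lab_y0_lt_wk (t : Strip ω) : ω (t.y 0) < ω (t.w t.k) := Lab_y_lt_wk t (Nat.zero_le _)

/-! covers of the cells of a strip -/

variable (W : World ω) (i : W.ι)

theorem Lab_sl_y {j : ℕ} (hj : j ≤ (W.st i).k) {a : P} (ha : StrictCover ω a ((W.st i).y j)) :
    a = (W.st i).x j := by
  by_contra hne
  obtain ⟨i', _, h2, _⟩ := W.ls _ _ _ ha ((W.st i).xy j hj) hne
  exact Lab_y_not_max (W.st i) hj (h2 ▸ (W.st i').umax)

theorem Lab_wl_y0 {a : P} (ha : WeakCover ω a ((W.st i).y 0)) : a = (W.st i).v := by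
  by_contra hne
  obtain ⟨i', _, h2, _⟩ := W.lw _ _ _ ha (W.st i).vy hne
  exact Lab_y_not_max (W.st i) (Nat.zero_le _) (h2 ▸ (W.st i').wmax _ le_rfl)

theorem Lab_wl_y {j : ℕ} (hj : j < (W.st i).k) {a : P}
    (ha : WeakCover ω a ((W.st i).y (j + 1))) : a = (W.st i).x j := by
  by_contra hne
  obtain ⟨i', _, h2, _⟩ := W.lw _ _ _ ha ((W.st i).xy' j hj) hne
  exact Lab_y_not_max (W.st i) hj (h2 ▸ (W.st i').wmax _ le_rfl)

theorem Lab_su_y0 {b : P} (hb : StrictCover ω ((W.st i).y 0) b) : b = (W.st i).u := by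
  by_contra hne
  obtain ⟨i', _, h2, _⟩ := W.us _ _ _ hb (W.st i).yu hne
  exact Lab_y_not_min (W.st i) (Nat.zero_le _) (h2 ▸ (W.st i').xmin _ le_rfl)

theorem Lab_su_y {j : ℕ} (hj : j < (W.st i).k) {b : P}
    (hb : StrictCover ω ((W.st i).y (j + 1)) b) : b = (W.st i).w j := by
  by_contra hne
  obtain ⟨i', _, h2, _⟩ := W.us _ _ _ hb ((W.st i).yw' j hj) hne
  exact Lab_y_not_min (W.st i) hj (h2 ▸ (W.st i').xmin _ le_rfl)

theorem Lab_wu_y {j : ℕ} (hj : j ≤ (W.st i).k) {b : P}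
    (hb : WeakCover ω ((W.st i).y j) b) : b = (W.st i).w j := by
  by_contra hne
  obtain ⟨i', _, h2, _⟩ := W.uw _ _ _ hb ((W.st i).yw j hj) hne
  exact Lab_y_not_min (W.st i) hj (h2 ▸ (W.st i').vmin)

theorem Lab_sl_u {a : P} (ha : StrictCover ω a (W.st i).u) :
    a = (W.st i).y 0 ∨ (1 ≤ (W.st i).k ∧ a = (W.st i).x (W.st i).k) := by
  by_cases hne : a = (W.st i).y 0
  · exact Or.inl hne
  · obtain ⟨i', h1, h2, h3⟩ := W.ls _ _ _ ha (W.st i).yu hne
    have h4 : i = i' := W.inj_u h2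
    subst h4
    rcases h3 with ⟨h5, _⟩ | ⟨h5, _⟩
    · exact Or.inr ⟨h1, h5⟩
    · exact absurd ((W.st i).xmin _ le_rfl) (h5 ▸ Lab_y_not_min (W.st i) (Nat.zero_le _))

theorem Lab_wl_u {a : P} (ha : WeakCover ω a (W.st i).u) : a = (W.st i).g := by
  by_contra hne
  obtain ⟨i', _, h2, _⟩ := W.lw _ _ _ ha (W.st i).gu hne
  exact W.wu i' i h2.symm

theorem Lab_su_xk {b : P} (hb : StrictCover ω ((W.st i).x (W.st i).k) b) :
    b = (W.st i).y (W.st i).k ∨ (1 ≤ (W.st i).k ∧ b = (W.st i).u) := by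
  by_cases hne : b = (W.st i).y (W.st i).k
  · exact Or.inl hne
  · obtain ⟨i', h1, h2, h3⟩ := W.us _ _ _ hb ((W.st i).xy _ le_rfl) hne
    rcases h3 with ⟨_, h5⟩ | ⟨h5, h6⟩
    · exact absurd (h5 ▸ (W.st i').umax) (Lab_y_not_max (W.st i) le_rfl)
    · have h7 : (W.st i).w (W.st i).k = (W.st i').w (W.st i').k := by
        apply Lab_wu_y W i' le_rfl
        rw [← h5]
        exact (W.st i).yw _ le_rfl
      have h8 : i = i' := W.inj_w h7
      subst h8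
      exact Or.inr ⟨h1, h6⟩

theorem Lab_wu_v {b : P} (hb : WeakCover ω (W.st i).v b) :
    b = (W.st i).y 0 ∨ (1 ≤ (W.st i).k ∧ b = (W.st i).w (W.st i).k) := by
  by_cases hne : b = (W.st i).y 0
  · exact Or.inl hne
  · obtain ⟨i', h1, h2, h3⟩ := W.uw _ _ _ hb (W.st i).vy hne
    rcases h3 with ⟨_, h5⟩ | ⟨h5, h6⟩
    · exact absurd (h5 ▸ (W.st i').wmax _ le_rfl) (Lab_y_not_max (W.st i) (Nat.zero_le _))
    · have h7 : (W.st i).u = (W.st i').u := by
        apply Lab_su_y0 W i'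
        rw [← h5]
        exact (W.st i).yu
      have h8 : i = i' := W.inj_u h7
      subst h8
      exact Or.inr ⟨h1, h6⟩

theorem Lab_sl_wk {a : P} (ha : StrictCover ω a ((W.st i).w (W.st i).k)) : a = (W.st i).q := by
  by_contra hne
  obtain ⟨i', _, h2, _⟩ := W.ls _ _ _ ha (W.st i).qw hne
  exact W.wu i i' h2

theorem Lab_wl_wk {a : P} (ha : WeakCover ω a ((W.st i).w (W.st i).k)) :
    a = (W.st i).y (W.st i).k ∨ (1 ≤ (W.st i).k ∧ a = (W.st i).v) := by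
  by_cases hne : a = (W.st i).y (W.st i).k
  · exact Or.inl hne
  · obtain ⟨i', h1, h2, h3⟩ := W.lw _ _ _ ha ((W.st i).yw _ le_rfl) hne
    have h4 : i = i' := W.inj_w h2
    subst h4
    rcases h3 with ⟨h5, _⟩ | ⟨h5, _⟩
    · exact Or.inr ⟨h1, h5⟩
    · exact absurd (W.st i).vmin (h5 ▸ Lab_y_not_min (W.st i) le_rfl)

theorem Lab_wl_w {j : ℕ} (hj : j < (W.st i).k) {a : P} (ha : WeakCover ω a ((W.st i).w j)) :
    a = (W.st i).y j := by
  by_contra hne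
  obtain ⟨i', _, h2, _⟩ := W.lw _ _ _ ha ((W.st i).yw j hj.le) hne
  have h3 : (W.st i).y (j + 1) = (W.st i').q := by
    apply Lab_sl_wk W i'
    rw [← h2]
    exact (W.st i).yw' j hj
  exact Lab_y_not_min (W.st i) hj (h3 ▸ (W.st i').qmin)

theorem Lab_su_x {j : ℕ} (hj : j < (W.st i).k) {b : P} (hb : StrictCover ω ((W.st i).x j) b) :
    b = (W.st i).y j := by
  by_contra hne
  obtain ⟨i', _, h2, _⟩ := W.us _ _ _ hb ((W.st i).xy j hj.le) hne
  have h3 : WeakCover ω ((W.st i').x (W.st i').k) ((W.st i).y (j + 1)) := by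
    rw [← h2]
    exact (W.st i).xy' j hj
  exact Lab_y_not_max (W.st i) hj ((W.st i').emax _ h3)

theorem Lab_su_q {b : P} (hb : StrictCover ω (W.st i).q b) : b = (W.st i).w (W.st i).k := by
  by_contra hne
  obtain ⟨i', _, h2, h3⟩ := W.us _ _ _ hb (W.st i).qw hne
  rcases h3 with ⟨_, h5⟩ | ⟨h5, _⟩
  · exact W.wu i i' h5
  · exact absurd ((W.st i).wmax _ le_rfl) (h5 ▸ Lab_y_not_max (W.st i') le_rfl)

end LabAux

end Pool.PP2
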