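import Pool.Agent.Lib.PP2.G.Step0b
import Pool.Agent.Lib.PP2.G.ExN
import Pool.Agent.Lib.PP2.G.Nbr

/-!
# counting
-/

namespace Pool.PP2

open Finset Classical Pool.PPart

variable {P : Type*} {α : Type*} [PartialOrder P] [Fintype P] [LinearOrder α]
variable {ω : P → α}

theorem FBc_max_U {e : P} (he : IsMax e) : e ∈ U (neg ω) := by
  rw [mem_U]
  intro a ha
  exact he.not_lt ha.lt

theorem FBc_min_J {e : P} (he : IsMin e) : e ∈ J ω := by
  rw [mem_J]
  intro a ha
  exact he.not_lt ha.lt

theorem FBc_weak_notU {e f : P} (he : WeakCover ω e f) : e ∉ U (neg ω) := by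
  intro h
  rw [mem_U] at h
  exact h f (StrictCover.prec (neg_strict.2 he))

theorem FBc_strict_notJ {e f : P} (he : StrictCover ω e f) : f ∉ J ω := by
  intro h
  rw [mem_J] at h
  exact h e he.prec

theorem FBc_q (h : Setup ω) (W : World ω) (i : W.ι) : (W.st i).q ∉ U (neg ω) := by
  rcases Nat.eq_zero_or_pos (W.st i).k with hk | hk
  · exact (step0a h W i hk).1
  · exact (step0b h W i hk).1

/-- chunk G5a: number of elements forced into the last part for C-type pairs -/
theorem FB_card (h : Setup ω) (W : World ω) (i : W.ι) {A T : Finset P}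
    (hA : (W.st i).isC A T) :
    ((A \ T).filter (FB ω A T)).card + 2 =
      (A.filter (fun x => x ∉ J ω)).card + (A.filter (fun x => x ∈ J ω ∧ x ∈ U (neg ω))).card := by
  obtain ⟨hlow, hlock, hT⟩ := hA
  set t := W.st i with ht
  have hyJ : t.y t.k ∉ J ω := FBc_strict_notJ (t.xy t.k le_rfl)
  have hwJ : t.w t.k ∉ J ω := FBc_strict_notJ t.qw
  have hy0J : t.y 0 ∉ J ω := FBc_strict_notJ (t.xy 0 (Nat.zero_le _))
  have hxJ : t.x t.k ∈ J ω := FBc_min_J (t.xmin t.k le_rfl)
  have hvJ : t.v ∈ J ω := FBc_min_J t.vmin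
  have hyU : t.y t.k ∉ U (neg ω) := FBc_weak_notU (t.yw t.k le_rfl)
  have hxU : t.x t.k ∉ U (neg ω) := fun hh => hyU (U_up (t.xy t.k le_rfl).1.le hh)
  have hvU : t.v ∉ U (neg ω) := FBc_weak_notU t.vy
  have hyw : t.y t.k ≠ t.w t.k := (t.yw t.k le_rfl).1.lt.ne
  have hyT : t.y t.k ∈ T := by
    rcases hT with hT | ⟨_, hT⟩ <;> rw [hT] <;> simp [Strip.TC, Strip.TW]
  have hwT : t.w t.k ∈ T := by
    rcases hT with hT | ⟨_, hT⟩ <;> rw [hT] <;> simp [Strip.TC, Strip.TW]
  -- the elements of `T`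
  have hTmem : ∀ e ∈ T, e = t.x t.k ∨ e = t.v ∨ e = t.y t.k ∨ e = t.w t.k := by
    intro e he
    rcases hT with hT | ⟨_, hT⟩ <;> rw [hT] at he <;>
      simp only [Strip.TC, Strip.TW, Finset.mem_insert, Finset.mem_singleton] at he <;> tauto
  have hTA : T ⊆ A := hlock.1
  -- main equivalence
  have key : ∀ e ∈ A \ T, (FB ω A T e ↔ (e ∉ J ω ∨ (e ∈ J ω ∧ e ∈ U (neg ω)))) := by
    intro e he
    have heA : e ∈ A := (Finset.mem_sdiff.1 he).1
    have heT : e ∉ T := (Finset.mem_sdiff.1 he).2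
    constructor
    · intro hFB
      by_cases heJ : e ∈ J ω
      · right
        refine ⟨heJ, ?_⟩
        rcases hFB with ⟨a, haT, hae⟩ | ⟨f, _, hfe⟩
        · rcases Lab_cov h.inj hae with hs | hw
          · exact absurd heJ (FBc_strict_notJ hs)
          · rcases hTmem a haT with rfl | rfl | rfl | rfl
            · exact FBc_max_U (t.emax e hw)
            · rcases Lab_wu_v W i hw with h1 | ⟨_, h1⟩
              · exact absurd (h1 ▸ heJ) hy0J
              · exact absurd (h1 ▸ heJ) hwJ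
            · have h1 := Lab_wu_y W i le_rfl hw
              exact absurd (h1 ▸ heJ) hwJ
            · exact absurd hw.1.lt ((t.wmax t.k le_rfl).not_lt)
        · exact absurd heJ (FBc_strict_notJ hfe)
      · exact Or.inl heJ
    · rintro (heJ | ⟨heJ, heU⟩)
      · obtain ⟨a, ha⟩ := exists_N h heJ
        have haA : a ∈ A := hlow e heA a ha.1.le
        by_cases haT : a ∈ T
        · exact Or.inl ⟨a, haT, ha.1⟩
        · exact Or.inr ⟨a, Finset.mem_sdiff.2 ⟨haA, haT⟩, ha⟩
      · rcases hlock.2 e he with ⟨hFI, _⟩ | ⟨hFB, _⟩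
        · exfalso
          rcases hFI with ⟨a, haT, hea⟩ | ⟨f, _, hef⟩
          · rcases hTmem a haT with rfl | rfl | rfl | rfl
            · exact (t.xmin t.k le_rfl).not_lt hea.lt
            · exact t.vmin.not_lt hea.lt
            · exact hyU (U_up hea.le heU)
            · rcases Lab_cov h.inj hea with hs | hw
              · have h1 := Lab_sl_wk W i hs
                exact FBc_q h W i (h1 ▸ heU)
              · exact FBc_weak_notU hw heU
          · exact FBc_weak_notU hef heU
        · exact hFB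
  have h1 : (A \ T).filter (FB ω A T) =
      ((A \ T).filter (fun x => x ∉ J ω)) ∪ ((A \ T).filter (fun x => x ∈ J ω ∧ x ∈ U (neg ω))) := by
    rw [← Finset.filter_or]
    exact Finset.filter_congr key
  have h2 : (A \ T).filter (fun x => x ∈ J ω ∧ x ∈ U (neg ω)) =
      A.filter (fun x => x ∈ J ω ∧ x ∈ U (neg ω)) := by
    ext x
    simp only [Finset.mem_filter, Finset.mem_sdiff]
    constructor
    · rintro ⟨⟨h3, _⟩, h5⟩
      exact ⟨h3, h5⟩
    · rintro ⟨h3, h5⟩
      refine ⟨⟨h3, fun hxT => ?_⟩, h5⟩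
      rcases hTmem x hxT with rfl | rfl | rfl | rfl
      · exact hxU h5.2
      · exact hvU h5.2
      · exact hyJ h5.1
      · exact hwJ h5.1
  have h3 : A.filter (fun x => x ∉ J ω) =
      ((A \ T).filter (fun x => x ∉ J ω)) ∪ {t.y t.k, t.w t.k} := by
    ext x
    simp only [Finset.mem_filter, Finset.mem_sdiff, Finset.mem_union, Finset.mem_insert,
      Finset.mem_singleton]
    constructor
    · rintro ⟨h4, h5⟩
      by_cases hxT : x ∈ T
      · right
        rcases hTmem x hxT with rfl | rfl | rfl | rfl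
        · exact absurd hxJ h5
        · exact absurd hvJ h5
        · exact Or.inl rfl
        · exact Or.inr rfl
      · exact Or.inl ⟨⟨h4, hxT⟩, h5⟩
    · rintro (⟨⟨h4, _⟩, h5⟩ | rfl | rfl)
      · exact ⟨h4, h5⟩
      · exact ⟨hTA hyT, hyJ⟩
      · exact ⟨hTA hwT, hwJ⟩
  have h4 : Disjoint ((A \ T).filter (fun x => x ∉ J ω)) {t.y t.k, t.w t.k} := by
    rw [Finset.disjoint_left]
    intro x hx hx2
    rw [Finset.mem_filter, Finset.mem_sdiff] at hx
    rw [Finset.mem_insert, Finset.mem_singleton] at hx2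
    rcases hx2 with rfl | rfl
    · exact hx.1.2 hyT
    · exact hx.1.2 hwT
  have h5 : Disjoint ((A \ T).filter (fun x => x ∉ J ω))
      ((A \ T).filter (fun x => x ∈ J ω ∧ x ∈ U (neg ω))) := by
    rw [Finset.disjoint_left]
    intro x hx hx2
    rw [Finset.mem_filter] at hx hx2
    exact hx.2 hx2.2.1
  rw [h1, Finset.card_union_of_disjoint h5, h2, h3, Finset.card_union_of_disjoint h4,
    Finset.card_pair hyw]
  omega

end Pool.PP2
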