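import Pool.Agent.Lib.PP2.G.Phi
import Pool.Agent.Lib.PP2.E9

/-!
# the main identity
-/

namespace Pool.PP2

open Finset Classical Pool.PPart

variable {P : Type*} {α : Type*} [PartialOrder P] [Fintype P] [LinearOrder α]
variable {ω : P → α}

private theorem mi_mem_FA {A : Finset P} {x : {x : P // x ∉ U (neg ω)}} :
    x ∈ FA (ω := ω) A ↔ x.1 ∉ A := by simp [FA]

private theorem mi_prod_sub (ω : P → α) (u : List ℕ) : ∀ A B : LL P,
    (u.map (wmat ω)).prod A B ≠ 0 → A.1 ⊆ B.1 := by
  induction u with
  | nil =>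
    intro A B hAB
    rw [List.map_nil, List.prod_nil, Matrix.one_apply] at hAB
    by_cases h : A = B
    · rw [h]
    · rw [if_neg h] at hAB
      exact absurd rfl hAB
  | cons n u ih =>
    intro A B hAB
    rw [List.map_cons, List.prod_cons, Matrix.mul_apply] at hAB
    obtain ⟨C, _, hC⟩ := Finset.exists_ne_zero_of_sum_ne_zero hAB
    have h1 := left_ne_zero_of_mul hC
    have h2 := ih C B (right_ne_zero_of_mul hC)
    unfold wmat at h1
    by_cases h3 : A.1 ⊆ C.1 ∧ C.1.card = A.1.card + n ∧ WO ω A.1 C.1
    · exact h3.1.trans h2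
    · rw [if_neg h3] at h1
      exact absurd rfl h1

/-- `A ∪ L` is lower -/
private theorem mi_low (h : Setup ω) {A : Finset P} (hA : IsLow A)
    {L : Finset {x : P // x ∉ U (neg ω)}} (hL : (sF h).toEG.LowIn (FA (ω := ω) A) L) :
    IsLow (A ∪ L.image Subtype.val) := by
  have key : ∀ y : P, y ∈ A ∪ L.image Subtype.val → ∀ x, x < y → x ∈ A ∪ L.image Subtype.val := by
    intro y
    induction y using WellFoundedLT.induction with
    | ind y ih =>
      intro hy x hxy
      rw [Finset.mem_union] at hy
      rcases hy with hy | hy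
      · exact Finset.mem_union_left _ (hA y hy x hxy.le)
      · obtain ⟨z, h1, h2⟩ := exists_le_covBy_of_lt hxy
        rw [Finset.mem_image] at hy
        obtain ⟨y', hy', rfl⟩ := hy
        have hz : z ∈ A ∪ L.image Subtype.val := by
          by_cases hzA : z ∈ A
          · exact Finset.mem_union_left _ hzA
          · have hzU : z ∉ U (neg ω) := fun h5 => y'.2 (U_up h2.le h5)
            refine Finset.mem_union_right _ (Finset.mem_image.2 ⟨⟨z, hzU⟩, ?_, rfl⟩)
            refine hL.2 ⟨z, hzU⟩ (mi_mem_FA.2 hzA) y' hy' ?_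
            rcases strict_or_weak h.inj h2 with h3 | h3
            · exact Or.inl h3
            · exact Or.inr h3
        rcases h1.eq_or_lt with h3 | h3
        · rw [h3]; exact hz
        · exact ih z h2.lt hz x h3
  intro y hy x hxy
  rcases hxy.eq_or_lt with h1 | h1
  · rw [h1]; exact hy
  · exact key y hy x h1

private theorem mi_chain (h : Setup ω) (u : List ℕ) : ∀ A B : LL P,
    (∀ x, x ∈ B.1 ↔ x ∈ A.1 ∨ x ∉ U (neg ω)) →
    (((u.map (wmat ω)).prod A B : ℤ) : ℚ) = wd (sF h).toEG u (FA (ω := ω) A.1) := by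
  induction u with
  | nil =>
    intro A B hAB
    rw [List.map_nil, List.prod_nil, Matrix.one_apply, wd]
    by_cases h1 : A = B
    · rw [if_pos h1, if_pos]
      · simp
      · rw [Finset.eq_empty_iff_forall_notMem]
        intro x hx
        rw [mi_mem_FA] at hx
        rw [← h1] at hAB
        exact hx ((hAB x.1).2 (Or.inr x.2))
    · rw [if_neg h1, if_neg]
      · simp
      · intro h2
        apply h1
        apply Subtype.ext
        ext x
        rw [hAB]
        constructor
        · exact Or.inl
        · rintro (h3 | h3)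
          · exact h3
          · by_contra h4
            have : (⟨x, h3⟩ : {x : P // x ∉ U (neg ω)}) ∈ FA (ω := ω) A.1 := mi_mem_FA.2 h4
            rw [h2] at this
            simp at this
  | cons n u ih =>
    intro A B hAB
    rw [List.map_cons, List.prod_cons, Matrix.mul_apply, wd]
    push_cast
    have hr : ∑ C : LL P, (wmat ω n A C : ℚ) * ((u.map (wmat ω)).prod C B : ℤ) =
        ∑ C ∈ univ.filter (fun C : LL P => A.1 ⊆ C.1 ∧ C.1 ⊆ B.1),
          (wmat ω n A C : ℚ) * ((u.map (wmat ω)).prod C B : ℤ) := by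
      symm
      apply Finset.sum_subset (Finset.subset_univ _)
      intro C _ hC
      by_contra hne
      apply hC
      rw [Finset.mem_filter]
      refine ⟨Finset.mem_univ _, ?_, ?_⟩
      · have h1 := left_ne_zero_of_mul hne
        unfold wmat at h1
        by_cases h3 : A.1 ⊆ C.1 ∧ C.1.card = A.1.card + n ∧ WO ω A.1 C.1
        · exact h3.1
        · rw [if_neg h3] at h1
          exact absurd (by simp) h1
      · have h1 := right_ne_zero_of_mul hne
        exact mi_prod_sub ω u C B (by exact_mod_cast h1)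
    rw [hr]
    refine Finset.sum_bij (fun C _ => (FA (ω := ω) A.1).filter (fun x => x.1 ∈ C.1)) ?_ ?_ ?_ ?_
    · intro C hC
      rw [Finset.mem_filter] at hC
      unfold EG.lows
      rw [Finset.mem_filter, Finset.mem_powerset]
      refine ⟨Finset.filter_subset _ _, Finset.filter_subset _ _, ?_⟩
      intro x hx y hy hxy
      rw [Finset.mem_filter] at hy ⊢
      refine ⟨hx, C.2 y.1 hy.2 x.1 ?_⟩
      rcases hxy with h1 | h1
      · exact h1.1.le
      · exact h1.1.le
    · intro C hC D hD hCD
      rw [Finset.mem_filter] at hC hD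
      have hCD' : ∀ x : {x : P // x ∉ U (neg ω)}, x.1 ∉ A.1 → (x.1 ∈ C.1 ↔ x.1 ∈ D.1) := by
        intro x hx
        have h1 := Finset.ext_iff.1 hCD x
        rw [Finset.mem_filter, Finset.mem_filter, mi_mem_FA] at h1
        exact ⟨fun h2 => (h1.1 ⟨hx, h2⟩).2, fun h2 => (h1.2 ⟨hx, h2⟩).2⟩
      apply Subtype.ext
      ext x
      by_cases hxA : x ∈ A.1
      · exact ⟨fun _ => hD.2.1 hxA, fun _ => hC.2.1 hxA⟩
      · constructor
        · intro hx
          have h1 := (hAB x).1 (hC.2.2 hx)
          exact (hCD' ⟨x, h1.resolve_left hxA⟩ hxA).1 hx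
        · intro hx
          have h1 := (hAB x).1 (hD.2.2 hx)
          exact (hCD' ⟨x, h1.resolve_left hxA⟩ hxA).2 hx
    · intro L hL
      unfold EG.lows at hL
      rw [Finset.mem_filter, Finset.mem_powerset] at hL
      refine ⟨⟨A.1 ∪ L.image Subtype.val, mi_low h A.2 hL.2⟩, ?_, ?_⟩
      · rw [Finset.mem_filter]
        refine ⟨Finset.mem_univ _, Finset.subset_union_left, ?_⟩
        intro x hx
        rw [hAB]
        rw [Finset.mem_union] at hx
        rcases hx with hx | hx
        · exact Or.inl hx
        · rw [Finset.mem_image] at hx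
          obtain ⟨y, _, rfl⟩ := hx
          exact Or.inr y.2
      · ext x
        rw [Finset.mem_filter, mi_mem_FA, Finset.mem_union, Finset.mem_image]
        constructor
        · rintro ⟨h1, h2 | ⟨y, hy, hyx⟩⟩
          · exact absurd h2 h1
          · rw [← Subtype.ext hyx]; exact hy
        · intro hx
          exact ⟨mi_mem_FA.1 (hL.1 hx), Or.inr ⟨x, hx, rfl⟩⟩
    · intro C hC
      rw [Finset.mem_filter] at hC
      obtain ⟨_, hAC, hCB⟩ := hC
      have hCB' : ∀ x, x ∈ B.1 ↔ x ∈ C.1 ∨ x ∉ U (neg ω) := by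
        intro x
        constructor
        · intro hx
          rcases (hAB x).1 hx with h1 | h1
          · exact Or.inl (hAC h1)
          · exact Or.inr h1
        · rintro (h1 | h1)
          · exact hCB h1
          · exact (hAB x).2 (Or.inr h1)
      rw [ih C B hCB']
      set L := (FA (ω := ω) A.1).filter (fun x => x.1 ∈ C.1) with hL
      have hmL : ∀ x, x ∈ L ↔ x.1 ∉ A.1 ∧ x.1 ∈ C.1 := by
        intro x
        rw [hL, Finset.mem_filter, mi_mem_FA]
      have hdiff : ∀ x, x ∈ FA (ω := ω) C.1 ↔ x ∈ FA (ω := ω) A.1 ∧ x ∉ L := by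
        intro x
        rw [mi_mem_FA, mi_mem_FA, hmL]
        constructor
        · intro h1
          exact ⟨fun h2 => h1 (hAC h2), fun h2 => h1 h2.2⟩
        · rintro ⟨h1, h2⟩ h3
          exact h2 ⟨h1, h3⟩
      congr 1
      swap
      · congr 1
        ext x
        simp only [hdiff x, Finset.mem_sdiff]
      have hcard : C.1.card = A.1.card + L.card := by
        have h1 : L.card = (C.1 \ A.1).card := by
          refine Finset.card_bij (fun x _ => x.1) ?_ ?_ ?_
          · intro x hx
            rw [hmL] at hx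
            exact Finset.mem_sdiff.2 ⟨hx.2, hx.1⟩
          · intro x _ y _ hxy
            exact Subtype.ext hxy
          · intro x hx
            rw [Finset.mem_sdiff] at hx
            have h2 := ((hAB x).1 (hCB hx.1)).resolve_left hx.2
            exact ⟨⟨x, h2⟩, (hmL _).2 ⟨hx.2, hx.1⟩, rfl⟩
        rw [h1, Finset.card_sdiff_of_subset hAC]
        have := Finset.card_le_card hAC
        omega
      have hwo : WO ω A.1 C.1 ↔ (sF h).toEG.WO L := by
        constructor
        · intro h1 x hx y hy hxy
          rw [hmL] at hx hy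
          exact h1 x.1 y.1 hxy.1.lt hx.1 hy.2 hxy.2
        · intro h1 x y hxy hx hy hlt
          obtain ⟨p, q, h2, h3, h4⟩ := Prec.exists_cover (ω := ω) (a := x) (b := y)
            ⟨x, y, le_rfl, hxy, le_rfl, hlt⟩
          have hqC : q ∈ C.1 := C.2 y hy q h4
          have hpC : p ∈ C.1 := C.2 q hqC p h3.1.le
          have hpA : p ∉ A.1 := fun h5 => hx (A.2 p h5 x h2)
          have hqA : q ∉ A.1 := fun h5 => hpA (A.2 q h5 p h3.1.le)
          have hpU := ((hAB p).1 (hCB hpC)).resolve_left hpA
          have hqU := ((hAB q).1 (hCB hqC)).resolve_left hqA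
          exact h1 ⟨p, hpU⟩ ((hmL _).2 ⟨hpA, hpC⟩) ⟨q, hqU⟩ ((hmL _).2 ⟨hqA, hqC⟩) h3
      unfold wmat
      by_cases h1 : (sF h).toEG.WO L ∧ L.card = n
      · rw [if_pos h1, if_pos ⟨hAC, by omega, hwo.2 h1.1⟩]
        simp
      · rw [if_neg h1, if_neg]
        · simp
        · rintro ⟨_, h2, h3⟩
          exact h1 ⟨hwo.1 h3, by omega⟩

private theorem mi_prod_mem (ω : P → α) (u : List ℕ) : (u.map (wmat ω)).prod ∈ Walg ω := by
  induction u with
  | nil => simp
  | cons c u ih =>
    rw [List.map_cons, List.prod_cons]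
    exact Subalgebra.mul_mem _ (wmat_mem ω c) ih

/-- chunk G1: the main identity. If `c` is a lower bound for `|A ∩ U'|` over the sets of size `n`
with nonzero coefficient, the sets attaining it satisfy a linear relation.

Proof: `phi_XX` with `Y = (word) * smat (|U'| - c)`; the last strict letter can only remove a
subset of `U' ∖ A`, hence all of it; then universality of `K`. -/
theorem main_identity (h : Setup ω) (n c : ℕ) (hn : 3 ≤ n)
    (hc : ∀ A : Finset P, IsLow A → A.card = n → XX ω A ≠ 0 → c ≤ (A ∩ U (neg ω)).card) :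
    ∑ A ∈ (univ : Finset (Finset P)).filter
        (fun A => IsLow A ∧ A.card = n ∧ (A ∩ U (neg ω)).card = c),
      (XX ω A : ℚ) • K (sF h).toEG (FA (ω := ω) A) = 0 := by
  have hUup : ∀ x y : P, x ≤ y → x ∈ U (neg ω) → y ∈ U (neg ω) := fun x y h1 h2 => U_up h1 h2
  -- structure of the last letter
  have hs : ∀ (A B : LL P), A.1 ⊆ B.1 → c ≤ (A.1 ∩ U (neg ω)).card →
      smat ω ((U (neg ω)).card - c) B (topL P) =
        if (A.1 ∩ U (neg ω)).card = c ∧ (∀ x, x ∈ B.1 ↔ x ∈ A.1 ∨ x ∉ U (neg ω)) then 1 else 0 := by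
    intro A B hAB hcA
    have hcU : c ≤ (U (neg ω)).card := hcA.trans (Finset.card_le_card Finset.inter_subset_right)
    unfold smat wmat
    have htop : (topL P).1 = univ := rfl
    have hUA : (U (neg ω) \ A.1).card + (A.1 ∩ U (neg ω)).card = (U (neg ω)).card := by
      rw [Finset.inter_comm]
      exact Finset.card_sdiff_add_card_inter _ _
    by_cases h1 : (A.1 ∩ U (neg ω)).card = c ∧ (∀ x, x ∈ B.1 ↔ x ∈ A.1 ∨ x ∉ U (neg ω))
    · rw [if_pos h1, if_pos]
      refine ⟨Finset.subset_univ _, ?_, ?_⟩
      · rw [htop]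
        have h2 : U (neg ω) \ A.1 = univ \ B.1 := by
          ext x
          rw [Finset.mem_sdiff, Finset.mem_sdiff, h1.2 x]
          simp only [Finset.mem_univ, true_and, not_or, not_not]
          tauto
        have h3 : (univ \ B.1).card + B.1.card = (univ : Finset P).card :=
          Finset.card_sdiff_add_card_eq_card (Finset.subset_univ _)
        rw [← h2] at h3
        omega
      · intro x y hxy hx _ hlt
        rw [h1.2 x] at hx
        push Not at hx
        exact mem_U.1 hx.2 y ⟨x, y, le_rfl, hxy, le_rfl, hlt⟩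
    · rw [if_neg h1, if_neg]
      rintro ⟨_, h2, h3⟩
      rw [htop] at h2
      apply h1
      have h4 : univ \ B.1 ⊆ U (neg ω) \ A.1 := by
        intro x hx
        rw [Finset.mem_sdiff] at hx ⊢
        refine ⟨?_, fun h5 => hx.2 (hAB h5)⟩
        rw [mem_U]
        rintro a ⟨p, q, h5, h6, h7, h8⟩
        exact h3 p q h6 (fun h9 => hx.2 (B.2 p h9 x h5)) (Finset.mem_univ _) h8
      have h5 := Finset.card_le_card h4
      have h6 : (univ \ B.1).card + B.1.card = (univ : Finset P).card :=
        Finset.card_sdiff_add_card_eq_card (Finset.subset_univ _)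
      have h7 : (A.1 ∩ U (neg ω)).card = c := by omega
      refine ⟨h7, ?_⟩
      have h8 : univ \ B.1 = U (neg ω) \ A.1 := Finset.eq_of_subset_of_card_le h4 (by omega)
      intro x
      have h9 := Finset.ext_iff.1 h8 x
      rw [Finset.mem_sdiff, Finset.mem_sdiff] at h9
      simp only [Finset.mem_univ, true_and] at h9
      tauto
  have key := K_of_words ((univ : Finset (Finset P)).filter
        (fun A => IsLow A ∧ A.card = n ∧ (A ∩ U (neg ω)).card = c)) (fun A => (XX ω A : ℚ))
        {x : P // x ∉ U (neg ω)} (fun _ => (sF h).toEG) (fun A => FA (ω := ω) A) ?_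
  · simp only [MvPolynomial.smul_eq_C_mul]
    exact key
  · intro u
    have hY : (u.map (wmat ω)).prod * smat ω ((U (neg ω)).card - c) ∈ Walg ω :=
      Subalgebra.mul_mem _ (mi_prod_mem ω u) (smat_mem h.inj _)
    have h1 := phi_XX h.inj h.sym n hn hY
    have h2 : ∀ A : LL P, (((if A.1.card = n then XX ω A.1 else 0) *
        ((u.map (wmat ω)).prod * smat ω ((U (neg ω)).card - c)) A (topL P) : ℤ) : ℚ) =
        if A.1.card = n ∧ (A.1 ∩ U (neg ω)).card = c then
          (XX ω A.1 : ℚ) * wd (sF h).toEG u (FA (ω := ω) A.1) else 0 := by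
      intro A
      by_cases hAn : A.1.card = n
      swap
      · rw [if_neg hAn, if_neg (fun h3 => hAn h3.1)]
        simp
      rw [if_pos hAn]
      by_cases hX : XX ω A.1 = 0
      · rw [hX]
        simp
      have hcA := hc A.1 A.2 hAn hX
      rw [Matrix.mul_apply]
      have h3 : ∀ B : LL P, (u.map (wmat ω)).prod A B *
          smat ω ((U (neg ω)).card - c) B (topL P) = if (A.1 ∩ U (neg ω)).card = c ∧
            (∀ x, x ∈ B.1 ↔ x ∈ A.1 ∨ x ∉ U (neg ω)) then (u.map (wmat ω)).prod A B else 0 := by
        intro B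
        by_cases h4 : (u.map (wmat ω)).prod A B = 0
        · rw [h4]
          simp
        · rw [hs A B (mi_prod_sub ω u A B h4) hcA]
          split_ifs <;> simp
      rw [Finset.sum_congr rfl (fun B _ => h3 B)]
      by_cases hcA' : (A.1 ∩ U (neg ω)).card = c
      · have hlow : IsLow (A.1 ∪ (univ \ U (neg ω))) := by
          intro x hx y hy
          rw [Finset.mem_union, Finset.mem_sdiff] at hx ⊢
          rcases hx with hx | hx
          · exact Or.inl (A.2 x hx y hy)
          · exact Or.inr ⟨Finset.mem_univ _, fun h5 => hx.2 (hUup y x hy h5)⟩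
        have hB0 : ∀ x, x ∈ (⟨A.1 ∪ (univ \ U (neg ω)), hlow⟩ : LL P).1 ↔
            x ∈ A.1 ∨ x ∉ U (neg ω) := by
          intro x
          simp
        rw [Finset.sum_eq_single (⟨A.1 ∪ (univ \ U (neg ω)), hlow⟩ : LL P)]
        · rw [if_pos ⟨hcA', hB0⟩, if_pos ⟨hAn, hcA'⟩, ← mi_chain h u A _ hB0]
          push_cast
          rfl
        · intro B _ hB
          rw [if_neg]
          rintro ⟨_, h5⟩
          apply hB
          apply Subtype.ext
          ext x
          rw [h5 x, hB0 x]
        · intro h5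
          exact absurd (Finset.mem_univ _) h5
      · rw [if_neg (fun h5 => hcA' h5.2), Finset.sum_eq_zero]
        · simp
        · intro B _
          rw [if_neg (fun h5 => hcA' h5.1)]
    have h3 : (((∑ A : LL P, (if A.1.card = n then XX ω A.1 else 0) *
        ((u.map (wmat ω)).prod * smat ω ((U (neg ω)).card - c)) A (topL P)) : ℤ) : ℚ) = 0 := by
      rw [h1]
      simp
    rw [Int.cast_sum, Finset.sum_congr rfl (fun A _ => h2 A)] at h3
    rw [← h3]
    rw [← Finset.sum_subtype (p := fun A : Finset P => IsLow A)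
      ((univ : Finset (Finset P)).filter IsLow) (by simp)
      (fun A => if A.card = n ∧ (A ∩ U (neg ω)).card = c then
          (XX ω A : ℚ) * wd (sF h).toEG u (FA (ω := ω) A) else 0)]
    rw [← Finset.sum_filter]
    apply Finset.sum_congr _ (fun _ _ => rfl)
    ext A
    simp only [Finset.mem_filter, Finset.mem_univ, true_and]

end Pool.PP2
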