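import Pool.Agent.Lib.PP2.G.SignMax
import Pool.Agent.Lib.PP2.G.Dom
import Pool.Agent.Lib.PP2.G.MainId
import Pool.Agent.Lib.PP2.G.Eng

/-!
# no strips
-/

namespace Pool.PP2

open Finset Classical Pool.PPart

variable {P : Type*} {α : Type*} [PartialOrder P] [Fintype P] [LinearOrder α]
variable {ω : P → α}

private theorem gfin_wt_ne {A T : Finset P} (h : Locked ω A T) : wt ω A T ≠ 0 := by
  unfold wt
  rw [if_pos h]
  exact pow_ne_zero _ (by norm_num)

private theorem gfin_locked {A T : Finset P} (h : wt ω A T ≠ 0) : Locked ω A T := by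
  by_contra hc
  apply h
  unfold wt
  rw [if_neg hc]

private theorem gfin_sgn_sq {M : Type*} (Q : EG M) (F : Finset M) : Q.sgn F * Q.sgn F = 1 := by
  unfold EG.sgn
  rw [← mul_pow]
  norm_num

private theorem gfin_dlt (h : Setup ω) (W : World ω) (i : W.ι) {A T : Finset P}
    (hA : (W.st i).isC A T) : dlt ω T = 1 ∧ T.card = 3 := by
  rcases hA.2.2 with rfl | ⟨hk, rfl⟩
  · exact ⟨dlt_TC h W i, card_TC h W i⟩
  · exact ⟨dlt_TW h W i hk, card_TW h W i hk⟩

private theorem gfin_XX (h : Setup ω) (W : World ω) {A : Finset P} (hA : IsLow A)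
    (hmax : ∀ j A' T', (W.st j).isC A' T' → A'.card ≤ A.card) :
    ∃ m : ℕ, (XX ω A : ℚ) * (sF h).toEG.sgn (FA (ω := ω) A) =
        m * ((-1) ^ (A ∩ U (neg ω)).card * (sF h).toEG.sgn (FA (ω := ω) ∅)) ∧
      ∀ j T, (W.st j).isC A T → 0 < m := by
  refine ⟨((A.powersetCard 3).filter (fun T => dlt ω T * wt ω A T ≠ 0)).card, ?_, ?_⟩
  · have e1 : (XX ω A : ℚ) = ∑ T ∈ (A.powersetCard 3).filter (fun T => dlt ω T * wt ω A T ≠ 0),
        ((dlt ω T * wt ω A T : ℤ) : ℚ) := by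
      unfold XX
      rw [← Finset.sum_filter_ne_zero, Int.cast_sum]
    rw [e1, Finset.sum_mul, Finset.card_eq_sum_ones, Nat.cast_sum, Finset.sum_mul]
    refine sum_congr rfl fun T hT => ?_
    rw [mem_filter, mem_powersetCard] at hT
    obtain ⟨⟨hTA, hT3⟩, hne⟩ := hT
    have hl : Locked ω A T := gfin_locked (right_ne_zero_of_mul hne)
    have hd : dlt ω T ≠ 0 := left_ne_zero_of_mul hne
    obtain ⟨i, hi⟩ := visible h W hA hT3 hd hl
    have hC : (W.st i).isC A T := by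
      have hnoD : ¬ (W.st i).isD A T := by
        intro hD
        obtain ⟨A', hA', hlt⟩ := domination h W i hD
        have := hmax i A' _ hA'
        omega
      rcases hi with hi | hi | ⟨hk, hi | hi⟩
      · exact ⟨hA, hl, Or.inl hi⟩
      · exact absurd ⟨hA, hl, Or.inl hi⟩ hnoD
      · exact ⟨hA, hl, Or.inr ⟨hk, hi⟩⟩
      · exact absurd ⟨hA, hl, Or.inr ⟨hk, hi⟩⟩ hnoD
    rw [(gfin_dlt h W i hC).1, ← sign_max h W i hC hmax]
    push_cast
    ring
  · intro j T hC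
    obtain ⟨hd, h3⟩ := gfin_dlt h W j hC
    refine card_pos.2 ⟨T, mem_filter.2 ⟨mem_powersetCard.2 ⟨hC.2.1.1, h3⟩, ?_⟩⟩
    rw [hd, one_mul]
    exact gfin_wt_ne hC.2.1

private theorem gfin_cvx (h : Setup ω) {A : Finset P} (hA : IsLow A) :
    (sF h).toEG.Cvx (FA (ω := ω) A) := by
  refine ⟨univ.filter (fun x => x.1 ∈ A), univ, ?_, ?_, ?_, ?_⟩
  · rintro x y hxy hy
    rw [mem_filter] at hy ⊢
    refine ⟨mem_univ _, ?_⟩
    rcases hxy with hxy | hxy
    · exact hA _ hy.2 _ hxy.1.le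
    · exact hA _ hy.2 _ hxy.1.le
  · intro x y _ _
    exact mem_univ _
  · exact subset_univ _
  · ext x
    simp [FA]

/-- chunk G6: there are no strips -/
theorem no_strips (h : Setup ω) (W : World ω) : IsEmpty W.ι := by
  rw [isEmpty_iff]
  intro i0
  -- a C-type set of maximal size
  obtain ⟨A0, hA0, hA0max⟩ := exists_max_image
    ((univ : Finset (Finset P)).filter (fun A => ∃ j T, (W.st j).isC A T)) Finset.card
    ⟨_, mem_filter.2 ⟨mem_univ _, i0, _, (BC_isC h W i0).1⟩⟩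
  obtain ⟨-, j0, T0, hC0⟩ := mem_filter.1 hA0
  set n := A0.card with hn
  have hmax : ∀ j A' T', (W.st j).isC A' T' → A'.card ≤ n := fun j A' T' h' =>
    hA0max A' (mem_filter.2 ⟨mem_univ _, j, T', h'⟩)
  have hn3 : 3 ≤ n := by
    rw [← (gfin_dlt h W j0 hC0).2]
    exact card_le_card hC0.2.1.1
  have hA0X : XX ω A0 ≠ 0 := by
    intro hz
    obtain ⟨m, hm, hm'⟩ := gfin_XX h W hC0.1 (by rw [← hn]; exact hmax)
    have hmpos := hm' j0 T0 hC0
    rw [hz, Int.cast_zero, zero_mul] at hm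
    have h1 : (m : ℚ) ≠ 0 := by exact_mod_cast hmpos.ne'
    have h2 : (-1 : ℚ) ^ (A0 ∩ U (neg ω)).card ≠ 0 := pow_ne_zero _ (by norm_num)
    have h3 : (sF h).toEG.sgn (FA (ω := ω) ∅) ≠ 0 := by
      intro h4
      have := gfin_sgn_sq (sF h).toEG (FA (ω := ω) ∅)
      rw [h4, zero_mul] at this
      exact zero_ne_one this
    exact mul_ne_zero h1 (mul_ne_zero h2 h3) hm.symm
  -- minimal intersection with U'
  obtain ⟨A1, hA1, hA1min⟩ := exists_min_image
    ((univ : Finset (Finset P)).filter (fun A => IsLow A ∧ A.card = n ∧ XX ω A ≠ 0))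
    (fun A => (A ∩ U (neg ω)).card) ⟨A0, mem_filter.2 ⟨mem_univ _, hC0.1, rfl, hA0X⟩⟩
  set c := (A1 ∩ U (neg ω)).card with hc
  have hid := main_identity h n c hn3 (fun A hA hcard hX =>
    hA1min A (mem_filter.2 ⟨mem_univ _, hA, hcard, hX⟩))
  obtain ⟨-, hA1l, hA1n, hA1X⟩ := mem_filter.1 hA1
  set ε : ℚ := (-1) ^ c * (sF h).toEG.sgn (FA (ω := ω) ∅) with hε
  have hε2 : ε * ε = 1 := by
    have h1 : ((-1 : ℚ) ^ c) * (-1) ^ c = 1 := by
      rw [← mul_pow]
      norm_num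
    calc ε * ε = ((-1 : ℚ) ^ c * (-1) ^ c) * ((sF h).toEG.sgn (FA (ω := ω) ∅) *
          (sF h).toEG.sgn (FA (ω := ω) ∅)) := by rw [hε]; ring
      _ = 1 := by rw [h1, gfin_sgn_sq, one_mul]
  refine sign_coherence (sF h)
    ((((univ : Finset (Finset P)).filter
        (fun A => IsLow A ∧ A.card = n ∧ (A ∩ U (neg ω)).card = c))).filter
          (fun A => XX ω A ≠ 0)) ⟨A1, mem_filter.2 ⟨mem_filter.2 ⟨mem_univ _, hA1l, hA1n, rfl⟩,
            hA1X⟩⟩ (fun A => (XX ω A : ℚ) * ε) (fun A => FA (ω := ω) A) ?_ ?_ ?_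
  · intro A hA
    rw [mem_filter, mem_filter] at hA
    exact gfin_cvx h hA.1.2.1
  · intro A hA
    rw [mem_filter, mem_filter] at hA
    obtain ⟨⟨-, hAl, hAn, hAc⟩, hAX⟩ := hA
    obtain ⟨m, hm, -⟩ := gfin_XX h W hAl (by rw [hAn]; exact hmax)
    rw [hAc, ← hε] at hm
    have h1 : (XX ω A : ℚ) * ε * (sF h).toEG.sgn (FA (ω := ω) A) = m := by
      calc (XX ω A : ℚ) * ε * (sF h).toEG.sgn (FA (ω := ω) A) =
          ((XX ω A : ℚ) * (sF h).toEG.sgn (FA (ω := ω) A)) * ε := by ring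
        _ = m * (ε * ε) := by rw [hm]; ring
        _ = m := by rw [hε2, mul_one]
    rw [h1]
    have h2 : (m : ℚ) ≠ 0 := by
      intro h3
      rw [h3, zero_mul] at hm
      have h4 : (sF h).toEG.sgn (FA (ω := ω) A) ≠ 0 := by
        intro h5
        have := gfin_sgn_sq (sF h).toEG (FA (ω := ω) A)
        rw [h5, zero_mul] at this
        exact zero_ne_one this
      rcases mul_eq_zero.1 hm with h6 | h6
      · exact hAX (by exact_mod_cast h6)
      · exact h4 h6
    exact lt_of_le_of_ne (Nat.cast_nonneg m) h2.symm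
  · have h1 : ∑ A ∈ (((univ : Finset (Finset P)).filter
        (fun A => IsLow A ∧ A.card = n ∧ (A ∩ U (neg ω)).card = c))).filter
          (fun A => XX ω A ≠ 0), ((XX ω A : ℚ) * ε) • K (sF h).toEG (FA (ω := ω) A) =
        ε • ∑ A ∈ ((univ : Finset (Finset P)).filter
        (fun A => IsLow A ∧ A.card = n ∧ (A ∩ U (neg ω)).card = c)),
          (XX ω A : ℚ) • K (sF h).toEG (FA (ω := ω) A) := by
      rw [Finset.smul_sum, Finset.sum_filter]
      refine sum_congr rfl fun A _ => ?_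
      split_ifs with hX
      · rw [smul_smul, mul_comm]
      · rw [not_not] at hX
        rw [hX, Int.cast_zero, zero_smul, smul_zero]
    rw [h1, hid, smul_zero]

/-- chunk G7: the conclusion of part G -/
theorem good_of_world (h : Setup ω) (W : World ω) : Pool.PPart.SW ω := by
  have := no_strips h W
  intro a b c h1 h2
  rcases W.sw a b c h1 h2 with h3 | ⟨i, _⟩
  · exact h3
  · exact this.elim i

end Pool.PP2
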