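import Pool.Agent.Lib.PP2.G.Base
import Pool.Agent.Lib.PP2.G.Nbr

/-!
# labels of D-type sets are bounded
-/

namespace Pool.PP2

open Finset Classical Pool.PPart

variable {P : Type*} {α : Type*} [PartialOrder P] [Fintype P] [LinearOrder α]
variable {ω : P → α}

/-- chunk G4a: labels are bounded on D-type sets: an element of `A ∖ T` with label larger than
that of `w k` is `x k` or an upper weak cover of `x k`. -/
theorem label_bound (h : Setup ω) (W : World ω) (i : W.ι) {A T : Finset P}
    (hA : (W.st i).isD A T) {e : P} (he : e ∈ A \ T)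
    (hlab : ω ((W.st i).w (W.st i).k) < ω e) :
    e = (W.st i).x (W.st i).k ∨ WeakCover ω ((W.st i).x (W.st i).k) e := by
  obtain ⟨hlow, ⟨hTA, hlock⟩, hT⟩ := hA
  have hTsub : ∀ z ∈ T, z = (W.st i).v ∨ z = (W.st i).y 0 ∨ z = (W.st i).u ∨
      z = (W.st i).x (W.st i).k := by
    intro z hz
    rcases hT with hT | ⟨_, hT⟩
    · rw [hT, Strip.TD] at hz
      simp only [mem_insert, mem_singleton] at hz
      tauto
    · rw [hT, Strip.TS] at hz
      simp only [mem_insert, mem_singleton] at hz
      tauto
  have hy0 := Lab_y0_lt_wk (W.st i)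
  have hxk : ∀ b, StrictCover ω ((W.st i).x (W.st i).k) b →
      ω b < ω ((W.st i).w (W.st i).k) := by
    intro b hb
    rcases Lab_su_xk W i hb with h1 | ⟨_, h1⟩
    · rw [h1]; exact Lab_y_lt_wk (W.st i) le_rfl
    · rw [h1]; exact (Lab_u_lt _).trans hy0
  have hx0 : ω ((W.st i).w (W.st i).k) < ω ((W.st i).x 0) → (W.st i).x 0 = (W.st i).x (W.st i).k := by
    intro h1
    rcases Nat.eq_zero_or_pos (W.st i).k with h2 | h2
    · rw [h2]
    · exact absurd ((Lab_lt (W.st i) h2 le_rfl).1.trans (Lab_y_lt_wk (W.st i) le_rfl)) h1.not_gt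
  have main : ∀ n : ℕ, ∀ e : P, e ∈ A \ T → ω ((W.st i).w (W.st i).k) < ω e →
      (univ.filter (fun y => ω e < ω y)).card = n →
      e = (W.st i).x (W.st i).k ∨ WeakCover ω ((W.st i).x (W.st i).k) e := by
    intro n
    induction n using Nat.strong_induction_on with
    | _ n ih =>
    intro e he hlab hn
    have ih' : ∀ f ∈ A \ T, ω e < ω f → f = (W.st i).x (W.st i).k ∨
        WeakCover ω ((W.st i).x (W.st i).k) f := by
      intro f hf hef
      refine ih _ ?_ f hf (hlab.trans hef) rfl
      rw [← hn]
      apply card_lt_card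
      rw [Finset.ssubset_iff_of_subset]
      · exact ⟨f, by simp [hef], by simp⟩
      · intro z hz
        simp only [Finset.mem_filter, Finset.mem_univ, true_and] at hz ⊢
        exact hef.trans hz
    have hFI : FI ω A T e → e = (W.st i).x (W.st i).k ∨
        WeakCover ω ((W.st i).x (W.st i).k) e := by
      rintro (⟨t, ht, het⟩ | ⟨f, hf, hef⟩)
      · rcases hTsub t ht with rfl | rfl | rfl | rfl
        · exact absurd (W.st i).vmin (Lab_not_min het)
        · rcases Lab_cov h.inj het with h1 | h1
          · have h2 := Lab_sl_y W i (Nat.zero_le _) h1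
            left
            rw [h2]
            exact hx0 (h2 ▸ hlab)
          · have h2 := Lab_wl_y0 W i h1
            rw [h2] at hlab
            exact absurd ((Lab_v_lt (W.st i)).trans hy0) hlab.not_gt
        · rcases Lab_cov h.inj het with h1 | h1
          · rcases Lab_sl_u W i h1 with h2 | ⟨_, h2⟩
            · rw [h2] at hlab
              exact absurd hy0 hlab.not_gt
            · exact Or.inl h2
          · have h2 := Lab_wl_u W i h1
            rw [h2] at hlab
            exact absurd ((Lab_g_lt (W.st i)).trans hy0) hlab.not_gt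
        · exact absurd ((W.st i).xmin _ le_rfl) (Lab_not_min het)
      · rcases ih' f hf hef.2 with h1 | h1
        · exact absurd (h1 ▸ (W.st i).xmin _ le_rfl) (Lab_not_min hef.1)
        · left
          by_contra hne
          obtain ⟨i', _, _, h3⟩ := W.lw _ _ _ hef h1 hne
          rcases h3 with ⟨_, h4⟩ | ⟨h4, _⟩
          · exact Lab_y_not_min (W.st i') le_rfl (h4 ▸ (W.st i).xmin _ le_rfl)
          · exact W.xv i i' h4
    have hFB : FB ω A T e → e = (W.st i).x (W.st i).k ∨
        WeakCover ω ((W.st i).x (W.st i).k) e := by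
      rintro (⟨t, ht, het⟩ | ⟨f, hf, hef⟩)
      · rcases hTsub t ht with rfl | rfl | rfl | rfl
        · rcases Lab_cov h.inj het with h1 | h1
          · exact absurd ((h1.2.trans (Lab_v_lt (W.st i))).trans hy0) hlab.not_gt
          · rcases Lab_wu_v W i h1 with h2 | ⟨_, h2⟩
            · rw [h2] at hlab
              exact absurd hy0 hlab.not_gt
            · rw [h2] at hlab
              exact absurd hlab (lt_irrefl _)
        · rcases Lab_cov h.inj het with h1 | h1
          · exact absurd (h1.2.trans hy0) hlab.not_gt
          · have h2 := Lab_wu_y W i (Nat.zero_le _) h1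
            rw [h2] at hlab
            rcases Nat.eq_zero_or_pos (W.st i).k with h3 | h3
            · rw [h3] at hlab
              exact absurd hlab (lt_irrefl _)
            · exact absurd ((Lab_lt (W.st i) h3 le_rfl).2.1.trans (Lab_y_lt_wk (W.st i) le_rfl))
                hlab.not_gt
        · exact absurd (W.st i).umax (Lab_not_max het)
        · rcases Lab_cov h.inj het with h1 | h1
          · exact absurd (hxk _ h1) hlab.not_gt
          · exact Or.inr h1
      · rcases ih' f hf hef.2 with h1 | h1
        · exact absurd (hxk _ (h1 ▸ hef)) hlab.not_gt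
        · exact absurd ((W.st i).emax _ h1) (Lab_not_max hef.1)
    rcases hlock e he with ⟨h1, _⟩ | ⟨h1, _⟩
    · exact hFI h1
    · exact hFB h1
  exact main _ e he hlab rfl

end Pool.PP2
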