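import Pool.Agent.Lib.PP2.G.Entry

/-!
# annihilation
-/

namespace Pool.PP2

open Finset Classical Pool.PPart

variable {P : Type*} {α : Type*} [PartialOrder P] [Fintype P] [LinearOrder α]
variable {ω : P → α}

/-- chunk G1b: annihilation, from symmetry. -/
theorem phi_XX (hω : Function.Injective ω) (hs : Sym ω) (n : ℕ) (hn : 3 ≤ n)
    {Y : Matrix (LL P) (LL P) ℤ} (hY : Y ∈ Walg ω) :
    ∑ A : LL P, (if A.1.card = n then XX ω A.1 else 0) * Y A (topL P) = 0 := by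
  have h1 : ∀ A : LL P, (if A.1.card = n then XX ω A.1 else 0) * Y A (topL P) =
      (∑ p ∈ antidiagonal (n - 3), (-1 : ℤ) ^ p.2 • (wmat ω p.1 *
      (wmat ω 1 * wmat ω 2 - wmat ω 2 * wmat ω 1) * smat ω p.2)) (botL P) A * Y A (topL P) := by
    intro A
    rw [XX_entry ω hω n hn A]
  rw [Finset.sum_congr rfl (fun A _ => h1 A), ← Matrix.mul_apply, Finset.sum_mul,
    Matrix.sum_apply]
  apply Finset.sum_eq_zero
  intro p _
  have h2 : (-1 : ℤ) ^ p.2 • (wmat ω p.1 *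
      (wmat ω 1 * wmat ω 2 - wmat ω 2 * wmat ω 1) * smat ω p.2) * Y =
      (-1 : ℤ) ^ p.2 • (wmat ω p.1 * (wmat ω 1 * wmat ω 2) * (smat ω p.2 * Y) -
        wmat ω p.1 * (wmat ω 2 * wmat ω 1) * (smat ω p.2 * Y)) := by
    rw [smul_mul_assoc]
    congr 1
    noncomm_ring
  have h3 := phi_swap hs (wmat_mem ω 1) (wmat_mem ω 2) (wmat_mem ω p.1)
    (Subalgebra.mul_mem _ (smat_mem hω p.2) hY)
  rw [h2, Matrix.smul_apply, Matrix.sub_apply]
  unfold phi at h3
  rw [h3, sub_self, smul_zero]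

end Pool.PP2
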