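import Pool.Agent.Lib.PP2.G.Step0b

/-!
# structure of the C-type sets
-/

namespace Pool.PP2

open Finset Classical Pool.PPart

variable {P : Type*} {α : Type*} [PartialOrder P] [Fintype P] [LinearOrder α]
variable {ω : P → α}

omit [Fintype P] in
theorem re_not_min {a b : P} (h : a ⋖ b) : ¬ IsMin b := fun h' => h'.not_lt h.lt

omit [Fintype P] in
theorem re_not_max {a b : P} (h : a ⋖ b) : ¬ IsMax a := fun h' => h'.not_lt h.lt

theorem re_max_U {x : P} (hx : IsMax x) : x ∈ U (neg ω) := by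
  rw [mem_U]
  intro a ha
  exact hx.not_lt ha.lt

theorem re_not_max_of_not_U {x : P} (hx : x ∉ U (neg ω)) : ¬ IsMax x := fun h => hx (re_max_U h)

theorem re_ls (W : World ω) {a b c : P} (h1 : StrictCover ω a c) (h2 : StrictCover ω b c)
    (hc : ¬ IsMax c) : a = b := by
  by_contra hne
  obtain ⟨i, _, h3, _⟩ := W.ls a b c h1 h2 hne
  exact hc (h3 ▸ (W.st i).umax)

theorem re_us (W : World ω) {c a b : P} (h1 : StrictCover ω c a) (h2 : StrictCover ω c b)
    (hc : ¬ IsMin c) : a = b := by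
  by_contra hne
  obtain ⟨i, _, h3, _⟩ := W.us c a b h1 h2 hne
  exact hc (h3 ▸ (W.st i).xmin _ le_rfl)

theorem re_lw (W : World ω) {a b c : P} (h1 : WeakCover ω a c) (h2 : WeakCover ω b c)
    (hc : ¬ IsMax c) : a = b := by
  by_contra hne
  obtain ⟨i, _, h3, _⟩ := W.lw a b c h1 h2 hne
  exact hc (h3 ▸ (W.st i).wmax _ le_rfl)

theorem re_uw (W : World ω) {c a b : P} (h1 : WeakCover ω c a) (h2 : WeakCover ω c b)
    (hc : ¬ IsMin c) : a = b := by
  by_contra hne
  obtain ⟨i, _, h3, _⟩ := W.uw c a b h1 h2 hne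
  exact hc (h3 ▸ (W.st i).vmin)

theorem re_sw (W : World ω) {a b c : P} (h1 : StrictCover ω a b) (h2 : WeakCover ω b c)
    (hc : ¬ IsMax c) : ∃ z, WeakCover ω a z ∧ StrictCover ω z c := by
  rcases W.sw a b c h1 h2 with h3 | ⟨i, _, _, h3⟩
  · exact h3
  · exact absurd (h3 ▸ (W.st i).wmax _ le_rfl) hc

theorem re_ws (W : World ω) {a b c : P} (h1 : WeakCover ω a b) (h2 : StrictCover ω b c)
    (hc : ¬ IsMax c) : ∃ z, StrictCover ω a z ∧ WeakCover ω z c := by
  rcases W.ws a b c h1 h2 with h3 | ⟨i, _, _, h3⟩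
  · exact h3
  · exact absurd (h3 ▸ (W.st i).umax) hc

theorem re_mem_T {s : Strip ω} {A T : Finset P} (hA : s.isC A T) {t : P} (ht : t ∈ T) :
    t = s.x s.k ∨ t = s.v ∨ t = s.y s.k ∨ t = s.w s.k := by
  rcases hA.2.2 with h | ⟨_, h⟩
  · rw [h] at ht
    simp only [Strip.TC, Finset.mem_insert, Finset.mem_singleton] at ht
    tauto
  · rw [h] at ht
    simp only [Strip.TW, Finset.mem_insert, Finset.mem_singleton] at ht
    tauto

theorem re_y_mem {s : Strip ω} {A T : Finset P} (hA : s.isC A T) : s.y s.k ∈ T := by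
  rcases hA.2.2 with h | ⟨_, h⟩ <;> rw [h] <;> simp [Strip.TC, Strip.TW]

theorem re_w_mem {s : Strip ω} {A T : Finset P} (hA : s.isC A T) : s.w s.k ∈ T := by
  rcases hA.2.2 with h | ⟨_, h⟩ <;> rw [h] <;> simp [Strip.TC, Strip.TW]

/-- weak upper covers of the elements of `T` -/
theorem re_weak_above (W : World ω) (i : W.ι) {A T : Finset P}
    (hA : (W.st i).isC A T) {t e : P} (ht : t ∈ T) (h : WeakCover ω t e) :
    IsMax e ∨ ∃ z, StrictCover ω z e := by
  rcases re_mem_T hA ht with h1 | h1 | h1 | h1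
  · left
    subst h1
    exact (W.st i).emax e h
  · subst h1
    by_cases he : e = (W.st i).y 0
    · right
      subst he
      exact ⟨_, (W.st i).xy 0 (Nat.zero_le _)⟩
    · left
      obtain ⟨j, _, hj, h4⟩ := W.uw _ _ _ h (W.st i).vy he
      rcases h4 with ⟨_, h5⟩ | ⟨_, h5⟩
      · exact absurd ((W.st j).wmax _ le_rfl) (h5 ▸ re_not_max ((W.st i).yw 0 (Nat.zero_le _)).1)
      · rw [h5]
        exact (W.st j).wmax _ le_rfl
  · left
    subst h1
    have h2 := re_uw W h ((W.st i).yw _ le_rfl) (re_not_min ((W.st i).xy _ le_rfl).1)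
    rw [h2]
    exact (W.st i).wmax _ le_rfl
  · subst h1
    exact absurd ((W.st i).wmax _ le_rfl) (re_not_max h.1)

/-- strict lower covers of the elements of `T` -/
theorem re_strict_below (W : World ω) (i : W.ι) {A T : Finset P}
    (hA : (W.st i).isC A T) {t d : P} (ht : t ∈ T) (h : StrictCover ω d t) :
    d = (W.st i).x (W.st i).k ∨ d = (W.st i).q := by
  rcases re_mem_T hA ht with h1 | h1 | h1 | h1
  · subst h1
    exact absurd ((W.st i).xmin _ le_rfl) (re_not_min h.1)
  · subst h1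
    exact absurd ((W.st i).vmin) (re_not_min h.1)
  · left
    subst h1
    exact re_ls W h ((W.st i).xy _ le_rfl) (re_not_max ((W.st i).yw _ le_rfl).1)
  · right
    subst h1
    by_contra hne
    obtain ⟨j, _, hj, _⟩ := W.ls _ _ _ h (W.st i).qw hne
    exact W.wu _ _ hj

/-- chunk G5b: `A ∩ F` lies in the north west rim of `F` -/
theorem rim (h : Setup ω) (W : World ω) (i : W.ι) {A T : Finset P}
    (hA : (W.st i).isC A T) {a b c : P} (hc : c ∈ A) (hcF : c ∉ U (neg ω))
    (h1 : StrictCover ω a b) (h2 : WeakCover ω b c) : False := by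
  have hlow := hA.1
  have hb : b ∈ A := hlow c hc b h2.1.le
  have ha : a ∈ A := hlow b hb a h1.1.le
  have hcm : ¬ IsMax c := re_not_max_of_not_U hcF
  have hbm : ¬ IsMin b := re_not_min h1.1
  have hcT : c ∉ T := by
    intro hcT
    rcases re_mem_T hA hcT with h3 | h3 | h3 | h3
    · exact absurd ((W.st i).xmin _ le_rfl) (h3 ▸ re_not_min h2.1)
    · exact absurd (W.st i).vmin (h3 ▸ re_not_min h2.1)
    · subst h3
      rcases Nat.eq_zero_or_pos (W.st i).k with hk | hk
      · have h4 := (W.st i).vy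
        rw [hk] at h2 hcm
        have h5 := re_lw W h2 h4 hcm
        exact hbm (h5 ▸ (W.st i).vmin)
      · have h4 := (W.st i).xy' ((W.st i).k - 1) (by omega)
        rw [show (W.st i).k - 1 + 1 = (W.st i).k by omega] at h4
        have h5 := re_lw W h2 h4 hcm
        exact hbm (h5 ▸ (W.st i).xmin _ (by omega))
    · exact hcm (h3 ▸ (W.st i).wmax _ le_rfl)
  have hbT : b ∉ T := by
    intro hbT
    rcases re_mem_T hA hbT with h3 | h3 | h3 | h3
    · exact hbm (h3 ▸ (W.st i).xmin _ le_rfl)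
    · exact hbm (h3 ▸ (W.st i).vmin)
    · subst h3
      have h4 := re_uw W h2 ((W.st i).yw _ le_rfl) hbm
      exact hcm (h4 ▸ (W.st i).wmax _ le_rfl)
    · exact absurd ((W.st i).wmax _ le_rfl) (h3 ▸ re_not_max h2.1)
  have hFI : FI ω A T b := Or.inr ⟨c, Finset.mem_sdiff.2 ⟨hc, hcT⟩, h2⟩
  have hFB : FB ω A T b := by
    by_cases haT : a ∈ T
    · exact Or.inl ⟨a, haT, h1.1⟩
    · exact Or.inr ⟨a, Finset.mem_sdiff.2 ⟨ha, haT⟩, h1⟩
  rcases hA.2.1.2 b (Finset.mem_sdiff.2 ⟨hb, hbT⟩) with h3 | h3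
  · exact h3.2 hFB
  · exact h3.2 hFI

/-- chunk G5c (e1): if `d ∈ A ∩ F` has a south east neighbour in `F`, then its east neighbour is
in `A` iff it has no north neighbour -/
theorem e1 (h : Setup ω) (W : World ω) (i : W.ι) {A T : Finset P}
    (hA : (W.st i).isC A T) {d a b : P} (hd : d ∈ A) (h1 : WeakCover ω d a)
    (h2 : StrictCover ω a b) (hb : b ∉ U (neg ω)) : a ∈ A ↔ ¬ ∃ z, StrictCover ω z d := by
  have haU : a ∉ U (neg ω) := fun h3 => hb (U_up h2.1.le h3)
  have ham : ¬ IsMax a := re_not_max h2.1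
  have hbm : ¬ IsMax b := re_not_max_of_not_U hb
  have hamin : ¬ IsMin a := re_not_min h1.1
  -- `d` has only one weak upper cover
  have hd1 : ∀ f, WeakCover ω d f → f = a := by
    intro f hf
    by_contra hne
    obtain ⟨j, _, hj, h4⟩ := W.uw _ _ _ hf h1 hne
    rcases h4 with ⟨_, h5⟩ | ⟨_, h5⟩
    · exact ham (h5 ▸ (W.st j).wmax _ le_rfl)
    · exact absurd h5 (by
        rintro rfl
        by_cases h7 : a = (W.st j).y 0
        · subst h7
          have h8 := re_us W h2 (W.st j).yu hamin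
          exact hbm (h8 ▸ (W.st j).umax)
        · obtain ⟨j', _, hj', h8⟩ := W.uw _ _ _ h1 (hj ▸ (W.st j).vy) h7
          rcases h8 with ⟨h9, h10⟩ | ⟨h9, h10⟩
          · exact absurd ((W.st j').wmax _ le_rfl)
              (h10 ▸ re_not_max ((W.st j).yw 0 (Nat.zero_le _)).1)
          · exact ham (h10 ▸ (W.st j').wmax _ le_rfl))
  constructor
  · rintro ha ⟨z, hz⟩
    exact rim h W i hA ha haU hz h1
  · intro hz
    by_contra ha
    have key : ∀ s : P, s = (W.st i).x (W.st i).k → d ≠ s := by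
      rintro s rfl rfl
      exact ham ((W.st i).emax a h1)
    by_cases hdT : d ∈ T
    · rcases re_mem_T hA hdT with h3 | h3 | h3 | h3
      · exact key _ rfl h3
      · have h4 := hd1 _ (h3 ▸ (W.st i).vy)
        rw [← h4] at h2 hamin
        have h8 := re_us W h2 (W.st i).yu hamin
        exact hbm (h8 ▸ (W.st i).umax)
      · exact hz ⟨_, h3 ▸ (W.st i).xy _ le_rfl⟩
      · exact absurd ((W.st i).wmax _ le_rfl) (h3 ▸ re_not_max h1.1)
    · rcases hA.2.1.2 d (Finset.mem_sdiff.2 ⟨hd, hdT⟩) with h3 | h3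
      · rcases h3.1 with ⟨t, ht, hdt⟩ | ⟨f, hf, hdf⟩
        · rcases strict_or_weak h.inj hdt with h4 | h4
          · rcases re_strict_below W i hA ht h4 with h5 | h5
            · exact key _ rfl h5
            · rcases Nat.eq_zero_or_pos (W.st i).k with hk | hk
              · exact haU ((step0a h W i hk).2 a (h5 ▸ h1))
              · exact haU ((step0b h W i hk).2 a (h5 ▸ h1))
          · rw [hd1 t h4] at ht
            exact ha (hA.2.1.1 ht)
        · rw [hd1 f hdf] at hf
          exact ha (Finset.mem_sdiff.1 hf).1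
      · rcases h3.1 with ⟨t, ht, hdt⟩ | ⟨f, hf, hdf⟩
        · rcases strict_or_weak h.inj hdt with h4 | h4
          · exact hz ⟨t, h4⟩
          · rcases re_weak_above W i hA ht h4 with h5 | h5
            · exact re_not_max h1.1 h5
            · exact hz h5
        · exact hz ⟨f, hdf⟩

end Pool.PP2
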