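import Pool.Agent.Lib.PP2.G.FBc
import Pool.Agent.Lib.PP2.G.RimE1
import Pool.Agent.Lib.PP2.G.E2

/-!
# the sign of the maximal sets
-/

namespace Pool.PP2

open Finset Classical Pool.PPart

variable {P : Type*} {α : Type*} [PartialOrder P] [Fintype P] [LinearOrder α]
variable {ω : P → α}

private theorem sm_mem_FA {A : Finset P} {x : {x : P // x ∉ U (neg ω)}} :
    x ∈ FA (ω := ω) A ↔ x.1 ∉ A := by simp [FA]

private theorem sm_FA_empty : FA (ω := ω) (∅ : Finset P) = univ := by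
  ext x; simp [FA]

/-- chunk G5: the sign of a maximal C-type set -/
theorem sign_max (h : Setup ω) (W : World ω) (i : W.ι) {A T : Finset P}
    (hA : (W.st i).isC A T)
    (hmax : ∀ j A' T', (W.st j).isC A' T' → A'.card ≤ A.card) :
    (sF h).toEG.sgn (FA (ω := ω) A) * wt ω A T =
      (-1) ^ (A ∩ U (neg ω)).card * (sF h).toEG.sgn (FA (ω := ω) ∅) := by
  set Q := (sF h).toEG with hQ
  have hlow := hA.1
  have hQs : ∀ a b, Q.s a b ↔ StrictCover ω a.1 b.1 := fun a b => Iff.rfl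
  have hQw : ∀ a b, Q.w a b ↔ WeakCover ω a.1 b.1 := fun a b => Iff.rfl
  -- claim 1: `A ∩ F ⊆ B0 F`
  have c1 : ∀ x : {x : P // x ∉ U (neg ω)}, x.1 ∈ A → x ∈ Q.B0 univ := by
    intro x hx
    unfold EG.B0
    rw [Finset.mem_filter]
    refine ⟨Finset.mem_univ _, ?_⟩
    rintro ⟨y, _, z, _, h1, h2⟩
    exact rim h W i hA hx x.2 h2 h1
  -- paths
  have mono : ∀ a b : {x : P // x ∉ U (neg ω)}, Relation.ReflTransGen (fun a b => a ∈ (univ : Finset {x : P // x ∉ U (neg ω)}) ∧ b ∈ univ ∧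
      ∃ c ∈ univ, Q.s a c ∧ Q.w c b) a b → a.1 ≤ b.1 := by
    intro a b hab
    induction hab with
    | refl => exact le_rfl
    | tail _ h2 ih =>
      obtain ⟨_, _, c, _, h3, h4⟩ := h2
      exact ih.trans (h3.1.le.trans h4.1.le)
  have lift : ∀ a b : {x : P // x ∉ U (neg ω)}, a.1 ∉ A → Relation.ReflTransGen (fun a b => a ∈ (univ : Finset {x : P // x ∉ U (neg ω)}) ∧ b ∈ univ ∧
      ∃ c ∈ univ, Q.s a c ∧ Q.w c b) a b →
      Relation.ReflTransGen (fun a b => a ∈ FA (ω := ω) A ∧ b ∈ FA (ω := ω) A ∧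
      ∃ c ∈ FA (ω := ω) A, Q.s a c ∧ Q.w c b) a b := by
    intro a b ha hab
    induction hab with
    | refl => exact Relation.ReflTransGen.refl
    | @tail b c h1 h2 ih =>
      obtain ⟨_, _, d, _, h3, h4⟩ := h2
      have hb : b.1 ∉ A := fun hb => ha (hlow _ hb _ (mono a b h1))
      have hd : d.1 ∉ A := fun hd => hb (hlow _ hd _ h3.1.le)
      have hc : c.1 ∉ A := fun hc => hd (hlow _ hc _ h4.1.le)
      exact ih.tail ⟨sm_mem_FA.2 hb, sm_mem_FA.2 hc, d, sm_mem_FA.2 hd, h3, h4⟩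
  have drop : ∀ a b : {x : P // x ∉ U (neg ω)},
      Relation.ReflTransGen (fun a b => a ∈ FA (ω := ω) A ∧ b ∈ FA (ω := ω) A ∧
      ∃ c ∈ FA (ω := ω) A, Q.s a c ∧ Q.w c b) a b →
      Relation.ReflTransGen (fun a b => a ∈ (univ : Finset {x : P // x ∉ U (neg ω)}) ∧ b ∈ univ ∧
      ∃ c ∈ univ, Q.s a c ∧ Q.w c b) a b := by
    intro a b hab
    refine Relation.ReflTransGen.mono (fun x y hxy => ?_) _ _ hab
    obtain ⟨_, _, c, _, h3, h4⟩ := hxy
    exact ⟨Finset.mem_univ _, Finset.mem_univ _, c, Finset.mem_univ _, h3, h4⟩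
  -- claim 2
  have c2 : ∀ x : {x : P // x ∉ U (neg ω)}, x.1 ∉ A →
      ((∃ g, Q.Head (FA (ω := ω) A) x g ∧ Q.sl (FA (ω := ω) A) g) ↔
        ∃ g, Q.Head univ x g ∧ Q.sl univ g) := by
    intro x hx
    constructor
    · rintro ⟨g, ⟨hg1, hg2⟩, n, hn, hng⟩
      by_cases hg : g ∈ Q.B0 univ
      · exact ⟨g, ⟨hg, drop _ _ hg2⟩, n, Finset.mem_univ _, hng⟩
      · unfold EG.B0 at hg hg1
        rw [Finset.mem_filter] at hg hg1
        rw [not_and, not_not] at hg
        obtain ⟨y, _, z, _, h1, h2⟩ := hg (Finset.mem_univ _)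
        have hzA : z.1 ∈ A := by
          by_contra hzA
          have hyA : y.1 ∉ A := fun h3 => hzA (hlow _ h3 _ h2.1.le)
          exact hg1.2 ⟨y, sm_mem_FA.2 hyA, z, sm_mem_FA.2 hzA, h1, h2⟩
        have hgm : ¬ IsMax g.1 := re_not_max_of_not_U g.2
        obtain ⟨t, ht1, ht2⟩ := re_sw W h2 h1 hgm
        have htn : t = n.1 := re_ls W ht2 hng hgm
        subst htn
        have h3 := e1 h W i hA hzA ht1 ht2 g.2
        have h4 : ∃ m, StrictCover ω m z.1 := by
          by_contra h5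
          exact (sm_mem_FA.1 hn) (h3.2 h5)
        obtain ⟨m, hm⟩ := h4
        have hmU : m ∉ U (neg ω) := fun h5 => z.2 (U_up hm.1.le h5)
        refine ⟨z, ⟨c1 z hzA, ?_⟩, ⟨m, hmU⟩, Finset.mem_univ _, hm⟩
        exact Relation.ReflTransGen.head ⟨Finset.mem_univ _, Finset.mem_univ _, y,
          Finset.mem_univ _, h2, h1⟩ (drop _ _ hg2)
    · rintro ⟨g, ⟨hg1, hg2⟩, n, _, hng⟩
      have hgm : ¬ IsMax g.1 := re_not_max_of_not_U g.2
      by_cases hgA : g.1 ∈ A
      · rcases Relation.ReflTransGen.cases_head hg2 with h1 | ⟨g', ⟨_, _, c, _, h2, h3⟩, h4⟩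
        · exact absurd (h1 ▸ hgA) hx
        · have hg'm : ¬ IsMax g'.1 := re_not_max_of_not_U g'.2
          obtain ⟨t, ht1, ht2⟩ := re_sw W h2 h3 hg'm
          have htU : t ∉ U (neg ω) := fun h5 => g'.2 (U_up ht2.1.le h5)
          have h5 := e1 h W i hA hgA ht1 ht2 g'.2
          have htA : t ∉ A := fun h6 => h5.1 h6 ⟨n.1, hng⟩
          have hg'A : g'.1 ∉ A := by
            intro h6
            have h7 := c1 g' h6
            unfold EG.B0 at h7
            rw [Finset.mem_filter] at h7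
            exact h7.2 ⟨c, Finset.mem_univ _, g, Finset.mem_univ _, h3, h2⟩
          refine ⟨g', ⟨?_, lift _ _ hg'A h4⟩, ⟨t, htU⟩, sm_mem_FA.2 htA, ht2⟩
          unfold EG.B0
          rw [Finset.mem_filter]
          refine ⟨sm_mem_FA.2 hg'A, ?_⟩
          rintro ⟨y, _, z, hz, h6, h7⟩
          have h8 : y = c := Subtype.ext (re_lw W h6 h3 hg'm)
          subst h8
          have h9 : z = g := Subtype.ext (re_ls W h7 h2 (re_not_max h6.1))
          subst h9
          exact sm_mem_FA.1 hz hgA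
      · refine ⟨g, ⟨?_, lift _ _ hgA hg2⟩, n, ?_, hng⟩
        · unfold EG.B0 at hg1 ⊢
          rw [Finset.mem_filter] at hg1 ⊢
          refine ⟨sm_mem_FA.2 hgA, ?_⟩
          rintro ⟨y, _, z, _, h6, h7⟩
          exact hg1.2 ⟨y, Finset.mem_univ _, z, Finset.mem_univ _, h6, h7⟩
        · rw [sm_mem_FA]
          intro hnA
          refine hgA (e2 h W i hA hmax hnA ?_ hng g.2)
          rintro ⟨z, hz⟩
          obtain ⟨t, ht1, ht2⟩ := re_ws W hz hng hgm
          unfold EG.B0 at hg1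
          rw [Finset.mem_filter] at hg1
          have htU : t ∉ U (neg ω) := fun h5 => g.2 (U_up ht2.1.le h5)
          have hzU : z ∉ U (neg ω) := fun h5 => htU (U_up ht1.1.le h5)
          exact hg1.2 ⟨⟨t, htU⟩, Finset.mem_univ _, ⟨z, hzU⟩, Finset.mem_univ _, ht2, ht1⟩
  -- claim 3
  have c3 : ∀ x : {x : P // x ∉ U (neg ω)}, x.1 ∈ A →
      ((∃ g, Q.Head univ x g ∧ Q.sl univ g) ↔ x.1 ∉ J ω) := by
    intro x hx
    constructor
    · rintro ⟨g, ⟨_, hg2⟩, n, _, hng⟩
      rcases Relation.ReflTransGen.cases_tail hg2 with h1 | ⟨y, _, _, _, c, _, h2, h3⟩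
      · subst h1
        intro h4
        exact mem_J.1 h4 n.1 (StrictCover.prec hng)
      · have h7 := c1 x hx
        unfold EG.B0 at h7
        rw [Finset.mem_filter] at h7
        exact absurd ⟨c, Finset.mem_univ _, y, Finset.mem_univ _, h3, h2⟩ h7.2
    · intro hxJ
      obtain ⟨n, hn⟩ := exists_N h hxJ
      have hnU : n ∉ U (neg ω) := fun h5 => x.2 (U_up hn.1.le h5)
      exact ⟨x, ⟨c1 x hx, Relation.ReflTransGen.refl⟩, ⟨n, hnU⟩, Finset.mem_univ _, hn⟩
  -- counting
  set S : {x : P // x ∉ U (neg ω)} → Prop := fun x => ∃ g, Q.Head univ x g ∧ Q.sl univ g with hS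
  have n1 : Q.sgn (FA (ω := ω) A) = (-1) ^ (univ.filter (fun x => S x ∧ x.1 ∉ A)).card := by
    unfold EG.sgn
    congr 2
    ext x
    simp only [Finset.mem_filter, sm_mem_FA, Finset.mem_univ, true_and]
    constructor
    · rintro ⟨h1, h2⟩
      exact ⟨(c2 x h1).1 h2, h1⟩
    · rintro ⟨h1, h2⟩
      exact ⟨h2, (c2 x h2).2 h1⟩
  have n0 : Q.sgn (FA (ω := ω) ∅) = (-1) ^ (univ.filter (fun x => S x)).card := by
    rw [sm_FA_empty]
    unfold EG.sgn
    congr 2
    ext x
    simp only [Finset.mem_filter, hS]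
  have n2 : (univ.filter (fun x => S x)).card = (univ.filter (fun x => S x ∧ x.1 ∉ A)).card +
      (univ.filter (fun x => S x ∧ x.1 ∈ A)).card := by
    rw [← Finset.card_union_of_disjoint]
    · congr 1
      ext x
      rw [Finset.mem_filter, Finset.mem_union, Finset.mem_filter, Finset.mem_filter]
      by_cases hx : x.1 ∈ A
      · simp only [hx, not_true_eq_false, and_false, false_or, and_true]
      · simp only [hx, not_false_eq_true, and_false, or_false, and_true]
    · rw [Finset.disjoint_left]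
      intro x
      simp only [Finset.mem_filter, Finset.mem_univ, true_and]
      tauto
  have n3 : (univ.filter (fun x => S x ∧ x.1 ∈ A)).card =
      (A.filter (fun x => x ∉ J ω ∧ x ∉ U (neg ω))).card := by
    refine Finset.card_bij (fun x _ => x.1) ?_ ?_ ?_
    · intro x hx
      simp only [Finset.mem_filter, Finset.mem_univ, true_and] at hx ⊢
      exact ⟨hx.2, (c3 x hx.2).1 hx.1, x.2⟩
    · intro x _ y _ hxy
      exact Subtype.ext hxy
    · intro x hx
      rw [Finset.mem_filter] at hx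
      refine ⟨⟨x, hx.2.2⟩, ?_, rfl⟩
      simp only [Finset.mem_filter, Finset.mem_univ, true_and]
      exact ⟨(c3 ⟨x, hx.2.2⟩ hx.1).2 hx.2.1, hx.1⟩
  have n4 : (A.filter (fun x => x ∉ J ω)).card = (A.filter (fun x => x ∉ J ω ∧ x ∉ U (neg ω))).card +
      (A.filter (fun x => x ∉ J ω ∧ x ∈ U (neg ω))).card := by
    rw [← Finset.card_union_of_disjoint]
    · congr 1
      ext x
      simp only [Finset.mem_filter, Finset.mem_union]
      tauto
    · rw [Finset.disjoint_left]
      intro x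
      simp only [Finset.mem_filter]
      tauto
  have n5 : (A ∩ U (neg ω)).card = (A.filter (fun x => x ∈ J ω ∧ x ∈ U (neg ω))).card +
      (A.filter (fun x => x ∉ J ω ∧ x ∈ U (neg ω))).card := by
    rw [← Finset.card_union_of_disjoint]
    · congr 1
      ext x
      simp only [Finset.mem_filter, Finset.mem_union, Finset.mem_inter]
      tauto
    · rw [Finset.disjoint_left]
      intro x
      simp only [Finset.mem_filter]
      tauto
  have n6 := FB_card h W i hA
  rw [wt, if_pos hA.2.1, n0, n1, n2, n3]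
  push_cast
  rw [← pow_add, ← pow_add]
  apply neg_one_pow_congr
  rw [Nat.even_iff, Nat.even_iff]
  omega

end Pool.PP2
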