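import Pool.Agent.Lib.PP2.G.Defs

/-!
# step 0: covers of the cells of the strips, rows
-/

namespace Pool.PP2

open Finset Classical Pool.PPart

variable {P : Type*} {α : Type*} [PartialOrder P] [Fintype P] [LinearOrder α]
variable {ω : P → α}

/-! ### elementary facts on `U'` -/

theorem st0_mem_U_of_max {z : P} (h : IsMax z) : z ∈ U (neg ω) := by
  rw [mem_U]
  intro a ha
  exact h.not_lt ha.lt

theorem st0_not_U_of_weak {a b : P} (h : WeakCover ω a b) : a ∉ U (neg ω) := by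
  intro h1
  rw [mem_U] at h1
  exact h1 b (neg_strict.2 h).prec

theorem st0_not_U_of_le {a b : P} (h : a ≤ b) (hb : b ∉ U (neg ω)) : a ∉ U (neg ω) :=
  fun ha => hb (U_up h ha)

/-! ### elementary facts on strips -/

namespace Strip

variable (t : Strip ω)

theorem st0_y_not_min {j : ℕ} (hj : j ≤ t.k) : ¬ IsMin (t.y j) :=
  fun h => h.not_lt (t.xy j hj).1.lt

theorem st0_y_not_max {j : ℕ} (hj : j ≤ t.k) : ¬ IsMax (t.y j) :=
  fun h => h.not_lt (t.yw j hj).1.lt

theorem st0_y_U {j : ℕ} (hj : j ≤ t.k) : t.y j ∉ U (neg ω) := st0_not_U_of_weak (t.yw j hj)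

theorem st0_x_U {j : ℕ} (hj : j ≤ t.k) : t.x j ∉ U (neg ω) :=
  st0_not_U_of_le (t.xy j hj).1.le (t.st0_y_U hj)

theorem st0_v_U : t.v ∉ U (neg ω) := st0_not_U_of_weak t.vy

theorem st0_g_U : t.g ∉ U (neg ω) := st0_not_U_of_weak t.gu

theorem st0_w_U {j : ℕ} (hj : j ≤ t.k) : t.w j ∈ U (neg ω) := st0_mem_U_of_max (t.wmax j hj)

theorem st0_u_U : t.u ∈ U (neg ω) := st0_mem_U_of_max t.umax

theorem st0_lab_xy {j : ℕ} (hj : j ≤ t.k) : ω (t.y j) < ω (t.x j) := (t.xy j hj).2

theorem st0_lab_yx {j : ℕ} (hj : j < t.k) : ω (t.x j) < ω (t.y (j + 1)) := (t.xy' j hj).2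

theorem st0_y_lt {i j : ℕ} (hij : i < j) (hj : j ≤ t.k) : ω (t.y i) < ω (t.y j) := by
  induction j with
  | zero => omega
  | succ j ih =>
    have h1 := t.st0_lab_yx (j := j) (by omega)
    have h2 := t.st0_lab_xy (j := j) (by omega)
    rcases Nat.lt_succ_iff_lt_or_eq.1 hij with h3 | h3
    · exact (ih h3 (by omega)).trans (h2.trans h1)
    · subst h3
      exact h2.trans h1

theorem st0_y_inj {i j : ℕ} (hi : i ≤ t.k) (hj : j ≤ t.k) (h : t.y i = t.y j) : i = j := by
  rcases lt_trichotomy i j with h1 | h1 | h1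
  · have := t.st0_y_lt h1 hj
    rw [h] at this
    exact absurd this (lt_irrefl _)
  · exact h1
  · have := t.st0_y_lt h1 hi
    rw [h] at this
    exact absurd this (lt_irrefl _)

theorem st0_x_lt {i j : ℕ} (hij : i < j) (hj : j ≤ t.k) : ω (t.x i) < ω (t.x j) := by
  have h1 := t.st0_lab_yx (j := i) (by omega)
  have h2 := t.st0_lab_xy hj
  rcases Nat.lt_or_ge (i + 1) j with h3 | h3
  · exact h1.trans ((t.st0_y_lt h3 hj).trans h2)
  · have : j = i + 1 := by omega
    subst this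
    exact h1.trans h2

theorem st0_x_inj {i j : ℕ} (hi : i ≤ t.k) (hj : j ≤ t.k) (h : t.x i = t.x j) : i = j := by
  rcases lt_trichotomy i j with h1 | h1 | h1
  · have := t.st0_x_lt h1 hj
    rw [h] at this
    exact absurd this (lt_irrefl _)
  · exact h1
  · have := t.st0_x_lt h1 hi
    rw [h] at this
    exact absurd this (lt_irrefl _)

theorem st0_xy_ne {i j : ℕ} (hi : i ≤ t.k) (hj : j ≤ t.k) : t.x i ≠ t.y j :=
  fun h => t.st0_y_not_min hj (h ▸ t.xmin i hi)

theorem st0_x_ne_v {j : ℕ} (hj : j ≤ t.k) : t.x j ≠ t.v := by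
  intro h
  have h1 := t.xy j hj
  rw [h] at h1
  exact t.st0_y_not_max hj (t.fmax _ h1)

theorem st0_x_ne_g {j : ℕ} (hj : j ≤ t.k) : t.x j ≠ t.g := by
  intro h
  have h1 := t.xy j hj
  rw [h] at h1
  exact t.st0_y_U hj (t.giso _ h1)

end Strip

/-! ### uniqueness of covers in the world -/

namespace World

theorem st0_us (W : World ω) {a b c : P} (hc : ¬ IsMin c) (h : StrictCover ω c a) (h' : StrictCover ω c b) :
    a = b := by
  by_contra hne
  obtain ⟨i', _, h2, _⟩ := W.us _ _ _ h h' hne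
  exact hc (h2 ▸ (W.st i').xmin _ le_rfl)

theorem st0_uw (W : World ω) {a b c : P} (hc : ¬ IsMin c) (h : WeakCover ω c a) (h' : WeakCover ω c b) :
    a = b := by
  by_contra hne
  obtain ⟨i', _, h2, _⟩ := W.uw _ _ _ h h' hne
  exact hc (h2 ▸ (W.st i').vmin)

theorem st0_ls (W : World ω) {a b c : P} (hc : ¬ IsMax c) (h : StrictCover ω a c) (h' : StrictCover ω b c) :
    a = b := by
  by_contra hne
  obtain ⟨i', _, h2, _⟩ := W.ls _ _ _ h h' hne
  exact hc (h2 ▸ (W.st i').umax)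

theorem st0_lw (W : World ω) {a b c : P} (hc : ¬ IsMax c) (h : WeakCover ω a c) (h' : WeakCover ω b c) :
    a = b := by
  by_contra hne
  obtain ⟨i', _, h2, _⟩ := W.lw _ _ _ h h' hne
  exact hc (h2 ▸ (W.st i').wmax _ le_rfl)

variable (W : World ω) (i : W.ι)

/-- strict covers of `y j` are maximal -/
theorem st0_y_strict {j : ℕ} (hj : j ≤ (W.st i).k) {c : P} (h : StrictCover ω ((W.st i).y j) c) :
    IsMax c := by
  cases j with
  | zero =>
    rw [W.st0_us ((W.st i).st0_y_not_min hj) h (W.st i).yu]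
    exact (W.st i).umax
  | succ j =>
    rw [W.st0_us ((W.st i).st0_y_not_min hj) h ((W.st i).yw' j (by omega))]
    exact (W.st i).wmax j (by omega)

/-- the weak covers of `y j` -/
theorem st0_y_weak {j : ℕ} (hj : j ≤ (W.st i).k) {c : P} (h : WeakCover ω ((W.st i).y j) c) :
    c = (W.st i).w j :=
  W.st0_uw ((W.st i).st0_y_not_min hj) h ((W.st i).yw j hj)

theorem st0_y_below_strict {j : ℕ} (hj : j ≤ (W.st i).k) {c : P}
    (h : StrictCover ω c ((W.st i).y j)) : c = (W.st i).x j :=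
  W.st0_ls ((W.st i).st0_y_not_max hj) h ((W.st i).xy j hj)

theorem st0_y_below_weak_zero {c : P} (h : WeakCover ω c ((W.st i).y 0)) : c = (W.st i).v :=
  W.st0_lw ((W.st i).st0_y_not_max (Nat.zero_le _)) h (W.st i).vy

theorem st0_y_below_weak_succ {j : ℕ} (hj : j < (W.st i).k) {c : P}
    (h : WeakCover ω c ((W.st i).y (j + 1))) : c = (W.st i).x j :=
  W.st0_lw ((W.st i).st0_y_not_max hj) h ((W.st i).xy' j hj)

/-- below `w k` -/
theorem st0_w_strict {c : P} (h : StrictCover ω c ((W.st i).w (W.st i).k)) : c = (W.st i).q := by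
  by_contra hne
  obtain ⟨i', _, h2, _⟩ := W.ls _ _ _ h (W.st i).qw hne
  exact W.wu _ _ h2

theorem st0_w_weak {c : P} (h : WeakCover ω c ((W.st i).w (W.st i).k)) :
    c = (W.st i).y (W.st i).k ∨ (1 ≤ (W.st i).k ∧ c = (W.st i).v) := by
  by_contra hne
  push Not at hne
  obtain ⟨i', h1, h2, h3⟩ := W.lw _ _ _ h ((W.st i).yw _ le_rfl) hne.1
  have h4 : i = i' := W.inj_w h2
  subst h4
  rcases h3 with h3 | h3
  · exact hne.2 h1 h3.1
  · exact hne.1 h3.2

/-- below `u` -/
theorem st0_u_weak {c : P} (h : WeakCover ω c (W.st i).u) : c = (W.st i).g := by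
  by_contra hne
  obtain ⟨i', _, h2, _⟩ := W.lw _ _ _ h (W.st i).gu hne
  exact W.wu _ _ h2.symm

theorem st0_u_strict {c : P} (h : StrictCover ω c (W.st i).u) :
    c = (W.st i).y 0 ∨ (1 ≤ (W.st i).k ∧ c = (W.st i).x (W.st i).k) := by
  by_contra hne
  push Not at hne
  obtain ⟨i', h1, h2, h3⟩ := W.ls _ _ _ h (W.st i).yu hne.1
  have h4 : i = i' := W.inj_u h2
  subst h4
  rcases h3 with h3 | h3
  · exact hne.2 h1 h3.1
  · exact hne.1 h3.2

/-- above `q` -/
theorem st0_q_strict {c : P} (h : StrictCover ω (W.st i).q c) :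
    c = (W.st i).w (W.st i).k := by
  by_contra hne
  obtain ⟨i', _, _, h3⟩ := W.us _ _ _ h (W.st i).qw hne
  rcases h3 with h3 | h3
  · exact W.wu _ _ h3.2
  · exact (W.st i').st0_y_not_max le_rfl (h3.1 ▸ (W.st i).wmax _ le_rfl)

/-- above `g` -/
theorem st0_g_weak {c : P} (h : WeakCover ω (W.st i).g c) : c = (W.st i).u := by
  by_contra hne
  obtain ⟨i', _, _, h3⟩ := W.uw _ _ _ h (W.st i).gu hne
  rcases h3 with h3 | h3
  · exact W.wu _ _ h3.2.symm
  · exact (W.st i').st0_y_not_max (Nat.zero_le _) (h3.1 ▸ (W.st i).umax)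

/-- above `v` -/
theorem st0_v_weak {c : P} (h : WeakCover ω (W.st i).v c) :
    c = (W.st i).y 0 ∨ (1 ≤ (W.st i).k ∧ c = (W.st i).w (W.st i).k) := by
  by_contra hne
  push Not at hne
  obtain ⟨i', h1, h2, h3⟩ := W.uw _ _ _ h (W.st i).vy hne.1
  rcases h3 with h3 | h3
  · exact (W.st i).st0_y_not_max (Nat.zero_le _) (h3.2 ▸ (W.st i').wmax _ le_rfl)
  · have h4 : (W.st i).u = (W.st i').u := by
      have h5 := (W.st i).yu
      rw [h3.1] at h5
      exact W.st0_us ((W.st i').st0_y_not_min (Nat.zero_le _)) h5 (W.st i').yu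
    have h6 : i = i' := W.inj_u h4
    subst h6
    exact hne.2 h1 h3.2

/-- above `x k` -/
theorem st0_x_strict {c : P} (h : StrictCover ω ((W.st i).x (W.st i).k) c) :
    c = (W.st i).y (W.st i).k ∨ (1 ≤ (W.st i).k ∧ c = (W.st i).u) := by
  by_contra hne
  push Not at hne
  obtain ⟨i', h1, h2, h3⟩ := W.us _ _ _ h ((W.st i).xy _ le_rfl) hne.1
  rcases h3 with h3 | h3
  · exact (W.st i).st0_y_not_max le_rfl (h3.2 ▸ (W.st i').umax)
  · have h4 : (W.st i).w (W.st i).k = (W.st i').w (W.st i').k := by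
      have h5 := (W.st i).yw _ le_rfl
      rw [h3.1] at h5
      exact W.st0_uw ((W.st i').st0_y_not_min le_rfl) h5 ((W.st i').yw _ le_rfl)
    have h6 : i = i' := W.inj_w h4
    subst h6
    exact hne.2 h1 h3.2

theorem st0_q_ne_x {j : ℕ} (hj : j ≤ (W.st i).k) : (W.st i).q ≠ (W.st i).x j := by
  intro h
  have h1 := (W.st i).xy j hj
  rw [← h] at h1
  have h2 := W.st0_q_strict i h1
  exact (W.st i).st0_y_not_max hj (h2 ▸ (W.st i).wmax _ le_rfl)

theorem st0_q_ne_v : (W.st i).q ≠ (W.st i).v := by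
  intro h
  have h1 := (W.st i).qw
  rw [h] at h1
  have h2 := (W.st i).vy
  rcases Nat.eq_zero_or_pos (W.st i).k with h3 | h3
  · rw [h3] at h1
    exact h1.1.2 h2.1.lt ((W.st i).yw 0 (by omega)).1.lt
  · exact h1.not_weak ((W.st i).vw h3)

theorem st0_g_ne_v : (W.st i).g ≠ (W.st i).v := by
  intro h
  have h1 := (W.st i).vy
  rw [← h] at h1
  have h2 := W.st0_g_weak i h1
  exact (W.st i).st0_y_not_max (Nat.zero_le _) (h2 ▸ (W.st i).umax)

theorem st0_q_not_max : ¬ IsMax (W.st i).q := fun h => h.not_lt (W.st i).qw.1.lt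

end World

/-! ### membership in the bases -/

theorem st0_mem_BC (t : Strip ω) (z : P) : z ∈ t.BC ↔ z = t.x t.k ∨ z = t.y t.k ∨ z = t.w t.k ∨
    z = t.q ∨ z = t.v ∨ (1 ≤ t.k ∧ z = t.x (t.k - 1)) := by
  unfold Strip.BC
  simp only [Finset.mem_insert, Finset.mem_singleton]
  split_ifs with h
  · constructor
    · intro h1
      tauto
    · intro h1
      rcases h1 with h1 | h1 | h1 | h1 | h1 | h1
      all_goals first | tauto | omega
  · constructor
    · intro h1
      have : 1 ≤ t.k := by omega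
      tauto
    · intro h1
      tauto

theorem st0_mem_BD (t : Strip ω) (z : P) : z ∈ t.BD ↔ z = t.v ∨ z = t.y 0 ∨ z = t.u ∨
    z = t.x 0 ∨ z = t.g ∨ z = t.x t.k := by
  unfold Strip.BD
  simp only [Finset.mem_insert, Finset.mem_singleton]

/-! ### rows -/

/-- the elements of `P ∖ U' ∖ A` without west neighbour outside `A` -/
noncomputable def st0_RW (ω : P → α) (A : Finset P) : Finset P :=
  univ.filter (fun x => x ∉ U (neg ω) ∧ x ∉ A ∧ ∀ y, WeakCover ω y x → y ∈ A)

theorem st0_mem_RW {A : Finset P} {x : P} : x ∈ st0_RW ω A ↔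
    x ∉ U (neg ω) ∧ x ∉ A ∧ ∀ y, WeakCover ω y x → y ∈ A := by
  simp [st0_RW]

theorem st0_mem_RW_empty {x : P} : x ∈ st0_RW ω ∅ ↔
    x ∉ U (neg ω) ∧ ∀ y, ¬ WeakCover ω y x := by
  simp [st0_RW]

theorem st0_mem_FA {A : Finset P} {x : {x : P // x ∉ U (neg ω)}} :
    x ∈ FA (ω := ω) A ↔ x.1 ∉ A := by
  simp [FA]

theorem st0_rows (h : Setup ω) (A : Finset P) :
    (sF h).toEG.rows (FA (ω := ω) A) = (st0_RW ω A).card := by
  unfold EG.rows
  rw [← Finset.card_map (Function.Embedding.subtype (fun x => x ∉ U (neg ω)))]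
  congr 1
  ext x
  rw [Finset.mem_map, st0_mem_RW]
  constructor
  · rintro ⟨a, ha, rfl⟩
    rw [Finset.mem_filter, st0_mem_FA] at ha
    refine ⟨a.2, ha.1, fun y hy => ?_⟩
    by_contra hyA
    refine ha.2 ⟨⟨y, st0_not_U_of_le hy.1.le a.2⟩, st0_mem_FA.2 hyA, hy⟩
  · rintro ⟨h1, h2, h3⟩
    refine ⟨⟨x, h1⟩, ?_, rfl⟩
    rw [Finset.mem_filter, st0_mem_FA]
    refine ⟨h2, ?_⟩
    rintro ⟨y, hy, hyx⟩
    exact st0_mem_FA.1 hy (h3 y.1 hyx)

theorem st0_min_RW {x : P} (h1 : x ∉ U (neg ω)) (h2 : IsMin x) : x ∈ st0_RW ω ∅ :=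
  st0_mem_RW_empty.2 ⟨h1, fun _ hy => h2.not_lt hy.1.lt⟩

theorem st0_rows_C (W : World ω) (i : W.ι) (hq : (W.st i).q ∉ U (neg ω)) {c : P}
    (hc : WeakCover ω (W.st i).q c) (hcU : c ∉ U (neg ω)) :
    (st0_RW ω ∅).card ≤ (st0_RW ω (W.st i).BC).card + 2 := by
  set t := W.st i with ht
  have hcm : ¬ IsMin c := fun h => h.not_lt hc.1.lt
  have hcM : ¬ IsMax c := fun h => hcU (st0_mem_U_of_max h)
  have hcy : c ≠ t.y t.k := by
    intro h
    rw [h] at hc
    rcases Nat.eq_zero_or_pos t.k with h1 | h1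
    · rw [h1] at hc
      exact W.st0_q_ne_v i (W.st0_y_below_weak_zero i hc)
    · obtain ⟨j, hj⟩ : ∃ j, t.k = j + 1 := ⟨t.k - 1, by omega⟩
      rw [hj] at hc
      exact W.st0_q_ne_x i (j := j) (by rw [← ht]; omega)
        (W.st0_y_below_weak_succ i (by rw [← ht]; omega) hc)
  have hcBC : c ∉ t.BC := by
    rw [st0_mem_BC]
    rintro (h | h | h | h | h | ⟨h0, h⟩)
    · exact hcm (h ▸ t.xmin _ le_rfl)
    · exact hcy h
    · exact hcU (h ▸ t.st0_w_U le_rfl)
    · exact hcm (h ▸ t.qmin)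
    · exact hcm (h ▸ t.vmin)
    · exact hcm (h ▸ t.xmin _ (by omega))
  have hc1 : c ∈ st0_RW ω t.BC := by
    refine st0_mem_RW.2 ⟨hcU, hcBC, fun y hy => ?_⟩
    rw [W.st0_lw hcM hy hc]
    exact (st0_mem_BC t _).2 (by tauto)
  have hc2 : c ∉ st0_RW ω ∅ := fun h => (st0_mem_RW_empty.1 h).2 _ hc
  have hyk : ∃ z, WeakCover ω z (t.y t.k) := by
    rcases Nat.eq_zero_or_pos t.k with h1 | h1
    · rw [h1]
      exact ⟨_, t.vy⟩
    · obtain ⟨j, hj⟩ : ∃ j, t.k = j + 1 := ⟨t.k - 1, by omega⟩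
      rw [hj]
      exact ⟨_, t.xy' j (by omega)⟩
  rcases Nat.eq_zero_or_pos t.k with hk | hk
  · have h1 : insert c (st0_RW ω ∅ \ {t.x t.k, t.q, t.v}) ⊆ st0_RW ω t.BC := by
      intro z hz
      rw [Finset.mem_insert, Finset.mem_sdiff, st0_mem_RW_empty] at hz
      rcases hz with rfl | ⟨⟨hz1, hz2⟩, hz3⟩
      · exact hc1
      · refine st0_mem_RW.2 ⟨hz1, ?_, fun y hy => absurd hy (hz2 y)⟩
        rw [st0_mem_BC]
        simp only [Finset.mem_insert, Finset.mem_singleton] at hz3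
        rintro (h | h | h | h | h | ⟨h0, h⟩)
        · tauto
        · obtain ⟨z', hz'⟩ := hyk
          exact hz2 _ (h ▸ hz')
        · exact hz1 (h ▸ t.st0_w_U le_rfl)
        · tauto
        · tauto
        · omega
    have h2 := Finset.card_le_card h1
    rw [Finset.card_insert_of_notMem (fun h => hc2 (Finset.mem_sdiff.1 h).1)] at h2
    have h3 := Finset.le_card_sdiff ({t.x t.k, t.q, t.v} : Finset P) (st0_RW ω ∅)
    have h4 : ({t.x t.k, t.q, t.v} : Finset P).card ≤ 3 := Finset.card_le_three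
    omega
  · have hy0 : t.y 0 ≠ t.y t.k := fun h => by
      have := t.st0_y_inj (Nat.zero_le _) le_rfl h
      omega
    have hy1 : t.y 0 ∉ t.BC := by
      rw [st0_mem_BC]
      have hm := t.st0_y_not_min (Nat.zero_le _)
      rintro (h | h | h | h | h | ⟨h0, h⟩)
      · exact hm (h ▸ t.xmin _ le_rfl)
      · exact hy0 h
      · exact t.st0_y_U (Nat.zero_le _) (h ▸ t.st0_w_U le_rfl)
      · exact hm (h ▸ t.qmin)
      · exact hm (h ▸ t.vmin)
      · exact hm (h ▸ t.xmin _ (by omega))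
    have hy2 : t.y 0 ∈ st0_RW ω t.BC := by
      refine st0_mem_RW.2 ⟨t.st0_y_U (Nat.zero_le _), hy1, fun y hy => ?_⟩
      rw [W.st0_y_below_weak_zero i hy]
      exact (st0_mem_BC t _).2 (by tauto)
    have hy3 : t.y 0 ∉ st0_RW ω ∅ := fun h => (st0_mem_RW_empty.1 h).2 _ t.vy
    have hyc : c ≠ t.y 0 := by
      intro h
      rw [h] at hc
      exact W.st0_q_ne_v i (W.st0_y_below_weak_zero i hc)
    have h1 : insert c (insert (t.y 0) (st0_RW ω ∅ \ {t.x t.k, t.q, t.v, t.x (t.k - 1)})) ⊆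
        st0_RW ω t.BC := by
      intro z hz
      rw [Finset.mem_insert, Finset.mem_insert, Finset.mem_sdiff, st0_mem_RW_empty] at hz
      rcases hz with rfl | rfl | ⟨⟨hz1, hz2⟩, hz3⟩
      · exact hc1
      · exact hy2
      · refine st0_mem_RW.2 ⟨hz1, ?_, fun y hy => absurd hy (hz2 y)⟩
        rw [st0_mem_BC]
        simp only [Finset.mem_insert, Finset.mem_singleton] at hz3
        rintro (h | h | h | h | h | ⟨h0, h⟩)
        · tauto
        · obtain ⟨z', hz'⟩ := hyk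
          exact hz2 _ (h ▸ hz')
        · exact hz1 (h ▸ t.st0_w_U le_rfl)
        · tauto
        · tauto
        · tauto
    have h2 := Finset.card_le_card h1
    rw [Finset.card_insert_of_notMem, Finset.card_insert_of_notMem
      (fun h => hy3 (Finset.mem_sdiff.1 h).1)] at h2
    · have h3 := Finset.le_card_sdiff ({t.x t.k, t.q, t.v, t.x (t.k - 1)} : Finset P)
        (st0_RW ω ∅)
      have h4 : ({t.x t.k, t.q, t.v, t.x (t.k - 1)} : Finset P).card ≤ 4 := Finset.card_le_four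
      omega
    · rw [Finset.mem_insert]
      rintro (h | h)
      · exact hyc h
      · exact hc2 (Finset.mem_sdiff.1 h).1

theorem st0_rows_D (W : World ω) (i : W.ι) :
    (st0_RW ω (W.st i).BD).card + 3 ≤ (st0_RW ω ∅).card := by
  set t := W.st i with ht
  have hvx : t.v ≠ t.x 0 := (t.st0_x_ne_v (Nat.zero_le _)).symm
  have hvg : t.v ≠ t.g := (W.st0_g_ne_v i).symm
  have hxg : t.x 0 ≠ t.g := t.st0_x_ne_g (Nat.zero_le _)
  have iv : t.v ∈ st0_RW ω ∅ := st0_min_RW t.st0_v_U t.vmin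
  have ig : t.g ∈ st0_RW ω ∅ := st0_min_RW t.st0_g_U t.gmin
  have ix : ∀ j ≤ t.k, t.x j ∈ st0_RW ω ∅ := fun j hj => st0_min_RW (t.st0_x_U hj) (t.xmin j hj)
  -- where the west neighbours of the cells of `RW BD` are
  have hW : ∀ z ∈ st0_RW ω t.BD, ∀ y, WeakCover ω y z → 1 ≤ t.k ∧ y = t.x 0 := by
    intro z hz y hy
    obtain ⟨hz1, hz2, hz3⟩ := st0_mem_RW.1 hz
    have hyB := hz3 y hy
    rw [st0_mem_BD] at hyB
    rcases hyB with h | h | h | h | h | h
    · rw [h] at hy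
      rcases W.st0_v_weak i hy with h1 | ⟨_, h1⟩
      · exact absurd ((st0_mem_BD t z).2 (by tauto)) hz2
      · exact absurd (h1 ▸ t.st0_w_U le_rfl) hz1
    · rw [h] at hy
      exact absurd (W.st0_y_weak i (Nat.zero_le _) hy ▸ t.st0_w_U (Nat.zero_le _)) hz1
    · rw [h] at hy
      exact absurd hy.1.lt t.umax.not_lt
    · rcases Nat.eq_zero_or_pos t.k with h1 | h1
      · rw [h, ← h1] at hy
        exact absurd (st0_mem_U_of_max (t.emax _ hy)) hz1
      · exact ⟨h1, h⟩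
    · rw [h] at hy
      exact absurd (W.st0_g_weak i hy ▸ t.st0_u_U) hz1
    · rw [h] at hy
      exact absurd (st0_mem_U_of_max (t.emax _ hy)) hz1
  rcases Nat.eq_zero_or_pos t.k with hk | hk
  · have h1 : st0_RW ω t.BD ⊆ st0_RW ω ∅ \ {t.v, t.x 0, t.g} := by
      intro z hz
      obtain ⟨hz1, hz2, hz3⟩ := st0_mem_RW.1 hz
      rw [Finset.mem_sdiff, st0_mem_RW_empty]
      refine ⟨⟨hz1, fun y hy => ?_⟩, ?_⟩
      · have := (hW z hz y hy).1
        omega
      · rw [st0_mem_BD] at hz2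
        simp only [Finset.mem_insert, Finset.mem_singleton]
        tauto
    have h2 := Finset.card_le_card h1
    have h3 : ({t.v, t.x 0, t.g} : Finset P) ⊆ st0_RW ω ∅ := by
      intro z hz
      simp only [Finset.mem_insert, Finset.mem_singleton] at hz
      rcases hz with rfl | rfl | rfl
      · exact iv
      · exact ix 0 (Nat.zero_le _)
      · exact ig
    have h4 : ({t.v, t.x 0, t.g} : Finset P).card = 3 := Finset.card_eq_three.2
      ⟨_, _, _, hvx, hvg, hxg, rfl⟩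
    have h5 := Finset.card_le_card h3
    rw [Finset.card_sdiff_of_subset h3] at h2
    omega
  · have hxk : t.x 0 ≠ t.x t.k := fun h => by
      have := t.st0_x_inj (Nat.zero_le _) le_rfl h
      omega
    have hvk : t.v ≠ t.x t.k := (t.st0_x_ne_v le_rfl).symm
    have hgk : t.g ≠ t.x t.k := (t.st0_x_ne_g le_rfl).symm
    have h1 : st0_RW ω t.BD ⊆ insert (t.y 1) (st0_RW ω ∅ \ {t.v, t.x 0, t.g, t.x t.k}) := by
      intro z hz
      obtain ⟨hz1, hz2, hz3⟩ := st0_mem_RW.1 hz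
      rw [Finset.mem_insert, Finset.mem_sdiff, st0_mem_RW_empty]
      by_cases hzy : z = t.y 1
      · exact Or.inl hzy
      · right
        refine ⟨⟨hz1, fun y hy => hzy ?_⟩, ?_⟩
        · obtain ⟨-, hy2⟩ := hW z hz y hy
          rw [hy2] at hy
          by_contra hne
          obtain ⟨i', hk', h5, h6⟩ := W.uw _ _ _ hy (t.xy' 0 hk) hne
          rcases h6 with h6 | h6
          · exact t.st0_y_not_max hk (h6.2 ▸ (W.st i').wmax _ le_rfl)
          · exact hz1 (h6.2 ▸ (W.st i').st0_w_U le_rfl)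
        · rw [st0_mem_BD] at hz2
          simp only [Finset.mem_insert, Finset.mem_singleton]
          tauto
    have h2 := (Finset.card_le_card h1).trans (Finset.card_insert_le _ _)
    have h3 : ({t.v, t.x 0, t.g, t.x t.k} : Finset P) ⊆ st0_RW ω ∅ := by
      intro z hz
      simp only [Finset.mem_insert, Finset.mem_singleton] at hz
      rcases hz with rfl | rfl | rfl | rfl
      · exact iv
      · exact ix 0 (Nat.zero_le _)
      · exact ig
      · exact ix _ le_rfl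
    have h4 : ({t.v, t.x 0, t.g, t.x t.k} : Finset P).card = 4 := by
      rw [Finset.card_insert_of_notMem, Finset.card_eq_three.2 ⟨_, _, _, hxg, hxk, hgk, rfl⟩]
      simp only [Finset.mem_insert, Finset.mem_singleton]
      tauto
    have h5 := Finset.card_le_card h3
    rw [Finset.card_sdiff_of_subset h3] at h2
    omega

end Pool.PP2
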