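import Pool.Agent.Lib.PP2.G.St0
import Pool.Agent.Lib.PP2.E10

/-!
# step 0: the polynomials of the complements of the two bases are equal
-/

namespace Pool.PP2

open Finset Classical Pool.PPart

variable {P : Type*} {α : Type*} [PartialOrder P] [Fintype P] [LinearOrder α]
variable {ω : P → α}

theorem st0_K_image {M M' : Type*} (Q : EG M) (Q' : EG M') (F : Finset M) (f : M → M')
    (F' : Finset M') (hF : ∀ z, z ∈ F' ↔ ∃ n ∈ F, f n = z)
    (hinj : Set.InjOn f F) (hs : ∀ x ∈ F, ∀ y ∈ F, (Q.s x y ↔ Q'.s (f x) (f y)))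
    (hw : ∀ x ∈ F, ∀ y ∈ F, (Q.w x y ↔ Q'.w (f x) (f y))) : K Q F = K Q' F' := by
  have h : F' = F.image f := by
    ext z
    rw [hF, Finset.mem_image]
  rw [h]
  exact K_image Q Q' F f hinj hs hw

theorem st0_K_union {M : Type*} (Q : EG M) {F G H : Finset M}
    (hF : ∀ z, z ∈ F ↔ z ∈ G ∨ z ∈ H) (hd : Disjoint G H)
    (hne : ∀ x ∈ G, ∀ y ∈ H, ¬ Q.e x y ∧ ¬ Q.e y x) : K Q F = K Q G * K Q H := by
  have h : F = G ∪ H := by
    ext z
    rw [hF, Finset.mem_union]
  rw [h]
  exact K_union Q hd hne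

/-- the zigzag graph on `ℕ`: even numbers are the `y`, odd numbers are the `x` -/
def st0_Z : EG ℕ where
  s m n := m = n + 1 ∧ n % 2 = 0
  w m n := n = m + 1 ∧ m % 2 = 1
  lab n := n
  rk n := ((n + 1) % 2 : ℕ)
  lab_s h := by omega
  lab_w h := by omega
  rk_s h := by omega
  rk_w h := by omega

namespace Strip

variable (t : Strip ω)

/-- the cells of the strip -/
def st0_z (n : ℕ) : P := if n % 2 = 0 then t.y (n / 2) else t.x (n / 2)

theorem st0_z_even (j : ℕ) : t.st0_z (2 * j) = t.y j := by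
  unfold st0_z
  rw [if_pos (by omega)]
  congr 1
  omega

theorem st0_z_odd (j : ℕ) : t.st0_z (2 * j + 1) = t.x j := by
  unfold st0_z
  rw [if_neg (by omega)]
  congr 1
  omega

theorem st0_z_cases (n : ℕ) : (∃ j, n = 2 * j ∧ t.st0_z n = t.y j) ∨
    (∃ j, n = 2 * j + 1 ∧ t.st0_z n = t.x j) := by
  rcases Nat.mod_two_eq_zero_or_one n with h | h
  · exact Or.inl ⟨n / 2, by omega, by rw [← t.st0_z_even]; congr 1; omega⟩
  · exact Or.inr ⟨n / 2, by omega, by rw [← t.st0_z_odd]; congr 1; omega⟩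

theorem st0_z_U {n : ℕ} (hn : n ≤ 2 * t.k + 1) : t.st0_z n ∉ U (neg ω) := by
  rcases t.st0_z_cases n with ⟨j, h1, h2⟩ | ⟨j, h1, h2⟩
  · rw [h2]
    exact t.st0_y_U (by omega)
  · rw [h2]
    exact t.st0_x_U (by omega)

theorem st0_z_inj {m n : ℕ} (hm : m ≤ 2 * t.k + 1) (hn : n ≤ 2 * t.k + 1)
    (h : t.st0_z m = t.st0_z n) : m = n := by
  rcases t.st0_z_cases m with ⟨j, h1, h2⟩ | ⟨j, h1, h2⟩ <;>
  rcases t.st0_z_cases n with ⟨j', h3, h4⟩ | ⟨j', h3, h4⟩ <;> rw [h2, h4] at h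
  · have := t.st0_y_inj (by omega) (by omega) h
    omega
  · exact absurd h.symm (t.st0_xy_ne (by omega) (by omega))
  · exact absurd h (t.st0_xy_ne (by omega) (by omega))
  · have := t.st0_x_inj (by omega) (by omega) h
    omega

/-- the same, as an element of `P ∖ U'` -/
noncomputable def st0_f (a n : ℕ) : {x : P // x ∉ U (neg ω)} :=
  if h : t.st0_z (n + a) ∉ U (neg ω) then ⟨t.st0_z (n + a), h⟩ else ⟨t.v, t.st0_v_U⟩

theorem st0_f_val {a n : ℕ} (hn : n + a ≤ 2 * t.k + 1) : (t.st0_f a n).1 = t.st0_z (n + a) := by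
  unfold st0_f
  rw [dif_pos (t.st0_z_U hn)]

end Strip

theorem st0_strict_iff (W : World ω) (i : W.ι) {m n : ℕ} (hm : m ≤ 2 * (W.st i).k)
    (hn : n ≤ 2 * (W.st i).k) :
    StrictCover ω ((W.st i).st0_z m) ((W.st i).st0_z n) ↔ m = n + 1 ∧ n % 2 = 0 := by
  set t := W.st i with ht
  constructor
  · intro h
    rcases t.st0_z_cases n with ⟨j', h3, h4⟩ | ⟨j', h3, h4⟩
    · rcases t.st0_z_cases m with ⟨j, h1, h2⟩ | ⟨j, h1, h2⟩
      · rw [h2, h4] at h
        exact absurd (W.st0_y_strict i (by rw [← ht]; omega) h) (t.st0_y_not_max (by omega))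
      · rw [h2, h4] at h
        have h5 := W.st0_y_below_strict i (by rw [← ht]; omega) h
        have := t.st0_x_inj (by omega) (by omega) h5
        omega
    · rw [h4] at h
      exact absurd h.1.lt (t.xmin j' (by omega)).not_lt
  · rintro ⟨h1, h2⟩
    obtain ⟨j, hj⟩ : ∃ j, n = 2 * j := ⟨n / 2, by omega⟩
    subst hj
    subst h1
    rw [t.st0_z_even, t.st0_z_odd]
    exact t.xy j (by omega)

theorem st0_weak_iff (W : World ω) (i : W.ι) {m n : ℕ} (hm : m ≤ 2 * (W.st i).k)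
    (hn : n ≤ 2 * (W.st i).k) :
    WeakCover ω ((W.st i).st0_z m) ((W.st i).st0_z n) ↔ n = m + 1 ∧ m % 2 = 1 := by
  set t := W.st i with ht
  constructor
  · intro h
    rcases t.st0_z_cases n with ⟨j', h3, h4⟩ | ⟨j', h3, h4⟩
    · rcases t.st0_z_cases m with ⟨j, h1, h2⟩ | ⟨j, h1, h2⟩
      · rw [h2, h4] at h
        have h5 := W.st0_y_weak i (by rw [← ht]; omega) h
        exact absurd (h5 ▸ t.wmax j (by omega)) (t.st0_y_not_max (by omega))
      · rw [h2, h4] at h
        rcases Nat.eq_zero_or_pos j' with h6 | h6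
        · subst h6
          exact absurd (W.st0_y_below_weak_zero i h) (t.st0_x_ne_v (by omega))
        · obtain ⟨j'', h7⟩ : ∃ j'', j' = j'' + 1 := ⟨j' - 1, by omega⟩
          subst h7
          have h5 := W.st0_y_below_weak_succ i (by rw [← ht]; omega) h
          have := t.st0_x_inj (by omega) (by omega) h5
          omega
    · rw [h4] at h
      exact absurd h.1.lt (t.xmin j' (by omega)).not_lt
  · rintro ⟨h1, h2⟩
    obtain ⟨j, hj⟩ : ∃ j, m = 2 * j + 1 := ⟨m / 2, by omega⟩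
    subst hj
    subst h1
    rw [show 2 * j + 1 + 1 = 2 * (j + 1) by ring, t.st0_z_even, t.st0_z_odd]
    exact t.xy' j (by omega)

/-- the path `z a, …, z (a + 2 k - 2)` -/
noncomputable def st0_path (t : Strip ω) (a : ℕ) : Finset {x : P // x ∉ U (neg ω)} :=
  univ.filter (fun z => ∃ n, n < 2 * t.k - 1 ∧ z.1 = t.st0_z (n + a))

theorem st0_mem_path {t : Strip ω} {a : ℕ} {z : {x : P // x ∉ U (neg ω)}} :
    z ∈ st0_path t a ↔ ∃ n, n < 2 * t.k - 1 ∧ z.1 = t.st0_z (n + a) := by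
  simp [st0_path]

/-- the two paths have the same polynomial as the zigzag -/
theorem st0_K_path (h : Setup ω) (W : World ω) (i : W.ι) {a : ℕ} (ha : a = 0 ∨ a = 2) :
    K (sF h).toEG (st0_path (W.st i) a) = K st0_Z (range (2 * (W.st i).k - 1)) := by
  set t := W.st i with ht
  symm
  have hr : ∀ n ∈ range (2 * t.k - 1), n + a ≤ 2 * t.k := by
    intro n hn
    rw [Finset.mem_range] at hn
    omega
  refine st0_K_image st0_Z (sF h).toEG (range (2 * t.k - 1)) (t.st0_f a) _ ?_ ?_ ?_ ?_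
  · intro z
    rw [st0_mem_path]
    constructor
    · rintro ⟨n, hn, hz⟩
      refine ⟨n, Finset.mem_range.2 hn, Subtype.ext ?_⟩
      rw [hz, t.st0_f_val (by have := hr n (Finset.mem_range.2 hn); omega)]
    · rintro ⟨n, hn, rfl⟩
      exact ⟨n, Finset.mem_range.1 hn, t.st0_f_val (by have := hr n hn; omega)⟩
  · intro m hm n hn hmn
    have hm' := hr m (by exact_mod_cast hm)
    have hn' := hr n (by exact_mod_cast hn)
    have h1 := congrArg Subtype.val hmn
    rw [t.st0_f_val (by omega), t.st0_f_val (by omega)] at h1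
    have := t.st0_z_inj (by omega) (by omega) h1
    omega
  · intro m hm n hn
    show _ ↔ StrictCover ω (t.st0_f a m).1 (t.st0_f a n).1
    have hm' := hr m hm
    have hn' := hr n hn
    rw [t.st0_f_val (by omega), t.st0_f_val (by omega), st0_strict_iff W i hm' hn']
    show m = n + 1 ∧ n % 2 = 0 ↔ _
    omega
  · intro m hm n hn
    show _ ↔ WeakCover ω (t.st0_f a m).1 (t.st0_f a n).1
    have hm' := hr m hm
    have hn' := hr n hn
    rw [t.st0_f_val (by omega), t.st0_f_val (by omega), st0_weak_iff W i hm' hn']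
    show n = m + 1 ∧ m % 2 = 1 ↔ _
    omega

/-- a point -/
theorem st0_K_point {M : Type*} (Q : EG M) (a b : M) : K Q {a} = K Q {b} := by
  have hs : ∀ c : M, ¬ Q.s c c := fun c h => lt_irrefl _ (Q.lab_s h)
  have hw : ∀ c : M, ¬ Q.w c c := fun c h => lt_irrefl _ (Q.lab_w h)
  have h := K_image Q Q {a} (fun _ => b) (by simp) (by
    intro x hx y hy
    rw [Finset.mem_singleton] at hx hy
    subst hx
    subst hy
    simp [hs]) (by
    intro x hx y hy
    rw [Finset.mem_singleton] at hx hy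
    subst hx
    subst hy
    simp [hw])
  rw [h]
  simp

/-- the cells of the strip which are not in `U'` -/
def st0_S (t : Strip ω) (z : P) : Prop :=
  (∃ n ≤ 2 * t.k + 1, z = t.st0_z n) ∨ z = t.v ∨ z = t.g ∨ z = t.q

/-- all covers in `P ∖ U'` of the cells of a strip are in the strip -/
theorem st0_S_up (h : Setup ω) (W : World ω) (i : W.ι)
    (hq : ∀ c, WeakCover ω (W.st i).q c → c ∈ U (neg ω)) {a b : P} (hab : a ⋖ b)
    (hb : b ∉ U (neg ω)) (ha : st0_S (W.st i) a) :
    st0_S (W.st i) b ∧ a ≠ (W.st i).g ∧ a ≠ (W.st i).q := by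
  set t := W.st i with ht
  have haU : a ∉ U (neg ω) := st0_not_U_of_le hab.le hb
  have hzS : ∀ n ≤ 2 * t.k + 1, st0_S t (t.st0_z n) := fun n hn => Or.inl ⟨n, hn, rfl⟩
  rcases ha with ⟨n, hn, ha⟩ | ha | ha | ha
  · rcases t.st0_z_cases n with ⟨j, h1, h2⟩ | ⟨j, h1, h2⟩
    · exfalso
      rw [ha, h2] at hab
      rcases strict_or_weak h.inj hab with h3 | h3
      · exact hb (st0_mem_U_of_max (W.st0_y_strict i (by rw [← ht]; omega) h3))
      · exact hb (W.st0_y_weak i (by rw [← ht]; omega) h3 ▸ t.st0_w_U (by omega))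
    · rw [h2] at ha
      rw [ha] at hab haU ⊢
      refine ⟨?_, t.st0_x_ne_g (by omega), (W.st0_q_ne_x i (by rw [← ht]; omega)).symm⟩
      rcases strict_or_weak h.inj hab with h3 | h3
      · have h4 := h.R'.us _ _ _ haU hb (t.st0_y_U (by omega)) h3 (t.xy j (by omega))
        rw [h4, ← t.st0_z_even]
        exact hzS _ (by omega)
      · rcases Nat.lt_or_ge j t.k with h5 | h5
        · have h4 := h.R'.uw _ _ _ haU hb (t.st0_y_U (by omega)) h3 (t.xy' j h5)
          rw [h4, ← t.st0_z_even]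
          exact hzS _ (by omega)
        · have h6 : j = t.k := by omega
          rw [h6] at h3
          exact absurd (st0_mem_U_of_max (t.emax _ h3)) hb
  · rw [ha] at hab haU ⊢
    refine ⟨?_, (W.st0_g_ne_v i).symm, (W.st0_q_ne_v i).symm⟩
    rcases strict_or_weak h.inj hab with h3 | h3
    · exact absurd (st0_mem_U_of_max (t.fmax _ h3)) hb
    · have h4 := h.R'.uw _ _ _ haU hb (t.st0_y_U (Nat.zero_le _)) h3 t.vy
      rw [h4, ← t.st0_z_even]
      exact hzS _ (by omega)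
  · exfalso
    rw [ha] at hab
    rcases strict_or_weak h.inj hab with h3 | h3
    · exact hb (t.giso _ h3)
    · exact hb (W.st0_g_weak i h3 ▸ t.st0_u_U)
  · exfalso
    rw [ha] at hab
    rcases strict_or_weak h.inj hab with h3 | h3
    · exact hb (W.st0_q_strict i h3 ▸ t.st0_w_U le_rfl)
    · exact hb (hq _ h3)

theorem st0_S_down (h : Setup ω) (W : World ω) (i : W.ι) {a b : P} (hab : a ⋖ b)
    (hb : st0_S (W.st i) b) : st0_S (W.st i) a := by
  set t := W.st i with ht
  have hzS : ∀ n ≤ 2 * t.k + 1, st0_S t (t.st0_z n) := fun n hn => Or.inl ⟨n, hn, rfl⟩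
  rcases hb with ⟨n, hn, hb⟩ | hb | hb | hb
  · rcases t.st0_z_cases n with ⟨j, h1, h2⟩ | ⟨j, h1, h2⟩
    · rw [hb, h2] at hab
      rcases strict_or_weak h.inj hab with h3 | h3
      · rw [W.st0_y_below_strict i (by rw [← ht]; omega) h3, ← ht, ← t.st0_z_odd]
        exact hzS _ (by omega)
      · rcases Nat.eq_zero_or_pos j with h6 | h6
        · subst h6
          rw [W.st0_y_below_weak_zero i h3]
          exact Or.inr (Or.inl rfl)
        · obtain ⟨j'', h7⟩ : ∃ j'', j = j'' + 1 := ⟨j - 1, by omega⟩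
          subst h7
          rw [W.st0_y_below_weak_succ i (by rw [← ht]; omega) h3, ← ht, ← t.st0_z_odd]
          exact hzS _ (by omega)
    · rw [hb, h2] at hab
      exact absurd hab.lt (t.xmin j (by omega)).not_lt
  · rw [hb] at hab
    exact absurd hab.lt t.vmin.not_lt
  · rw [hb] at hab
    exact absurd hab.lt t.gmin.not_lt
  · rw [hb] at hab
    exact absurd hab.lt t.qmin.not_lt

theorem st0_e {h : Setup ω} {a b : {x : P // x ∉ U (neg ω)}} (he : (sF h).toEG.e a b) :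
    a.1 ⋖ b.1 := by
  rcases he with he | he
  · exact (show StrictCover ω a.1 b.1 from he).1
  · exact (show WeakCover ω a.1 b.1 from he).1

/-- the rest -/
noncomputable def st0_R (t : Strip ω) : Finset {x : P // x ∉ U (neg ω)} :=
  univ.filter (fun z => ¬ st0_S t z.1)

theorem st0_mem_R {t : Strip ω} {z : {x : P // x ∉ U (neg ω)}} :
    z ∈ st0_R t ↔ ¬ st0_S t z.1 := by
  simp [st0_R]

/-- the point `c` if it is not `d` -/
noncomputable def st0_G (ω : P → α) (c d : P) : Finset {x : P // x ∉ U (neg ω)} :=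
  univ.filter (fun z => z.1 = c ∧ z.1 ≠ d)

theorem st0_mem_G {c d : P} {z : {x : P // x ∉ U (neg ω)}} :
    z ∈ st0_G ω c d ↔ z.1 = c ∧ z.1 ≠ d := by
  simp [st0_G]

theorem st0_K_G (h : Setup ω) {c d : P} (hc : c ∉ U (neg ω)) (hd : d ∉ U (neg ω)) :
    K (sF h).toEG (st0_G ω c d) = K (sF h).toEG (st0_G ω d c) := by
  by_cases hcd : c = d
  · subst hcd
    rfl
  · have e1 : st0_G ω c d = {⟨c, hc⟩} := by
      ext z
      rw [st0_mem_G, Finset.mem_singleton]
      constructor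
      · rintro ⟨h1, _⟩
        exact Subtype.ext h1
      · rintro rfl
        exact ⟨rfl, hcd⟩
    have e2 : st0_G ω d c = {⟨d, hd⟩} := by
      ext z
      rw [st0_mem_G, Finset.mem_singleton]
      constructor
      · rintro ⟨h1, _⟩
        exact Subtype.ext h1
      · rintro rfl
        exact ⟨rfl, Ne.symm hcd⟩
    rw [e1, e2]
    exact st0_K_point _ _ _

theorem st0_path_S {t : Strip ω} {a : ℕ} (ha : a ≤ 2) {z : {x : P // x ∉ U (neg ω)}}
    (hz : z ∈ st0_path t a) : st0_S t z.1 := by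
  obtain ⟨n, hn, h1⟩ := st0_mem_path.1 hz
  exact Or.inl ⟨n + a, by omega, h1⟩

theorem st0_z_ne_g (W : World ω) (i : W.ι) {n : ℕ} (hn : n ≤ 2 * (W.st i).k + 1) :
    (W.st i).st0_z n ≠ (W.st i).g := by
  set t := W.st i with ht
  intro h
  rcases t.st0_z_cases n with ⟨j, h1, h2⟩ | ⟨j, h1, h2⟩
  · rw [h2] at h
    exact t.st0_y_not_min (j := j) (by omega) (h ▸ t.gmin)
  · rw [h2] at h
    exact t.st0_x_ne_g (j := j) (by omega) h

theorem st0_z_ne_q (W : World ω) (i : W.ι) {n : ℕ} (hn : n ≤ 2 * (W.st i).k + 1) :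
    (W.st i).st0_z n ≠ (W.st i).q := by
  set t := W.st i with ht
  intro h
  rcases t.st0_z_cases n with ⟨j, h1, h2⟩ | ⟨j, h1, h2⟩
  · rw [h2] at h
    exact t.st0_y_not_min (j := j) (by omega) (h ▸ t.qmin)
  · rw [h2] at h
    exact W.st0_q_ne_x i (j := j) (by rw [← ht]; omega) h.symm

theorem st0_z_ne_v (W : World ω) (i : W.ι) {n : ℕ} (hn : n ≤ 2 * (W.st i).k + 1) :
    (W.st i).st0_z n ≠ (W.st i).v := by
  set t := W.st i with ht
  intro h
  rcases t.st0_z_cases n with ⟨j, h1, h2⟩ | ⟨j, h1, h2⟩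
  · rw [h2] at h
    exact t.st0_y_not_min (j := j) (by omega) (h ▸ t.vmin)
  · rw [h2] at h
    exact t.st0_x_ne_v (j := j) (by omega) h

/-- the polynomial of the rest, a path and a point -/
theorem st0_K_split (h : Setup ω) (W : World ω) (i : W.ι)
    (hq : ∀ c, WeakCover ω (W.st i).q c → c ∈ U (neg ω)) {a : ℕ} (ha : a = 0 ∨ a = 2) {c d : P}
    (hc : c = (W.st i).g ∨ c = (W.st i).q) {F : Finset {x : P // x ∉ U (neg ω)}}
    (hF : ∀ z, z ∈ F ↔ (z ∈ st0_R (W.st i) ∨ z ∈ st0_path (W.st i) a) ∨ z ∈ st0_G ω c d) :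
    K (sF h).toEG F =
      K (sF h).toEG (st0_R (W.st i)) * K (sF h).toEG (st0_path (W.st i) a) *
        K (sF h).toEG (st0_G ω c d) := by
  set t := W.st i with ht
  have hcS : st0_S t c := by
    rcases hc with hc | hc
    · exact Or.inr (Or.inr (Or.inl hc))
    · exact Or.inr (Or.inr (Or.inr hc))
  have hcm : IsMin c := by
    rcases hc with hc | hc
    · exact hc ▸ t.gmin
    · exact hc ▸ t.qmin
  set F1 : Finset {x : P // x ∉ U (neg ω)} :=
    univ.filter (fun z => z ∈ st0_R t ∨ z ∈ st0_path t a) with hF1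
  have hF1m : ∀ z, z ∈ F1 ↔ z ∈ st0_R t ∨ z ∈ st0_path t a := by
    intro z
    simp [hF1]
  have h1 : K (sF h).toEG F1 =
      K (sF h).toEG (st0_R t) * K (sF h).toEG (st0_path t a) := by
    refine st0_K_union _ hF1m ?_ ?_
    · rw [Finset.disjoint_left]
      intro z hz hz'
      exact st0_mem_R.1 hz (st0_path_S (by omega) hz')
    · intro x hx y hy
      have hyS := st0_path_S (by omega) hy
      refine ⟨fun he => ?_, fun he => ?_⟩
      · exact st0_mem_R.1 hx (st0_S_down h W i (st0_e he) hyS)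
      · exact st0_mem_R.1 hx (st0_S_up h W i hq (st0_e he) x.2 hyS).1
  rw [← h1]
  refine st0_K_union _ (fun z => by rw [hF, hF1m]) ?_ ?_
  · rw [Finset.disjoint_left]
    intro z hz hz'
    obtain ⟨h2, -⟩ := st0_mem_G.1 hz'
    rw [hF1m] at hz
    rcases hz with hz | hz
    · exact st0_mem_R.1 hz (h2 ▸ hcS)
    · obtain ⟨n, hn, h3⟩ := st0_mem_path.1 hz
      rcases hc with hc | hc
      · exact st0_z_ne_g W i (n := n + a) (by rw [← ht]; omega) (h3.symm.trans (h2.trans hc))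
      · exact st0_z_ne_q W i (n := n + a) (by rw [← ht]; omega) (h3.symm.trans (h2.trans hc))
  · intro x hx y hy
    obtain ⟨h2, -⟩ := st0_mem_G.1 hy
    refine ⟨fun he => ?_, fun he => ?_⟩
    · have := st0_e he
      rw [h2] at this
      exact hcm.not_lt this.lt
    · have h3 := st0_S_up h W i hq (st0_e he) x.2 (h2 ▸ hcS)
      rw [h2] at h3
      rcases hc with hc | hc
      · exact h3.2.1 hc
      · exact h3.2.2 hc

theorem st0_FA_BC (W : World ω) (i : W.ι) (z : {x : P // x ∉ U (neg ω)}) :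
    z ∈ FA (ω := ω) (W.st i).BC ↔ (z ∈ st0_R (W.st i) ∨ z ∈ st0_path (W.st i) 0) ∨
      z ∈ st0_G ω (W.st i).g (W.st i).q := by
  set t := W.st i with ht
  rw [st0_mem_FA, st0_mem_R, st0_mem_path, st0_mem_G, st0_mem_BC]
  constructor
  · intro h1
    by_cases hS : st0_S t z.1
    · rcases hS with ⟨n, hn, h2⟩ | h2 | h2 | h2
      · refine Or.inl (Or.inr ⟨n, ?_, h2⟩)
        by_contra hn2
        rcases t.st0_z_cases n with ⟨j, h3, h4⟩ | ⟨j, h3, h4⟩
        · have : j = t.k := by omega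
          rw [h4, this] at h2
          exact h1 (Or.inr (Or.inl h2))
        · rcases Nat.lt_or_ge j t.k with h5 | h5
          · have : j = t.k - 1 := by omega
            rw [h4, this] at h2
            exact h1 (Or.inr (Or.inr (Or.inr (Or.inr (Or.inr ⟨by omega, h2⟩)))))
          · have : j = t.k := by omega
            rw [h4, this] at h2
            exact h1 (Or.inl h2)
      · exact absurd (Or.inr (Or.inr (Or.inr (Or.inr (Or.inl h2))))) h1
      · refine Or.inr ⟨h2, fun h3 => h1 (Or.inr (Or.inr (Or.inr (Or.inl h3))))⟩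
      · exact absurd (Or.inr (Or.inr (Or.inr (Or.inl h2)))) h1
    · exact Or.inl (Or.inl hS)
  · intro h1 h2
    have hkS : ∀ n ≤ 2 * t.k + 1, z.1 = t.st0_z n → 2 * t.k ≤ n + 1 →
        (¬ st0_S t z.1 ∨ ∃ n < 2 * t.k - 1, z.1 = t.st0_z (n + 0)) ∨ z.1 = t.g ∧ z.1 ≠ t.q →
        False := by
      intro n hn h3 h4 h5
      rcases h5 with (h5 | ⟨n', hn', h5⟩) | ⟨h5, _⟩
      · exact h5 (Or.inl ⟨n, hn, h3⟩)
      · have := t.st0_z_inj hn (by omega) (h3.symm.trans h5)
        omega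
      · exact st0_z_ne_g W i hn (h3.symm.trans h5)
    rcases h2 with h2 | h2 | h2 | h2 | h2 | ⟨hk, h2⟩
    · exact hkS (2 * t.k + 1) le_rfl (by rw [t.st0_z_odd]; exact h2) (by omega) h1
    · exact hkS (2 * t.k) (by omega) (by rw [t.st0_z_even]; exact h2) (by omega) h1
    · exact z.2 (h2 ▸ t.st0_w_U le_rfl)
    · rcases h1 with (h1 | ⟨n, hn, h1⟩) | ⟨h1, h3⟩
      · exact h1 (Or.inr (Or.inr (Or.inr h2)))
      · exact st0_z_ne_q W i (n := n + 0) (by rw [← ht]; omega) (h1.symm.trans h2)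
      · exact h3 h2
    · rcases h1 with (h1 | ⟨n, hn, h1⟩) | ⟨h1, h3⟩
      · exact h1 (Or.inr (Or.inl h2))
      · exact st0_z_ne_v W i (n := n + 0) (by rw [← ht]; omega) (h1.symm.trans h2)
      · exact W.st0_g_ne_v i (h1.symm.trans h2)
    · exact hkS (2 * (t.k - 1) + 1) (by omega) (by rw [t.st0_z_odd]; exact h2) (by omega) h1

theorem st0_FA_BD (W : World ω) (i : W.ι) (z : {x : P // x ∉ U (neg ω)}) :
    z ∈ FA (ω := ω) (W.st i).BD ↔ (z ∈ st0_R (W.st i) ∨ z ∈ st0_path (W.st i) 2) ∨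
      z ∈ st0_G ω (W.st i).q (W.st i).g := by
  set t := W.st i with ht
  rw [st0_mem_FA, st0_mem_R, st0_mem_path, st0_mem_G, st0_mem_BD]
  constructor
  · intro h1
    by_cases hS : st0_S t z.1
    · rcases hS with ⟨n, hn, h2⟩ | h2 | h2 | h2
      · have hn0 : n ≠ 0 := by
          rintro rfl
          have := t.st0_z_even 0
          rw [mul_zero] at this
          exact h1 (Or.inr (Or.inl (h2.trans this)))
        have hn1 : n ≠ 1 := by
          rintro rfl
          have := t.st0_z_odd 0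
          rw [mul_zero, zero_add] at this
          exact h1 (Or.inr (Or.inr (Or.inr (Or.inl (h2.trans this)))))
        have hn2 : n ≠ 2 * t.k + 1 := by
          rintro rfl
          rw [t.st0_z_odd] at h2
          exact h1 (Or.inr (Or.inr (Or.inr (Or.inr (Or.inr h2)))))
        refine Or.inl (Or.inr ⟨n - 2, by omega, ?_⟩)
        rw [h2]
        congr 1
        omega
      · exact absurd (Or.inl h2) h1
      · exact absurd (Or.inr (Or.inr (Or.inr (Or.inr (Or.inl h2))))) h1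
      · exact Or.inr ⟨h2, fun h3 => h1 (Or.inr (Or.inr (Or.inr (Or.inr (Or.inl h3)))))⟩
    · exact Or.inl (Or.inl hS)
  · intro h1 h2
    have hkS : ∀ n ≤ 2 * t.k + 1, z.1 = t.st0_z n → (n < 2 ∨ n = 2 * t.k + 1) →
        (¬ st0_S t z.1 ∨ ∃ n < 2 * t.k - 1, z.1 = t.st0_z (n + 2)) ∨ z.1 = t.q ∧ z.1 ≠ t.g →
        False := by
      intro n hn h3 h4 h5
      rcases h5 with (h5 | ⟨n', hn', h5⟩) | ⟨h5, _⟩
      · exact h5 (Or.inl ⟨n, hn, h3⟩)
      · have := t.st0_z_inj hn (by omega) (h3.symm.trans h5)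
        omega
      · exact st0_z_ne_q W i hn (h3.symm.trans h5)
    rcases h2 with h2 | h2 | h2 | h2 | h2 | h2
    · rcases h1 with (h1 | ⟨n, hn, h1⟩) | ⟨h1, h3⟩
      · exact h1 (Or.inr (Or.inl h2))
      · exact st0_z_ne_v W i (n := n + 2) (by rw [← ht]; omega) (h1.symm.trans h2)
      · exact W.st0_q_ne_v i (h1.symm.trans h2)
    · exact hkS (2 * 0) (by omega) (by rw [t.st0_z_even]; exact h2) (by omega) h1
    · exact z.2 (h2 ▸ t.st0_u_U)
    · exact hkS (2 * 0 + 1) (by omega) (by rw [t.st0_z_odd]; exact h2) (by omega) h1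
    · rcases h1 with (h1 | ⟨n, hn, h1⟩) | ⟨h1, h3⟩
      · exact h1 (Or.inr (Or.inr (Or.inl h2)))
      · exact st0_z_ne_g W i (n := n + 2) (by rw [← ht]; omega) (h1.symm.trans h2)
      · exact h3 h2
    · exact hkS (2 * t.k + 1) le_rfl (by rw [t.st0_z_odd]; exact h2) (by omega) h1

/-- the complements of the two bases have the same polynomial -/
theorem st0_K_eq (h : Setup ω) (W : World ω) (i : W.ι) (hqU : (W.st i).q ∉ U (neg ω))
    (hq : ∀ c, WeakCover ω (W.st i).q c → c ∈ U (neg ω)) :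
    K (sF h).toEG (FA (ω := ω) (W.st i).BC) = K (sF h).toEG (FA (ω := ω) (W.st i).BD) := by
  rw [st0_K_split h W i hq (Or.inl rfl) (Or.inl rfl) (st0_FA_BC W i),
    st0_K_split h W i hq (Or.inr rfl) (Or.inr rfl) (st0_FA_BD W i), st0_K_path h W i (Or.inl rfl),
    st0_K_path h W i (Or.inr rfl), st0_K_G h (W.st i).st0_g_U hqU]

end Pool.PP2
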