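import Pool.Agent.Lib.PP2.G.XBase
import Pool.Agent.Lib.PP2.G.MainId
import Pool.Agent.Lib.PP2.G.Eng
import Pool.Agent.Lib.PP2.G.St0K

/-!
# step 0, `k = 0`
-/

namespace Pool.PP2

open Finset Classical Pool.PPart

variable {P : Type*} {α : Type*} [PartialOrder P] [Fintype P] [LinearOrder α]
variable {ω : P → α}

/-- a set with nonzero coefficient belongs to a strip -/
theorem st0_exists (h : Setup ω) (W : World ω) {A : Finset P} (hA : IsLow A)
    (hX : XX ω A ≠ 0) : ∃ i, (∃ T, (W.st i).isC A T) ∨ ∃ T, (W.st i).isD A T := by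
  obtain ⟨T, hT, hne⟩ := Finset.exists_ne_zero_of_sum_ne_zero hX
  have h1 := left_ne_zero_of_mul hne
  have h2 := right_ne_zero_of_mul hne
  have hl : Locked ω A T := by
    by_contra hc
    exact h2 (if_neg hc)
  obtain ⟨i, hi⟩ := visible h W hA (Finset.mem_powersetCard.1 hT).2 h1 hl
  refine ⟨i, ?_⟩
  rcases hi with hi | hi | ⟨hk, hi | hi⟩
  · exact Or.inl ⟨T, hA, hl, Or.inl hi⟩
  · exact Or.inr ⟨T, hA, hl, Or.inl hi⟩
  · exact Or.inl ⟨T, hA, hl, Or.inr ⟨hk, hi⟩⟩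
  · exact Or.inr ⟨T, hA, hl, Or.inr ⟨hk, hi⟩⟩

theorem st0_w_mem {t : Strip ω} {A T : Finset P} (h : t.isC A T) : t.w t.k ∈ A := by
  obtain ⟨_, ⟨hT, _⟩, h1⟩ := h
  apply hT
  rcases h1 with h1 | ⟨_, h1⟩
  · rw [h1]
    simp [Strip.TC]
  · rw [h1]
    simp [Strip.TW]

theorem st0_u_mem {t : Strip ω} {A T : Finset P} (h : t.isD A T) : t.u ∈ A := by
  obtain ⟨_, ⟨hT, _⟩, h1⟩ := h
  apply hT
  rcases h1 with h1 | ⟨_, h1⟩
  · rw [h1]
    simp [Strip.TD]
  · rw [h1]
    simp [Strip.TS]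

theorem st0_one_le (h : Setup ω) (W : World ω) {A : Finset P} (hA : IsLow A)
    (hX : XX ω A ≠ 0) : 1 ≤ (A ∩ U (neg ω)).card := by
  rw [Nat.one_le_iff_ne_zero, Finset.card_ne_zero]
  obtain ⟨i, ⟨T, hi⟩ | ⟨T, hi⟩⟩ := st0_exists h W hA hX
  · exact ⟨_, Finset.mem_inter.2 ⟨st0_w_mem hi, (W.st i).st0_w_U le_rfl⟩⟩
  · exact ⟨_, Finset.mem_inter.2 ⟨st0_u_mem hi, (W.st i).st0_u_U⟩⟩

theorem st0_BC_low (h : Setup ω) (W : World ω) (i : W.ι) : IsLow (W.st i).BC :=
  (BC_isC h W i).1.1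

theorem st0_BD_low (h : Setup ω) (W : World ω) (i : W.ι) : IsLow (W.st i).BD :=
  (BD_isD h W i).1.1

theorem st0_BC_U (t : Strip ω) (hq : t.q ∉ U (neg ω)) : t.BC ∩ U (neg ω) = {t.w t.k} := by
  ext z
  rw [Finset.mem_inter, Finset.mem_singleton, st0_mem_BC]
  constructor
  · rintro ⟨h1 | h1 | h1 | h1 | h1 | ⟨h0, h1⟩, h2⟩
    · exact absurd (h1 ▸ h2) (t.st0_x_U le_rfl)
    · exact absurd (h1 ▸ h2) (t.st0_y_U le_rfl)
    · exact h1
    · exact absurd (h1 ▸ h2) hq
    · exact absurd (h1 ▸ h2) t.st0_v_U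
    · exact absurd (h1 ▸ h2) (t.st0_x_U (by omega))
  · intro h1
    exact ⟨by tauto, h1 ▸ t.st0_w_U le_rfl⟩

theorem st0_BD_U (t : Strip ω) : t.BD ∩ U (neg ω) = {t.u} := by
  ext z
  rw [Finset.mem_inter, Finset.mem_singleton, st0_mem_BD]
  constructor
  · rintro ⟨h1 | h1 | h1 | h1 | h1 | h1, h2⟩
    · exact absurd (h1 ▸ h2) t.st0_v_U
    · exact absurd (h1 ▸ h2) (t.st0_y_U (Nat.zero_le _))
    · exact h1
    · exact absurd (h1 ▸ h2) (t.st0_x_U (Nat.zero_le _))
    · exact absurd (h1 ▸ h2) t.st0_g_U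
    · exact absurd (h1 ▸ h2) (t.st0_x_U le_rfl)
  · intro h1
    exact ⟨by tauto, h1 ▸ t.st0_u_U⟩

/-- if `q ∈ U'` the base `BC` has two elements in `U'` -/
theorem st0_BC_U_two (t : Strip ω) (hq : t.q ∈ U (neg ω)) : (t.BC ∩ U (neg ω)).card ≠ 1 := by
  intro h
  obtain ⟨a, ha⟩ := Finset.card_eq_one.1 h
  have h1 : t.w t.k ∈ t.BC ∩ U (neg ω) :=
    Finset.mem_inter.2 ⟨(st0_mem_BC t _).2 (by tauto), t.st0_w_U le_rfl⟩
  have h2 : t.q ∈ t.BC ∩ U (neg ω) := Finset.mem_inter.2 ⟨(st0_mem_BC t _).2 (by tauto), hq⟩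
  rw [ha, Finset.mem_singleton] at h1 h2
  have h3 := t.qw.1.lt
  rw [h1, h2] at h3
  exact lt_irrefl _ h3

theorem st0_cvx_aux {M : Type*} [Fintype M] (Q : EG M) {A F : Finset M} (hA : Q.Low A)
    (hF : ∀ z, z ∈ F ↔ z ∉ A) : Q.Cvx F := by
  refine ⟨A, univ, hA, fun _ _ _ _ => Finset.mem_univ _, Finset.subset_univ _, ?_⟩
  ext z
  rw [Finset.mem_sdiff, hF]
  simp

theorem st0_cvx (h : Setup ω) {A : Finset P} (hA : IsLow A) :
    (sF h).toEG.Cvx (FA (ω := ω) A) := by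
  refine st0_cvx_aux _ (A := univ.filter (fun x => x.1 ∈ A)) ?_ ?_
  · intro x y he hy
    rw [Finset.mem_filter] at hy ⊢
    exact ⟨Finset.mem_univ _, hA _ hy.2 _ (st0_e he).le⟩
  · intro z
    rw [st0_mem_FA, Finset.mem_filter]
    simp

/-- the argument of step 0 -/
theorem st0_core (h : Setup ω) (W : World ω) (n : ℕ) (hn : 3 ≤ n) (S : Finset W.ι) (m : ℤ)
    (hm : 0 < m) (hXC : ∀ i ∈ S, XX ω (W.st i).BC = m) (hXD : ∀ i ∈ S, XX ω (W.st i).BD = -m)
    (hcC : ∀ i ∈ S, (W.st i).BC.card = n) (hcD : ∀ i ∈ S, (W.st i).BD.card = n)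
    (hex : ∀ A : Finset P, IsLow A → A.card = n → (A ∩ U (neg ω)).card = 1 → XX ω A ≠ 0 →
      (∃ i ∈ S, A = (W.st i).BC) ∨ ∃ i ∈ S, A = (W.st i).BD) :
    ∀ i ∈ S, (W.st i).q ∉ U (neg ω) ∧ ∀ c, WeakCover ω (W.st i).q c → c ∈ U (neg ω) := by
  have hid := main_identity h n 1 hn (fun A hA _ hX => st0_one_le h W hA hX)
  set I := S.filter (fun i => (W.st i).q ∉ U (neg ω)) with hI
  have hIS : ∀ i ∈ I, i ∈ S := fun i hi => (Finset.mem_filter.1 hi).1
  have hIq : ∀ i ∈ I, (W.st i).q ∉ U (neg ω) := fun i hi => (Finset.mem_filter.1 hi).2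
  set KK : Finset P → Lam ℚ := fun A => K (sF h).toEG (FA (ω := ω) A) with hKK
  have hinjC : ∀ i ∈ I, ∀ j ∈ I, (W.st i).BC = (W.st j).BC → i = j := by
    intro i hi j hj hij
    have h1 := st0_BC_U (W.st i) (hIq i hi)
    rw [hij, st0_BC_U (W.st j) (hIq j hj)] at h1
    exact W.inj_w (Finset.singleton_injective h1).symm
  have hinjD : ∀ i ∈ S, ∀ j ∈ S, (W.st i).BD = (W.st j).BD → i = j := by
    intro i hi j hj hij
    have h1 := st0_BD_U (W.st i)
    rw [hij, st0_BD_U (W.st j)] at h1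
    exact W.inj_u (Finset.singleton_injective h1).symm
  have hdis : Disjoint (I.image (fun i => (W.st i).BC)) (S.image (fun i => (W.st i).BD)) := by
    rw [Finset.disjoint_left]
    intro A h1 h2
    rw [Finset.mem_image] at h1 h2
    obtain ⟨i, hi, rfl⟩ := h1
    obtain ⟨j, hj, h3⟩ := h2
    have h4 := hXC i (hIS i hi)
    rw [← h3, hXD j hj] at h4
    omega
  have key : ∑ A ∈ I.image (fun i => (W.st i).BC) ∪ S.image (fun i => (W.st i).BD),
      (XX ω A : ℚ) • KK A = 0 := by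
    rw [← hid]
    refine Finset.sum_subset ?_ ?_
    · intro A hA
      rw [Finset.mem_filter]
      rw [Finset.mem_union, Finset.mem_image, Finset.mem_image] at hA
      rcases hA with ⟨i, hi, rfl⟩ | ⟨i, hi, rfl⟩
      · refine ⟨Finset.mem_univ _, st0_BC_low h W i, hcC i (hIS i hi), ?_⟩
        rw [st0_BC_U _ (hIq i hi), Finset.card_singleton]
      · refine ⟨Finset.mem_univ _, st0_BD_low h W i, hcD i hi, ?_⟩
        rw [st0_BD_U, Finset.card_singleton]
    · intro A hA hA'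
      rw [Finset.mem_filter] at hA
      obtain ⟨_, h1, h2, h3⟩ := hA
      by_contra hne
      have h4 : XX ω A ≠ 0 := by
        intro h5
        rw [h5] at hne
        simp at hne
      apply hA'
      rw [Finset.mem_union, Finset.mem_image, Finset.mem_image]
      rcases hex A h1 h2 h3 h4 with ⟨i, hi, rfl⟩ | ⟨i, hi, rfl⟩
      · refine Or.inl ⟨i, Finset.mem_filter.2 ⟨hi, fun hq => ?_⟩, rfl⟩
        exact st0_BC_U_two _ hq h3
      · exact Or.inr ⟨i, hi, rfl⟩
  have hm0 : (m : ℚ) ≠ 0 := by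
    have : m ≠ 0 := by omega
    exact_mod_cast this
  have key2 : ∑ i ∈ I, KK (W.st i).BC = ∑ i ∈ S, KK (W.st i).BD := by
    rw [Finset.sum_union hdis, Finset.sum_image hinjC, Finset.sum_image hinjD,
      Finset.sum_congr rfl (fun i hi => by rw [hXC i (hIS i hi)]),
      Finset.sum_congr (s₁ := S) rfl (fun i hi => by rw [hXD i hi])] at key
    rw [← Finset.smul_sum, ← Finset.smul_sum] at key
    push_cast at key
    rw [neg_smul, ← sub_eq_add_neg, ← smul_sub, smul_eq_zero] at key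
    rcases key with key | key
    · exact absurd key hm0
    · exact sub_eq_zero.1 key
  -- rows
  have hrow : ∀ i ∈ I, (sF h).toEG.rows (FA (ω := ω) (W.st i).BC) ≤
      (st0_RW ω (∅ : Finset P)).card - 3 := by
    refine rows_le (sF h) I S (fun _ => 1) (fun _ => 1) (fun i => FA (ω := ω) (W.st i).BC)
      (fun i => FA (ω := ω) (W.st i).BD) (fun i _ => st0_cvx h (st0_BC_low h W i))
      (fun i _ => st0_cvx h (st0_BD_low h W i)) (fun _ _ => one_pos) (fun _ _ => one_pos) ?_ _ ?_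
    · simp only [one_smul]
      exact key2
    · intro i _
      rw [st0_rows]
      have := st0_rows_D W i
      omega
  have hqw : ∀ i ∈ I, ∀ c, WeakCover ω (W.st i).q c → c ∈ U (neg ω) := by
    intro i hi c hc
    by_contra hcU
    have h1 := hrow i hi
    rw [st0_rows] at h1
    have h2 := st0_rows_C W i (hIq i hi) hc hcU
    have h3 := st0_rows_D W i
    omega
  -- positivity
  have key3 : ∑ i ∈ S \ I, MvPolynomial.C (1 : ℚ) * K (sF h).toEG (FA (ω := ω) (W.st i).BD) = 0 := by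
    have h1 : ∑ i ∈ I, KK (W.st i).BC = ∑ i ∈ I, KK (W.st i).BD :=
      Finset.sum_congr rfl fun i hi => st0_K_eq h W i (hIq i hi) (hqw i hi)
    rw [h1, ← Finset.sum_sdiff (Finset.filter_subset _ _ : I ⊆ S)] at key2
    simp only [map_one, one_mul]
    exact left_eq_add.1 (key2.trans (add_comm _ _)) 
  have hall : ∀ i ∈ S \ I, False := by
    intro i hi
    have h1 := K_pos (S \ I) (fun _ => (1 : ℚ)) (fun _ => (sF h).toEG)
      (fun i => FA (ω := ω) (W.st i).BD) (fun _ _ => zero_le_one) key3 i hi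
    exact one_ne_zero h1
  intro i hi
  have hiI : i ∈ I := by
    by_contra hc
    exact hall i (Finset.mem_sdiff.2 ⟨hi, hc⟩)
  exact ⟨hIq i hiI, hqw i hiI⟩

/-- chunk G3a (step 0, `k = 0`): for a strip with `k = 0`, `q ∉ U'` and all weak covers of `q` lie
in `U'` (so `q` is isolated in `F`).

Proof: `main_identity` with `n = 5`, `c = 1`: the sets are the bases of the strips with `k = 0`
(`BC` only if `q ∉ U'`). `rows (F∖BC) = rows F - 2 - [E(q) ∉ F]`, `rows (F∖BD) = rows F - 3`;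
positivity of the top power of `T_z` gives `E(q) ∉ F` whenever `q ∉ U'`; then
`K (F∖BC) = K (F∖BD)` and positivity gives `q ∉ U'` for all strips with `k = 0`. -/
theorem step0a (h : Setup ω) (W : World ω) (i : W.ι) (hk : (W.st i).k = 0) :
    (W.st i).q ∉ U (neg ω) ∧ ∀ c, WeakCover ω (W.st i).q c → c ∈ U (neg ω) := by
  have := W.fin
  refine st0_core h W 5 (by norm_num) (univ.filter (fun i => (W.st i).k = 0)) 1 one_pos
    ?_ ?_ ?_ ?_ ?_ i (by simpa using hk)
  · intro i hi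
    rw [XX_BC h W i, if_pos (Finset.mem_filter.1 hi).2]
  · intro i hi
    rw [XX_BD h W i, if_pos (Finset.mem_filter.1 hi).2]
  · intro i hi
    rw [card_BC h W i, if_pos (Finset.mem_filter.1 hi).2]
  · intro i hi
    rw [card_BD h W i, if_pos (Finset.mem_filter.1 hi).2]
  · intro A hA hcard _ hX
    obtain ⟨i, ⟨T, hi⟩ | ⟨T, hi⟩⟩ := st0_exists h W hA hX
    · left
      have h1 := BC_subset h W i hi
      have h2 := card_BC h W i
      have h3 := Finset.card_le_card h1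
      have hk0 : (W.st i).k = 0 := by
        by_contra hc
        rw [if_neg hc] at h2
        omega
      rw [if_pos hk0] at h2
      exact ⟨i, by simpa using hk0, (Finset.eq_of_subset_of_card_le h1 (by omega)).symm⟩
    · right
      have h1 := BD_subset h W i hi
      have h2 := card_BD h W i
      have h3 := Finset.card_le_card h1
      have hk0 : (W.st i).k = 0 := by
        by_contra hc
        rw [if_neg hc] at h2
        omega
      rw [if_pos hk0] at h2
      exact ⟨i, by simpa using hk0, (Finset.eq_of_subset_of_card_le h1 (by omega)).symm⟩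

end Pool.PP2
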