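import Pool.Agent.Lib.PP2.G.Step0a

/-!
# step 0, `k ≥ 1`
-/

namespace Pool.PP2

open Finset Classical Pool.PPart

variable {P : Type*} {α : Type*} [PartialOrder P] [Fintype P] [LinearOrder α]
variable {ω : P → α}

theorem st0_two {A : Finset P} {a b : P} (ha : a ∈ A) (hb : b ∈ A) (haU : a ∈ U (neg ω))
    (hbU : b ∈ U (neg ω)) (hab : a ≠ b) : (A ∩ U (neg ω)).card ≠ 1 := by
  intro h
  obtain ⟨c, hc⟩ := Finset.card_eq_one.1 h
  have h1 : a ∈ A ∩ U (neg ω) := Finset.mem_inter.2 ⟨ha, haU⟩
  have h2 : b ∈ A ∩ U (neg ω) := Finset.mem_inter.2 ⟨hb, hbU⟩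
  rw [hc, Finset.mem_singleton] at h1 h2
  exact hab (h1.trans h2.symm)

theorem st0_six_C (h : Setup ω) (W : World ω) (i : W.ι) (hk : (W.st i).k = 0) {A T : Finset P}
    (hi : (W.st i).isC A T) (hcard : A.card = 6) : (A ∩ U (neg ω)).card ≠ 1 := by
  have h1 := BC_subset h W i hi
  have h2 := card_BC h W i
  rw [if_pos hk] at h2
  have h3 := Finset.card_sdiff_of_subset h1
  obtain ⟨c, hc⟩ := Finset.card_eq_one.1 (show (A \ (W.st i).BC).card = 1 by omega)
  have hcA : c ∈ A \ (W.st i).BC := by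
    rw [hc]
    exact Finset.mem_singleton_self c
  rw [Finset.mem_sdiff] at hcA
  have hAc : ∀ z ∈ A, z ∈ (W.st i).BC ∨ z = c := by
    intro z hz
    by_cases hz' : z ∈ (W.st i).BC
    · exact Or.inl hz'
    · right
      have : z ∈ A \ (W.st i).BC := Finset.mem_sdiff.2 ⟨hz, hz'⟩
      rw [hc, Finset.mem_singleton] at this
      exact this
  obtain ⟨_, hl, hT⟩ := hi
  have hT' : T = (W.st i).TC := by
    rcases hT with hT | ⟨h5, _⟩
    · exact hT
    · omega
  set t := W.st i with ht
  have hTm : ∀ z, z ∈ T ↔ z = t.x t.k ∨ z = t.y t.k ∨ z = t.w t.k := by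
    intro z
    rw [hT']
    simp [Strip.TC]
  have hcB : ¬ (c = t.x t.k ∨ c = t.y t.k ∨ c = t.w t.k ∨ c = t.q ∨ c = t.v ∨
      (1 ≤ t.k ∧ c = t.x (t.k - 1))) := fun h5 => hcA.2 ((st0_mem_BC t c).2 h5)
  have hcT : c ∉ T := fun h5 => hcB (by have := (hTm c).1 h5; tauto)
  have hwA : t.w t.k ∈ A := h1 ((st0_mem_BC t _).2 (by tauto))
  have hf : ∀ f ∈ A \ T, f = t.q ∨ f = t.v ∨ f = c := by
    intro f hf
    rw [Finset.mem_sdiff, hTm] at hf
    rcases hAc f hf.1 with h5 | h5
    · rw [st0_mem_BC] at h5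
      rcases h5 with h5 | h5 | h5 | h5 | h5 | ⟨h6, h5⟩
      all_goals first | tauto | omega
    · tauto
  have hnFI : ¬ FI ω A T c := by
    rintro (⟨z, hz, hcz⟩ | ⟨f, hf1, hcf⟩)
    · rcases (hTm z).1 hz with h5 | h5 | h5
      · rw [h5] at hcz
        exact (t.xmin _ le_rfl).not_lt hcz.lt
      · rw [h5] at hcz
        rcases strict_or_weak h.inj hcz with h6 | h6
        · have := W.st0_y_below_strict i le_rfl h6
          tauto
        · rw [hk] at h6
          have := W.st0_y_below_weak_zero i h6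
          tauto
      · rw [h5] at hcz
        rcases strict_or_weak h.inj hcz with h6 | h6
        · have := W.st0_w_strict i h6
          tauto
        · rcases W.st0_w_weak i h6 with h7 | ⟨h7, _⟩
          · tauto
          · rw [← ht] at h7
            omega
    · rcases hf f hf1 with h5 | h5 | h5
      · rw [h5] at hcf
        exact t.qmin.not_lt hcf.1.lt
      · rw [h5] at hcf
        exact t.vmin.not_lt hcf.1.lt
      · rw [h5] at hcf
        exact lt_irrefl _ hcf.1.lt
  have hFB : FB ω A T c := by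
    rcases hl.2 c (Finset.mem_sdiff.2 ⟨hcA.1, hcT⟩) with h5 | h5
    · exact absurd h5.1 hnFI
    · exact h5.1
  have hcU : c ∈ U (neg ω) := by
    rcases hFB with ⟨z, hz, hcz⟩ | ⟨f, hf1, hcf⟩
    · rcases (hTm z).1 hz with h5 | h5 | h5
      · rw [h5] at hcz
        rcases strict_or_weak h.inj hcz with h6 | h6
        · rcases W.st0_x_strict i h6 with h7 | ⟨h7, _⟩
          · tauto
          · rw [← ht] at h7
            omega
        · exact st0_mem_U_of_max (t.emax _ h6)
      · rw [h5] at hcz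
        rcases strict_or_weak h.inj hcz with h6 | h6
        · exact st0_mem_U_of_max (W.st0_y_strict i le_rfl h6)
        · exact W.st0_y_weak i le_rfl h6 ▸ t.st0_w_U le_rfl
      · rw [h5] at hcz
        exact absurd hcz.lt (t.wmax _ le_rfl).not_lt
    · rcases hf f hf1 with h5 | h5 | h5
      · rw [h5] at hcf
        exact W.st0_q_strict i hcf ▸ t.st0_w_U le_rfl
      · rw [h5] at hcf
        exact st0_mem_U_of_max (t.fmax _ hcf)
      · rw [h5] at hcf
        exact absurd hcf.1.lt (lt_irrefl _)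
  exact st0_two hcA.1 hwA hcU (t.st0_w_U le_rfl) (fun h5 => hcB (by tauto))

theorem st0_six_D (h : Setup ω) (W : World ω) (i : W.ι) (hk : (W.st i).k = 0) {A T : Finset P}
    (hi : (W.st i).isD A T) (hcard : A.card = 6) : (A ∩ U (neg ω)).card ≠ 1 := by
  have h1 := BD_subset h W i hi
  have h2 := card_BD h W i
  rw [if_pos hk] at h2
  have h3 := Finset.card_sdiff_of_subset h1
  obtain ⟨c, hc⟩ := Finset.card_eq_one.1 (show (A \ (W.st i).BD).card = 1 by omega)
  have hcA : c ∈ A \ (W.st i).BD := by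
    rw [hc]
    exact Finset.mem_singleton_self c
  rw [Finset.mem_sdiff] at hcA
  have hAc : ∀ z ∈ A, z ∈ (W.st i).BD ∨ z = c := by
    intro z hz
    by_cases hz' : z ∈ (W.st i).BD
    · exact Or.inl hz'
    · right
      have : z ∈ A \ (W.st i).BD := Finset.mem_sdiff.2 ⟨hz, hz'⟩
      rw [hc, Finset.mem_singleton] at this
      exact this
  obtain ⟨_, hl, hT⟩ := hi
  have hT' : T = (W.st i).TD := by
    rcases hT with hT | ⟨h5, _⟩
    · exact hT
    · omega
  set t := W.st i with ht
  have hTm : ∀ z, z ∈ T ↔ z = t.v ∨ z = t.y 0 ∨ z = t.u := by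
    intro z
    rw [hT']
    simp [Strip.TD]
  have hcB : ¬ (c = t.v ∨ c = t.y 0 ∨ c = t.u ∨ c = t.x 0 ∨ c = t.g ∨ c = t.x t.k) :=
    fun h5 => hcA.2 ((st0_mem_BD t c).2 h5)
  have hcT : c ∉ T := fun h5 => hcB (by have := (hTm c).1 h5; tauto)
  have huA : t.u ∈ A := h1 ((st0_mem_BD t _).2 (by tauto))
  have hf : ∀ f ∈ A \ T, f = t.x t.k ∨ f = t.g ∨ f = c := by
    intro f hf
    rw [Finset.mem_sdiff, hTm] at hf
    rcases hAc f hf.1 with h5 | h5
    · rw [st0_mem_BD] at h5
      rw [hk] at h5 ⊢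
      tauto
    · tauto
  have hnFI : ¬ FI ω A T c := by
    rintro (⟨z, hz, hcz⟩ | ⟨f, hf1, hcf⟩)
    · rcases (hTm z).1 hz with h5 | h5 | h5
      · rw [h5] at hcz
        exact t.vmin.not_lt hcz.lt
      · rw [h5] at hcz
        rcases strict_or_weak h.inj hcz with h6 | h6
        · have := W.st0_y_below_strict i (Nat.zero_le _) h6
          tauto
        · have := W.st0_y_below_weak_zero i h6
          tauto
      · rw [h5] at hcz
        rcases strict_or_weak h.inj hcz with h6 | h6
        · rcases W.st0_u_strict i h6 with h7 | ⟨h7, _⟩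
          · tauto
          · rw [← ht] at h7
            omega
        · have := W.st0_u_weak i h6
          tauto
    · rcases hf f hf1 with h5 | h5 | h5
      · rw [h5] at hcf
        exact (t.xmin _ le_rfl).not_lt hcf.1.lt
      · rw [h5] at hcf
        exact t.gmin.not_lt hcf.1.lt
      · rw [h5] at hcf
        exact lt_irrefl _ hcf.1.lt
  have hFB : FB ω A T c := by
    rcases hl.2 c (Finset.mem_sdiff.2 ⟨hcA.1, hcT⟩) with h5 | h5
    · exact absurd h5.1 hnFI
    · exact h5.1
  have hcU : c ∈ U (neg ω) := by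
    rcases hFB with ⟨z, hz, hcz⟩ | ⟨f, hf1, hcf⟩
    · rcases (hTm z).1 hz with h5 | h5 | h5
      · rw [h5] at hcz
        rcases strict_or_weak h.inj hcz with h6 | h6
        · exact st0_mem_U_of_max (t.fmax _ h6)
        · rcases W.st0_v_weak i h6 with h7 | ⟨h7, _⟩
          · tauto
          · rw [← ht] at h7
            omega
      · rw [h5] at hcz
        rcases strict_or_weak h.inj hcz with h6 | h6
        · exact st0_mem_U_of_max (W.st0_y_strict i (Nat.zero_le _) h6)
        · exact W.st0_y_weak i (Nat.zero_le _) h6 ▸ t.st0_w_U (Nat.zero_le _)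
      · rw [h5] at hcz
        exact absurd hcz.lt t.umax.not_lt
    · rcases hf f hf1 with h5 | h5 | h5
      · rw [h5] at hcf
        rcases W.st0_x_strict i hcf with h7 | ⟨h7, _⟩
        · rw [← ht, hk] at h7
          tauto
        · rw [← ht] at h7
          omega
      · rw [h5] at hcf
        exact t.giso _ hcf
      · rw [h5] at hcf
        exact absurd hcf.1.lt (lt_irrefl _)
  exact st0_two hcA.1 huA hcU t.st0_u_U (fun h5 => hcB (by tauto))

/-- chunk G3b (step 0, `k ≥ 1`): same with `n = 6`, `c = 1` (the strips with `k = 0` have no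
sets of size `6` with `|A ∩ U'| = 1`, by `step0a`). -/
theorem step0b (h : Setup ω) (W : World ω) (i : W.ι) (hk : 1 ≤ (W.st i).k) :
    (W.st i).q ∉ U (neg ω) ∧ ∀ c, WeakCover ω (W.st i).q c → c ∈ U (neg ω) := by
  have := W.fin
  refine st0_core h W 6 (by norm_num) (univ.filter (fun i => 1 ≤ (W.st i).k)) 2 two_pos
    ?_ ?_ ?_ ?_ ?_ i (by simpa using hk)
  · intro i hi
    rw [XX_BC h W i, if_neg (by have := (Finset.mem_filter.1 hi).2; omega)]
  · intro i hi
    rw [XX_BD h W i, if_neg (by have := (Finset.mem_filter.1 hi).2; omega)]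
  · intro i hi
    rw [card_BC h W i, if_neg (by have := (Finset.mem_filter.1 hi).2; omega)]
  · intro i hi
    rw [card_BD h W i, if_neg (by have := (Finset.mem_filter.1 hi).2; omega)]
  · intro A hA hcard hU hX
    obtain ⟨i, ⟨T, hi⟩ | ⟨T, hi⟩⟩ := st0_exists h W hA hX
    · left
      have hk0 : ¬ (W.st i).k = 0 := fun hc => st0_six_C h W i hc hi hcard hU
      have h1 := BC_subset h W i hi
      have h2 := card_BC h W i
      rw [if_neg hk0] at h2
      refine ⟨i, ?_, (Finset.eq_of_subset_of_card_le h1 (by omega)).symm⟩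
      rw [Finset.mem_filter]
      exact ⟨Finset.mem_univ _, by omega⟩
    · right
      have hk0 : ¬ (W.st i).k = 0 := fun hc => st0_six_D h W i hc hi hcard hU
      have h1 := BD_subset h W i hi
      have h2 := card_BD h W i
      rw [if_neg hk0] at h2
      refine ⟨i, ?_, (Finset.eq_of_subset_of_card_le h1 (by omega)).symm⟩
      rw [Finset.mem_filter]
      exact ⟨Finset.mem_univ _, by omega⟩

end Pool.PP2
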