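import Pool.Agent.Lib.PP2.G.Base

/-!
# the coefficients of the bases
-/

namespace Pool.PP2

open Finset Classical Pool.PPart

variable {P : Type*} {α : Type*} [PartialOrder P] [Fintype P] [LinearOrder α]
variable {ω : P → α}

theorem bs_vis_BC (h : Setup ω) (W : World ω) (i : W.ι) {T : Finset P}
    (hT : T ⊆ (W.st i).BC) (hc : T.card = 3) (hd : dlt ω T ≠ 0)
    (hl : Locked ω (W.st i).BC T) :
    T = (W.st i).TC ∨ (1 ≤ (W.st i).k ∧ T = (W.st i).TW) := by
  have hlow : IsLow (W.st i).BC := (BC_isC h W i).1.1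
  -- a maximal non-minimal element of the base is `w_k`
  have key : ∀ z ∈ (W.st i).BC, IsMax z → ¬ IsMin z → z = (W.st i).w (W.st i).k := by
    intro z hz hz1 hz2
    simp only [Strip.BC, Finset.mem_insert, Finset.mem_singleton] at hz
    rcases hz with rfl | rfl | rfl | rfl | rfl | rfl
    · exact absurd ((W.st i).xmin _ le_rfl) hz2
    · exact absurd hz1 (bs_ymax _ le_rfl)
    · rfl
    · exact absurd ((W.st i).qmin) hz2
    · exact absurd ((W.st i).vmin) hz2
    · exfalso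
      apply hz2
      split_ifs with hk
      · exact (W.st i).vmin
      · exact (W.st i).xmin _ (by omega)
  have hu : ∀ j, (W.st j).u ∉ T := fun j hj =>
    W.wu i j (key _ (hT hj) (W.st j).umax (bs_umin _)).symm
  have hw : ∀ j, (W.st j).w (W.st j).k ∈ T → j = i := fun j hj =>
    W.inj_w (key _ (hT hj) ((W.st j).wmax _ le_rfl) (bs_wmin _ le_rfl))
  obtain ⟨j, hj⟩ := visible h W hlow hc hd hl
  rcases hj with hj | hj | ⟨hk, hj | hj⟩
  · have := hw j (by rw [hj]; simp [Strip.TC])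
    subst this
    exact Or.inl hj
  · exact absurd (by rw [hj]; simp [Strip.TD]) (hu j)
  · have := hw j (by rw [hj]; simp [Strip.TW])
    subst this
    exact Or.inr ⟨hk, hj⟩
  · exact absurd (by rw [hj]; simp [Strip.TS]) (hu j)

theorem bs_vis_BD (h : Setup ω) (W : World ω) (i : W.ι) {T : Finset P}
    (hT : T ⊆ (W.st i).BD) (hc : T.card = 3) (hd : dlt ω T ≠ 0)
    (hl : Locked ω (W.st i).BD T) :
    T = (W.st i).TD ∨ (1 ≤ (W.st i).k ∧ T = (W.st i).TS) := by
  have hlow : IsLow (W.st i).BD := (BD_isD h W i).1.1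
  have key : ∀ z ∈ (W.st i).BD, IsMax z → ¬ IsMin z → z = (W.st i).u := by
    intro z hz hz1 hz2
    simp only [Strip.BD, Finset.mem_insert, Finset.mem_singleton] at hz
    rcases hz with rfl | rfl | rfl | rfl | rfl | rfl
    · exact absurd ((W.st i).vmin) hz2
    · exact absurd hz1 (bs_ymax _ (Nat.zero_le _))
    · rfl
    · exact absurd ((W.st i).xmin _ (Nat.zero_le _)) hz2
    · exact absurd ((W.st i).gmin) hz2
    · exact absurd ((W.st i).xmin _ le_rfl) hz2
  have hw : ∀ j, (W.st j).w (W.st j).k ∉ T := fun j hj =>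
    W.wu j i (key _ (hT hj) ((W.st j).wmax _ le_rfl) (bs_wmin _ le_rfl))
  have hu : ∀ j, (W.st j).u ∈ T → j = i := fun j hj =>
    W.inj_u (key _ (hT hj) (W.st j).umax (bs_umin _))
  obtain ⟨j, hj⟩ := visible h W hlow hc hd hl
  rcases hj with hj | hj | ⟨hk, hj | hj⟩
  · exact absurd (by rw [hj]; simp [Strip.TC]) (hw j)
  · have := hu j (by rw [hj]; simp [Strip.TD])
    subst this
    exact Or.inl hj
  · exact absurd (by rw [hj]; simp [Strip.TW]) (hw j)
  · have := hu j (by rw [hj]; simp [Strip.TS])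
    subst this
    exact Or.inr ⟨hk, hj⟩

/-- the sum over the visible triples -/
theorem bs_sum (A T₁ T₂ : Finset P) (c : ℤ) (k : ℕ)
    (h1 : ∀ T ⊆ A, T.card = 3 → dlt ω T ≠ 0 → Locked ω A T → T = T₁ ∨ (1 ≤ k ∧ T = T₂))
    (h2 : T₁ ⊆ A ∧ T₁.card = 3 ∧ dlt ω T₁ = c ∧ wt ω A T₁ = 1)
    (h3 : 1 ≤ k → T₂ ⊆ A ∧ T₂.card = 3 ∧ dlt ω T₂ = c ∧ wt ω A T₂ = 1 ∧ T₁ ≠ T₂) :
    XX ω A = if k = 0 then c else 2 * c := by
  have hz : ∀ T ∈ A.powersetCard 3, ¬ (T = T₁ ∨ (1 ≤ k ∧ T = T₂)) → dlt ω T * wt ω A T = 0 := by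
    intro T hT hn
    rw [Finset.mem_powersetCard] at hT
    by_contra hne
    have hd : dlt ω T ≠ 0 := left_ne_zero_of_mul hne
    have hw : wt ω A T ≠ 0 := right_ne_zero_of_mul hne
    have hl : Locked ω A T := by
      by_contra hl
      exact hw (by rw [wt, if_neg hl])
    exact hn (h1 T hT.1 hT.2 hd hl)
  unfold XX
  by_cases hk : k = 0
  · rw [if_pos hk, Finset.sum_eq_single_of_mem T₁]
    · rw [h2.2.2.1, h2.2.2.2, mul_one]
    · rw [Finset.mem_powersetCard]; exact ⟨h2.1, h2.2.1⟩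
    · intro T hT hne
      apply hz T hT
      rintro (h4 | ⟨h4, _⟩)
      · exact hne h4
      · omega
  · have h3' := h3 (by omega)
    rw [if_neg hk, ← Finset.sum_subset (s₁ := {T₁, T₂})]
    · rw [Finset.sum_pair h3'.2.2.2.2, h2.2.2.1, h2.2.2.2, h3'.2.2.1, h3'.2.2.2.1]
      ring
    · intro T hT
      rw [Finset.mem_insert, Finset.mem_singleton] at hT
      rw [Finset.mem_powersetCard]
      rcases hT with rfl | rfl
      · exact ⟨h2.1, h2.2.1⟩
      · exact ⟨h3'.1, h3'.2.1⟩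
    · intro T hT hne
      apply hz T hT
      rintro (h4 | ⟨_, h4⟩)
      · exact hne (by simp [h4])
      · exact hne (by simp [h4])

/-- the coefficient of the bases -/
theorem XX_BC (h : Setup ω) (W : World ω) (i : W.ι) :
    XX ω (W.st i).BC = if (W.st i).k = 0 then 1 else 2 := by
  have := bs_sum (ω := ω) (W.st i).BC (W.st i).TC (W.st i).TW 1 (W.st i).k
    (fun T hT hc hd hl => bs_vis_BC h W i hT hc hd hl)
    (by
      obtain ⟨h1, h2, h3⟩ := bs_BC h W i _ (Or.inl rfl)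
      exact ⟨h2, card_TC h W i, dlt_TC h W i, (bs_locked h2 h3).2⟩)
    (fun hk => by
      obtain ⟨h1, h2, h3⟩ := bs_BC h W i _ (Or.inr ⟨hk, rfl⟩)
      refine ⟨h2, card_TW h W i hk, dlt_TW h W i hk, (bs_locked h2 h3).2, fun heq => ?_⟩
      have hx : (W.st i).x (W.st i).k ∈ (W.st i).TW := by
        rw [← heq]; simp [Strip.TC]
      simp only [Strip.TW, Finset.mem_insert, Finset.mem_singleton] at hx
      rcases hx with h4 | h4 | h4
      · exact W.xv i i h4
      · exact ((W.st i).xy _ le_rfl).1.lt.ne h4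
      · exact (((W.st i).xy _ le_rfl).1.lt.trans ((W.st i).yw _ le_rfl).1.lt).ne h4)
  rw [this]
  split_ifs <;> norm_num

theorem XX_BD (h : Setup ω) (W : World ω) (i : W.ι) :
    XX ω (W.st i).BD = if (W.st i).k = 0 then -1 else -2 := by
  have := bs_sum (ω := ω) (W.st i).BD (W.st i).TD (W.st i).TS (-1) (W.st i).k
    (fun T hT hc hd hl => bs_vis_BD h W i hT hc hd hl)
    (by
      obtain ⟨h1, h2, h3⟩ := bs_BD h W i _ (Or.inl rfl)
      exact ⟨h2, card_TD h W i, dlt_TD h W i, (bs_locked h2 h3).2⟩)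
    (fun hk => by
      obtain ⟨h1, h2, h3⟩ := bs_BD h W i _ (Or.inr ⟨hk, rfl⟩)
      refine ⟨h2, card_TS h W i hk, dlt_TS h W i hk, (bs_locked h2 h3).2, fun heq => ?_⟩
      have hx : (W.st i).v ∈ (W.st i).TS := by
        rw [← heq]; simp [Strip.TD]
      simp only [Strip.TS, Finset.mem_insert, Finset.mem_singleton] at hx
      rcases hx with h4 | h4 | h4
      · exact W.xv i i h4.symm
      · exact ((W.st i).vy).1.lt.ne h4
      · exact (((W.st i).vy).1.lt.trans ((W.st i).yu).1.lt).ne h4)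
  rw [this]
  split_ifs <;> norm_num

end Pool.PP2
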